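import Pool.Agent.MP_dbd6a6_co.H92.Fac

/-!
The coefficient inequality of Caratheodory and the sharp power sum bound.
-/

open Complex Metric Set Filter Topology MeasureTheory

noncomputable section

namespace Pool.Agent.MP_dbd6a6_co.H92

lemma circle_coeff {L : ℂ → ℂ} {ρ : ℝ} (hρ : 0 < ρ) (hL : DiffContOnCl ℂ L (ball 0 ρ)) (m : ℕ) :
    ∫ θ in (0 : ℝ)..2 * Real.pi, (circleMap 0 ρ θ)⁻¹ ^ m * L (circleMap 0 ρ θ) =
      2 * Real.pi * (iteratedDeriv m L 0 / m.factorial) := by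
  have h := hL.circleIntegral_one_div_sub_center_pow_smul hρ m
  simp only [circleIntegral, deriv_circleMap, smul_eq_mul, sub_zero] at h
  apply mul_left_cancel₀ I_ne_zero
  rw [← intervalIntegral.integral_const_mul]
  refine (intervalIntegral.integral_congr fun θ _ => ?_).trans (h.trans (by ring))
  have := circleMap_ne_center (c := 0) hρ.ne' (θ := θ)
  simp only [inv_pow]
  field_simp
  ring

lemma circle_zero {L : ℂ → ℂ} {ρ : ℝ} (hρ : 0 < ρ) (hL : DiffContOnCl ℂ L (ball 0 ρ)) (m : ℕ) :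
    ∫ θ in (0 : ℝ)..2 * Real.pi, circleMap 0 ρ θ ^ (m + 1) * L (circleMap 0 ρ θ) = 0 := by
  have hp : DiffContOnCl ℂ (fun z : ℂ => z ^ m) (ball 0 ρ) := Differentiable.diffContOnCl (by fun_prop)
  have h := (hp.smul hL).circleIntegral_eq_zero hρ.le
  simp only [circleIntegral, deriv_circleMap, smul_eq_mul] at h
  apply mul_left_cancel₀ I_ne_zero
  rw [← intervalIntegral.integral_const_mul, mul_zero]
  refine (intervalIntegral.integral_congr fun θ _ => ?_).trans h
  ring

lemma cara_aux {L : ℂ → ℂ} {ρ B : ℝ} (hρ : 0 < ρ) (hL : DiffContOnCl ℂ L (ball 0 ρ))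
    (h0 : L 0 = 0) (hB : ∀ z, ‖z‖ = ρ → (L z).re ≤ B) (m : ℕ) :
    ‖iteratedDeriv (m + 1) L 0 / (m + 1).factorial‖ ≤ 2 * B / ρ ^ (m + 1) := by
  have hE : ∀ θ, ‖circleMap 0 ρ θ‖ = ρ := fun θ => by simp [abs_of_pos hρ]
  have hE0 : ∀ θ, circleMap 0 ρ θ ≠ 0 := fun θ => circleMap_ne_center hρ.ne'
  have hc : Continuous fun θ => L (circleMap 0 ρ θ) :=
    hL.continuousOn.comp_continuous (continuous_circleMap 0 ρ) fun θ => by
      rw [closure_ball _ hρ.ne', mem_closedBall_zero_iff, hE]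
  have hi : Continuous fun θ => (circleMap 0 ρ θ)⁻¹ := (continuous_circleMap 0 ρ).inv₀ hE0
  have h1 := circle_coeff hρ hL (m + 1)
  have h2 := circle_coeff hρ (L := fun _ => (B : ℂ)) diffContOnCl_const (m + 1)
  have h3 := circle_coeff hρ hL 0
  have h4 : ∫ θ in (0 : ℝ)..2 * Real.pi,
      (circleMap 0 ρ θ)⁻¹ ^ (m + 1) * starRingEnd ℂ (L (circleMap 0 ρ θ)) = 0 := by
    have h := congrArg (fun z => ((ρ : ℂ) ^ 2)⁻¹ ^ (m + 1) * starRingEnd ℂ z) (circle_zero hρ hL m)
    simp only [map_zero, mul_zero] at h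
    rw [intervalIntegral.integral_of_le (by positivity), ← integral_conj, ← integral_const_mul,
      ← intervalIntegral.integral_of_le (by positivity)] at h
    refine (intervalIntegral.integral_congr fun θ _ => ?_).trans h
    simp only [map_mul, map_pow]
    rw [← mul_assoc, ← mul_pow, inv_def, normSq_eq_norm_sq, hE]
    push_cast
    ring
  simp only [iteratedDeriv_const, Nat.add_eq_zero_iff, one_ne_zero, and_false, if_false, zero_div,
    mul_zero] at h2
  simp only [pow_zero, one_mul, iteratedDeriv_zero, h0, zero_div, mul_zero] at h3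
  have h5 : 2 * Real.pi * (iteratedDeriv (m + 1) L 0 / (m + 1).factorial) =
      ∫ θ in (0 : ℝ)..2 * Real.pi,
        (circleMap 0 ρ θ)⁻¹ ^ (m + 1) * ((2 * ((L (circleMap 0 ρ θ)).re - B) : ℝ) : ℂ) := by
    have I1 := ((hi.pow (m + 1)).mul hc).intervalIntegrable (μ := volume) 0 (2 * Real.pi)
    have I2 := ((hi.pow (m + 1)).mul (continuous_conj.comp hc)).intervalIntegrable (μ := volume) 0
      (2 * Real.pi)
    have I3 := (((hi.pow (m + 1)).mul (continuous_const (y := (B : ℂ)))).intervalIntegrable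
      (μ := volume) 0 (2 * Real.pi)).const_mul 2
    have e := intervalIntegral.integral_sub (I1.add I2) I3
    rw [intervalIntegral.integral_add I1 I2, intervalIntegral.integral_const_mul] at e
    simp only [Pi.mul_apply, Pi.pow_apply, Function.comp_apply] at e
    rw [h1, h2, h4, add_zero, mul_zero, sub_zero] at e
    rw [← e]
    refine intervalIntegral.integral_congr fun θ _ => ?_
    rw [← mul_add, add_conj]
    push_cast
    ring
  have h6 : ∫ θ in (0 : ℝ)..2 * Real.pi, (L (circleMap 0 ρ θ)).re = 0 := by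
    have := reCLM.intervalIntegral_comp_comm (hc.intervalIntegrable (μ := volume) 0 (2 * Real.pi))
    simpa [h3] using this
  have h7 := intervalIntegral.norm_integral_le_integral_norm (μ := volume) (a := 0)
    (b := 2 * Real.pi) (by positivity) (f := fun θ =>
      (circleMap 0 ρ θ)⁻¹ ^ (m + 1) * ((2 * ((L (circleMap 0 ρ θ)).re - B) : ℝ) : ℂ))
  have h8 : ∀ θ, ‖(circleMap 0 ρ θ)⁻¹ ^ (m + 1) * ((2 * ((L (circleMap 0 ρ θ)).re - B) : ℝ) : ℂ)‖ =
      2 / ρ ^ (m + 1) * (B - (L (circleMap 0 ρ θ)).re) := fun θ => by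
    rw [norm_mul, norm_pow, norm_inv, hE, norm_real, Real.norm_eq_abs, abs_of_nonpos
      (by linarith [hB _ (hE θ)]), inv_pow]
    ring
  simp only [h8] at h7
  rw [← h5, intervalIntegral.integral_const_mul, intervalIntegral.integral_sub (by simp)
    (Continuous.intervalIntegrable (continuous_re.comp' hc) _ _), h6, norm_mul] at h7
  simp only [Complex.norm_mul, Complex.norm_ofNat, norm_real, Real.norm_eq_abs,
    abs_of_pos Real.pi_pos, intervalIntegral.integral_const, sub_zero, smul_eq_mul] at h7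
  refine le_of_mul_le_mul_left (h7.trans_eq ?_) (by positivity)
  ring

/-- The coefficient inequality of Caratheodory. -/
theorem cara {L : ℂ → ℂ} {R B : ℝ} (hR : 0 < R) (hL : DifferentiableOn ℂ L (ball 0 R))
    (h0 : L 0 = 0) (hB : ∀ z ∈ ball (0 : ℂ) R, (L z).re ≤ B) (m : ℕ) :
    ‖iteratedDeriv (m + 1) L 0 / (m + 1).factorial‖ ≤ 2 * B / R ^ (m + 1) := by
  have hc : ContinuousAt (fun ρ : ℝ => 2 * B / ρ ^ (m + 1)) R :=
    ContinuousAt.div (by fun_prop) (by fun_prop) (by positivity)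
  refine ge_of_tendsto (hc.tendsto.mono_left (nhdsWithin_le_nhds (s := Iio R))) ?_
  filter_upwards [Ioo_mem_nhdsLT hR] with ρ hρ
  exact cara_aux hρ.1 (hL.diffContOnCl_ball (closedBall_subset_ball hρ.2)) h0
    (fun z hz => hB z (by rw [mem_ball_zero_iff, hz]; exact hρ.2)) m

lemma logDeriv_sharp {g : ℂ → ℂ} (hg : Differentiable ℂ g) {r A : ℝ} (hr0 : 0 < r)
    (hne : ∀ z, ‖z‖ < r → g z ≠ 0) (hB : ∀ z, ‖z‖ < r → ‖g z‖ ≤ Real.exp A * ‖g 0‖) (n : ℕ) :
    ‖iteratedDeriv n (logDeriv g) 0 / n.factorial‖ ≤ 2 * (n + 1) * A / r ^ (n + 1) := by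
  have hne' : ∀ z ∈ ball (0 : ℂ) r, g z ≠ 0 := fun z hz => hne z (mem_ball_zero_iff.1 hz)
  have hq : DifferentiableOn ℂ (logDeriv g) (ball 0 r) := fun z hz =>
    (analyticAt_logDeriv hg (hne' z hz)).differentiableAt.differentiableWithinAt
  obtain ⟨h, hc, hh⟩ := hq.isExactOn_ball.with_val_at 0 0
  have hd : DifferentiableOn ℂ h (ball 0 r) := fun w hw =>
    (hh w hw).differentiableAt.differentiableWithinAt
  have hexp : ∀ w ∈ ball (0 : ℂ) r, g w = g 0 * exp (h w) := by
    intro w hw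
    have hk : ∀ z ∈ ball (0 : ℂ) r, HasDerivAt (fun z => g z * exp (-h z)) 0 z := by
      intro z hz
      refine ((hg z).hasDerivAt.mul ((hh z hz).neg.cexp)).congr_deriv ?_
      have := hne' z hz
      rw [logDeriv_apply]
      simp only [Pi.neg_apply]
      field_simp
      ring
    have hconst := isOpen_ball.is_const_of_deriv_eq_zero (convex_ball (0 : ℂ) r).isPreconnected
      (f := fun z => g z * exp (-h z))
      (fun z hz => (hk z hz).differentiableAt.differentiableWithinAt)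
      (fun z hz => (hk z hz).deriv) hw (mem_ball_self hr0)
    simp only [hc, neg_zero, exp_zero, mul_one] at hconst
    rw [← hconst, mul_assoc, ← exp_add]; simp
  have hre : ∀ w ∈ ball (0 : ℂ) r, (h w).re ≤ A := fun w hw => by
    have := hB w (mem_ball_zero_iff.1 hw)
    rw [hexp w hw, norm_mul, norm_exp, mul_comm] at this
    exact Real.exp_le_exp.1
      (le_of_mul_le_mul_right this (norm_pos_iff.2 (hne 0 (by simpa using hr0))))
  have hev : logDeriv g =ᶠ[𝓝 0] deriv h := by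
    filter_upwards [ball_mem_nhds (0 : ℂ) hr0] with z hz using (hh z hz).deriv.symm
  have h1 := cara hr0 hd hc hre n
  rw [hev.iteratedDeriv_eq, ← iteratedDeriv_succ', show iteratedDeriv (n + 1) h 0 / n.factorial =
    ((n + 1 : ℕ) : ℂ) * (iteratedDeriv (n + 1) h 0 / (n + 1).factorial) by
      have : (n.factorial : ℂ) ≠ 0 := Nat.cast_ne_zero.2 n.factorial_ne_zero
      have : ((n + 1 : ℕ) : ℂ) ≠ 0 := Nat.cast_ne_zero.2 n.succ_ne_zero
      rw [Nat.factorial_succ, Nat.cast_mul]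
      field_simp, norm_mul, Complex.norm_natCast]
  refine (mul_le_mul_of_nonneg_left h1 (by positivity)).trans_eq ?_
  push_cast
  ring

/-- Sharp power sum bound, zeros counted with multiplicity. -/
theorem power_sums_sharp {f g : ℂ → ℂ} {Z : Multiset ℂ} (hg : Differentiable ℂ g)
    (hf : ∀ z, f z = pr Z z * g z) {R B : ℝ} (hR : 0 < R) (hZ : ∀ a ∈ Z, ‖a‖ ≤ R)
    (hne : ∀ z, ‖z‖ < R → g z ≠ 0) (h0 : f 0 ≠ 0)
    (hB : ∀ z, ‖z‖ = 2 * R → ‖f z‖ ≤ Real.exp B * ‖f 0‖) (n : ℕ) :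
    ‖iteratedDeriv n (logDeriv f) 0 / n.factorial + (Z.map fun a => a⁻¹ ^ (n + 1)).sum‖ ≤
      2 * (n + 1) * B / R ^ (n + 1) := by
  have hZ0 : (0 : ℂ) ∉ Z := fun h => h0 (by rw [hf, pr_eq_zero.2 h, zero_mul])
  have : (n.factorial : ℂ) ≠ 0 := Nat.cast_ne_zero.2 n.factorial_ne_zero
  rw [funext hf, iteratedDeriv_logDeriv_fac hg (hne 0 (by simpa using hR)) n Z hZ0, sub_div,
    mul_div_cancel_left₀ _ this, sub_add_cancel]
  refine logDeriv_sharp hg hR hne (fun z hz => ?_) n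
  have h := norm_quot_le hg hf (c := 0) (r := R) (R := 2 * R) (by linarith) (by simpa using hZ)
    (by simpa using hB) (by linarith) (z := z) (by rw [sub_zero]; linarith)
  have h2 : ‖pr Z 0‖ ≤ R ^ Z.card := norm_pr_le (by simpa using hZ)
  rw [show 2 * R - R = R by ring, hf 0, norm_mul] at h
  refine le_of_mul_le_mul_left (h.trans ?_) (pow_pos hR Z.card)
  rw [mul_left_comm (R ^ Z.card)]
  gcongr

lemma exists_quot {f : ℂ → ℂ} (hf : Differentiable ℂ f) (Z : Finset ℂ) (hZ : ∀ r ∈ Z, f r = 0) :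
    ∃ g : ℂ → ℂ, Differentiable ℂ g ∧ ∀ z, f z = pr Z.val z * g z := by
  classical
  induction Z using Finset.induction_on with
  | empty => exact ⟨f, hf, by simp⟩
  | insert a Z ha ih =>
    obtain ⟨g, hg, hfg⟩ := ih fun u hu => hZ u (Finset.mem_insert_of_mem hu)
    have hga : g a = 0 := by
      have := hZ a (Finset.mem_insert_self a Z)
      rw [hfg] at this
      exact (mul_eq_zero.1 this).resolve_left fun h => ha (pr_eq_zero.1 h)
    refine ⟨dslope g a, ?_, fun z => ?_⟩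
    · rw [← differentiableOn_univ] at hg ⊢
      exact (differentiableOn_dslope univ_mem).2 hg
    · have h1 := sub_smul_dslope g a z
      rw [hga, sub_zero, smul_eq_mul] at h1
      rw [Finset.insert_val_of_notMem ha, hfg, pr_cons, ← h1]; ring

/-- Sharp power sum bound when the zeros in the open disc are simple and listed in `Z`. -/
theorem PS {f : ℂ → ℂ} (hf : Differentiable ℂ f) (h0 : f 0 = 1) {R B : ℝ} (hR : 0 < R)
    (hB : ∀ z, ‖z‖ = 2 * R → ‖f z‖ ≤ Real.exp B) (Z : Finset ℂ)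
    (hZ : ∀ r ∈ Z, f r = 0 ∧ ‖r‖ ≤ R) (hs : ∀ z, ‖z‖ < R → f z = 0 → z ∈ Z ∧ deriv f z ≠ 0)
    (n : ℕ) : ‖iteratedDeriv n (logDeriv f) 0 / n.factorial + ∑ r ∈ Z, r⁻¹ ^ (n + 1)‖ ≤
      2 * (n + 1) * B / R ^ (n + 1) := by
  obtain ⟨g, hg, hfg⟩ := exists_quot hf Z fun r hr => (hZ r hr).1
  refine power_sums_sharp hg hfg hR (fun a ha => (hZ a ha).2) (fun z hz h => ?_) (by simp [h0])
    (by simpa [h0] using hB) n
  obtain ⟨h1, h2⟩ := hs z hz (by rw [hfg, h, mul_zero])
  apply h2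
  rw [funext hfg, deriv_fun_mul (differentiable_pr _ z) (hg z), h, pr_eq_zero.2 h1]
  simp

end Pool.Agent.MP_dbd6a6_co.H92
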