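import Mathlib

/-!
Stack-sorting: the descent generating polynomials satisfy a moment-cumulant recursion.
-/

open Finset

noncomputable section

namespace Pool.Agent.MP_dbd6a6_co.H92

/-- Read the word through a stack (top of the stack first in the list). -/
def pass : List ℕ → List ℕ → List ℕ
  | st, [] => st
  | st, a :: w => st.takeWhile (· < a) ++ pass (a :: st.dropWhile (· < a)) w

/-- The stack-sorting map. -/
def stackSort (w : List ℕ) : List ℕ := pass [] w

/-- The number of descents of a word. -/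
def des : List ℕ → ℕ
  | a :: b :: w => (if b < a then 1 else 0) + des (b :: w)
  | _ => 0

lemma pass_perm : ∀ (w st : List ℕ), (pass st w).Perm (st ++ w)
  | [], st => by simp [pass]
  | a :: w, st => by
    rw [pass]
    refine ((pass_perm w _).append_left _).trans ?_
    conv_rhs => rw [← List.takeWhile_append_dropWhile (p := (· < a)) (l := st), List.append_assoc]
    exact List.perm_middle.symm.append_left _

lemma pass_snoc {n : ℕ} : ∀ (w st : List ℕ), (∀ a ∈ w, a < n) →
    pass (st ++ [n]) w = pass st w ++ [n]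
  | [], st, _ => rfl
  | a :: w, st, h => by
    have ha : ¬ n < a := (h a (by simp)).not_gt
    have e1 : (st ++ [n]).takeWhile (· < a) = st.takeWhile (· < a) := by
      induction st with
      | nil => simp [ha]
      | cons b st ih => by_cases hb : b < a <;> simp [hb, ih]
    have e2 : (st ++ [n]).dropWhile (· < a) = st.dropWhile (· < a) ++ [n] := by
      induction st with
      | nil => simp [ha]
      | cons b st ih =>
        by_cases hb : b < a
        · simpa [hb] using ih (by simpa [hb] using e1)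
        · simp [hb]
    rw [pass, pass, e1, e2, ← List.cons_append, pass_snoc w _ fun b hb => h b (by simp [hb]),
      List.append_assoc]

lemma pass_append {n : ℕ} (R : List ℕ) : ∀ (L st : List ℕ), (∀ a ∈ L, a < n) → (∀ a ∈ st, a < n) →
    pass st (L ++ n :: R) = pass st L ++ pass [n] R
  | [], st, _, h => by
    rw [List.nil_append, pass, pass, List.takeWhile_eq_self_iff.2 (by simpa using h),
      List.dropWhile_eq_nil_iff.2 (by simpa using h)]
  | a :: L, st, h, h' => by
    rw [List.cons_append, pass, pass, pass_append R L _ (fun b hb => h b (by simp [hb])),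
      List.append_assoc]
    intro b hb
    rcases List.mem_cons.1 hb with rfl | hb
    · exact h _ (by simp)
    · exact h' _ ((List.dropWhile_sublist _).subset hb)

lemma stackSort_perm (w : List ℕ) : (stackSort w).Perm w := pass_perm w []

lemma stackSort_append {n : ℕ} {L R : List ℕ} (hL : ∀ a ∈ L, a < n) (hR : ∀ a ∈ R, a < n) :
    stackSort (L ++ n :: R) = stackSort L ++ stackSort R ++ [n] := by
  rw [stackSort, pass_append R L [] hL (by simp), List.append_assoc]
  exact congrArg _ (pass_snoc R [] hR)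

lemma des_append : ∀ (l : List ℕ) (a b : ℕ) (l' : List ℕ),
    des (l ++ a :: b :: l') = des (l ++ [a]) + des (b :: l') + if b < a then 1 else 0
  | [], a, b, l' => by simp [des, add_comm]
  | [c], a, b, l' => by simp [des]; omega
  | c :: d :: l, a, b, l' => by
    have := des_append (d :: l) a b l'
    simp only [List.cons_append, des] at this ⊢
    omega

lemma des_snoc {n : ℕ} {l : List ℕ} (h : ∀ a ∈ l, a < n) : des (l ++ [n]) = des l := by
  rcases l.eq_nil_or_concat' with rfl | ⟨l, a, rfl⟩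
  · rfl
  · have := (h a (by simp)).not_gt
    rw [List.append_assoc, List.singleton_append, des_append]
    simp [this, des]

/-- The words whose letters are the elements of `S`, each once. -/
def W (S : Finset ℕ) : Finset (List ℕ) := S.toList.permutations.toFinset

lemma mem_W {S : Finset ℕ} {w : List ℕ} : w ∈ W S ↔ w.Nodup ∧ ∀ a, a ∈ w ↔ a ∈ S := by
  rw [W, List.mem_toFinset, List.mem_permutations]
  exact ⟨fun h => ⟨h.nodup_iff.2 S.nodup_toList, fun a => by rw [h.mem_iff, mem_toList]⟩,
    fun h => (List.perm_ext_iff_of_nodup h.1 S.nodup_toList).2 fun a => by rw [h.2, mem_toList]⟩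

lemma W_empty : W ∅ = {[]} := by simp [W]

lemma sum_W_insert {R : Type*} [AddCommMonoid R] {S : Finset ℕ} {n : ℕ} (hn : n ∉ S)
    (G : List ℕ → R) : ∑ w ∈ W (insert n S), G w =
      ∑ A ∈ S.powerset, ∑ L ∈ W A, ∑ L' ∈ W (S \ A), G (L ++ n :: L') := by
  simp only [sum_sigma']
  symm
  refine sum_bij (fun t _ => t.2.1 ++ n :: t.2.2) ?_ ?_ ?_ fun _ _ => rfl
  · rintro ⟨A, L, L'⟩ h
    simp only [mem_sigma, mem_powerset, mem_W, mem_sdiff] at h ⊢
    obtain ⟨hA, ⟨h1, h2⟩, h3, h4⟩ := h
    refine ⟨?_, fun a => ?_⟩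
    · rw [List.nodup_middle, List.nodup_cons, List.nodup_append]
      refine ⟨?_, h1, h3, ?_⟩
      · simp only [List.mem_append, h2, h4]
        exact fun h => h.elim (fun h => hn (hA h)) fun h => hn h.1
      · rintro a ha b hb rfl
        exact ((h4 _).1 hb).2 ((h2 _).1 ha)
    · have := @hA a
      simp only [List.mem_append, List.mem_cons, h2, h4, mem_insert]
      tauto
  · rintro ⟨A, L, L'⟩ h ⟨B, K, K'⟩ h' e
    simp only [mem_sigma, mem_powerset, mem_W, mem_sdiff] at h h'
    obtain ⟨rfl, -, rfl⟩ := (List.append_cons_inj_of_notMem (fun k => hn (h.1 ((h.2.1.2 _).1 k)))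
      (fun k => hn ((h.2.2.2 _).1 k).1)).1 e
    obtain rfl : A = B := by ext a; rw [← h.2.1.2, h'.2.1.2]
    rfl
  · intro w hw
    obtain ⟨h1, h2⟩ := mem_W.1 hw
    obtain ⟨L, L', rfl⟩ := List.append_of_mem ((h2 n).2 (mem_insert_self _ _))
    rw [List.nodup_middle, List.nodup_cons, List.nodup_append] at h1
    obtain ⟨h0, h3, h4, h5⟩ := h1
    refine ⟨⟨L.toFinset, L, L'⟩, ?_, rfl⟩
    simp only [List.mem_append, List.mem_cons, mem_insert, not_or] at h0 h2
    simp only [mem_sigma, mem_powerset, mem_W, mem_sdiff, List.mem_toFinset]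
    refine ⟨fun a ha => ?_, ⟨h3, fun _ => trivial⟩, h4, fun a => ⟨fun ha => ⟨?_, fun hb => ?_⟩, ?_⟩⟩
    · rw [List.mem_toFinset] at ha
      exact ((h2 a).1 (.inl ha)).resolve_left fun e => h0.1 (e ▸ ha)
    · exact ((h2 a).1 (.inr (.inr ha))).resolve_left fun e => h0.2 (e ▸ ha)
    · exact h5 _ hb _ ha rfl
    · rintro ⟨ha, hb⟩
      exact (((h2 a).2 (.inr ha)).resolve_left hb).resolve_left fun e => hn (e ▸ ha)

variable {R : Type*} [CommRing R] (x : R)

/-- Descent generating function of the sorted words on `S`. -/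
def P (S : Finset ℕ) : R := ∑ w ∈ W S, x ^ des (stackSort w)

/-- The part of `P` where the first output letter is `u`. -/
def F (S : Finset ℕ) (u : ℕ) : R :=
  ∑ w ∈ W S, if (stackSort w).head? = some u then x ^ des (stackSort w) else 0

lemma mem_sort {S : Finset ℕ} {w : List ℕ} (hw : w ∈ W S) {a : ℕ} : a ∈ stackSort w ↔ a ∈ S := by
  rw [(stackSort_perm w).mem_iff, (mem_W.1 hw).2]

lemma F_eq_zero {S : Finset ℕ} {u : ℕ} (h : u ∉ S) : F x S u = 0 :=
  sum_eq_zero fun _ hw => if_neg fun e => h ((mem_sort hw).1 (List.mem_of_mem_head? e))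

lemma P_empty : P x ∅ = 1 := by simp [P, W_empty, stackSort, pass, des]

lemma sum_F {S : Finset ℕ} (q : ℕ → Prop) [DecidablePred q] : ∑ v ∈ S with q v, F x S v =
    ∑ w ∈ W S, if ∃ v, (stackSort w).head? = some v ∧ q v then x ^ des (stackSort w) else 0 := by
  simp only [F]
  rw [sum_comm]
  refine sum_congr rfl fun w hw => ?_
  cases h : stackSort w with
  | nil => simp
  | cons a l =>
    have ha : a ∈ S := (mem_sort hw).1 (by simp [h])
    simp [ha]

lemma P_eq (S : Finset ℕ) : P x S = (if S = ∅ then 1 else 0) + ∑ v ∈ S, F x S v := by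
  split_ifs with h
  · simp [h, P_empty]
  · have := sum_F x (S := S) (fun _ => True)
    rw [filter_true] at this
    rw [this, zero_add]
    refine sum_congr rfl fun w hw => (if_pos ?_).symm
    obtain ⟨a, ha⟩ := nonempty_iff_ne_empty.2 h
    cases e : stackSort w with
    | nil => simpa [e] using (mem_sort hw).2 ha
    | cons b l => simp

lemma exists_last {S : Finset ℕ} {w : List ℕ} (hw : w ∈ W S) (h : w ≠ []) :
    ∃ l a, stackSort w = l ++ [a] ∧ a ∈ S ∧ ∀ b ∈ S, b ≤ a := by
  have hS : S.Nonempty := by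
    obtain ⟨a, ha⟩ := List.exists_mem_of_ne_nil w h
    exact ⟨a, ((mem_W.1 hw).2 a).1 ha⟩
  obtain ⟨h1, h2⟩ := mem_W.1 hw
  obtain ⟨L, L', rfl⟩ := List.append_of_mem ((h2 _).2 (S.max'_mem hS))
  rw [List.nodup_middle, List.nodup_cons] at h1
  have key : ∀ a ∈ L ++ L', a < S.max' hS := fun a ha =>
    lt_of_le_of_ne (S.le_max' a ((h2 a).1 (by simp at ha ⊢; tauto))) fun e => h1.1 (e ▸ ha)
  exact ⟨_, _, stackSort_append (fun a ha => key a (by simp [ha])) fun a ha => key a (by simp [ha]),
    S.max'_mem hS, S.le_max'⟩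

lemma inner_sum {A B : Finset ℕ} (hAB : Disjoint A B) {n : ℕ} (hA : ∀ a ∈ A, a < n)
    (hB : ∀ a ∈ B, a < n) {L : List ℕ} (hL : L ∈ W A) (h0 : L ≠ []) :
    ∑ L' ∈ W B, x ^ des (stackSort L ++ stackSort L' ++ [n]) = x ^ des (stackSort L) *
      (x * P x B + (1 - x) * (if B = ∅ then 1 else 0) +
        (1 - x) * ∑ v ∈ B with ∀ a ∈ A, a < v, F x B v) := by
  obtain ⟨l, a, e, ha, hm⟩ := exists_last hL h0
  have e1 : (if B = ∅ then (1 : R) else 0) =
      ∑ w ∈ W B, if stackSort w = [] then x ^ des (stackSort w) else 0 := by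
    split_ifs with h
    · simp [h, W_empty, stackSort, pass, des]
    · obtain ⟨b, hb⟩ := nonempty_iff_ne_empty.2 h
      exact (sum_eq_zero fun w hw => if_neg fun e => by simpa [e] using (mem_sort hw).2 hb).symm
  rw [e1, sum_F, P, mul_sum, mul_sum, mul_sum, ← sum_add_distrib, ← sum_add_distrib, mul_sum]
  refine sum_congr rfl fun w hw => ?_
  rw [des_snoc fun b hb => (List.mem_append.1 hb).elim (fun h => hA _ ((mem_sort hL).1 h))
    fun h => hB _ ((mem_sort hw).1 h)]
  cases h : stackSort w with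
  | nil => simp [des]
  | cons b l' =>
    have hb : b ∈ B := (mem_sort hw).1 (by simp [h])
    have hne : a ≠ b := fun k => disjoint_left.1 hAB ha (k ▸ hb)
    rw [e, List.append_assoc, List.singleton_append, des_append]
    by_cases hab : b < a
    · have : ¬ ∀ c ∈ A, c < b := fun k => (k a ha).not_gt hab
      simp only [hab, this, List.head?_cons, Option.some.injEq, exists_eq_left', reduceCtorEq,
        if_true, if_false]
      ring
    · have : ∀ c ∈ A, c < b := fun c hc => (hm c hc).trans_lt (by omega)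
      rw [if_neg hab, if_neg (by simp), if_pos ⟨b, rfl, this⟩]
      ring

lemma F_insert {S : Finset ℕ} {n u : ℕ} (hS : ∀ a ∈ S, a < n) (hu : u ≠ n) :
    F x (insert n S) u = F x S u + ∑ A ∈ S.powerset, F x A u * (x * P x (S \ A) +
      (1 - x) * (if S \ A = ∅ then 1 else 0) +
        (1 - x) * ∑ v ∈ S \ A with ∀ a ∈ A, a < v, F x (S \ A) v) := by
  rw [F, sum_W_insert fun h => (hS n h).false, ← add_sum_erase _ _ (empty_mem_powerset S),
    ← add_sum_erase _ _ (empty_mem_powerset S), F_eq_zero x (notMem_empty u), zero_mul, zero_add]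
  congr 1
  · rw [W_empty, sum_singleton, sdiff_empty, F]
    refine sum_congr rfl fun w hw => ?_
    have h := fun a ha => hS a (((mem_W.1 hw).2 a).1 ha)
    rw [stackSort_append (by simp) h, show stackSort [] = [] from rfl, List.nil_append,
      des_snoc fun a ha => hS a ((mem_sort hw).1 ha)]
    cases stackSort w <;> simp [hu.symm]
  · refine sum_congr rfl fun A hA => ?_
    obtain ⟨h0, hA⟩ := mem_erase.1 hA
    have h1 : ∀ a ∈ A, a < n := fun a ha => hS a (mem_powerset.1 hA ha)
    have h2 : ∀ a ∈ S \ A, a < n := fun a ha => hS a (sdiff_subset ha)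
    rw [F, sum_mul]
    refine sum_congr rfl fun L hL => ?_
    obtain ⟨a, ha⟩ := nonempty_iff_ne_empty.2 h0
    have hL0 : L ≠ [] := fun e => by simpa [e] using ((mem_W.1 hL).2 a).2 ha
    have e : ∀ L' ∈ W (S \ A), stackSort (L ++ n :: L') = stackSort L ++ stackSort L' ++ [n] :=
      fun L' h => stackSort_append (fun a ha => h1 a (((mem_W.1 hL).2 a).1 ha))
        fun a ha => h2 a (((mem_W.1 h).2 a).1 ha)
    obtain ⟨b, l, hb⟩ := List.exists_cons_of_ne_nil (l := stackSort L) fun k => by
      simpa [k] using (mem_sort hL).2 ha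
    rw [ite_mul, zero_mul, ← inner_sum x disjoint_sdiff h1 h2 hL hL0,
      sum_congr rfl fun L' h => by rw [e L' h]]
    simp [hb]

lemma F_insert_max {S : Finset ℕ} {n : ℕ} (hS : ∀ a ∈ S, a < n) :
    F x (insert n S) n = if S = ∅ then 1 else 0 := by
  split_ifs with h
  · have : W {n} = {[n]} := by
      ext w
      simp [W]
    simp [h, F, this, stackSort, pass, des]
  · rw [F, sum_W_insert fun h => (hS n h).false]
    refine sum_eq_zero fun A hA => sum_eq_zero fun L hL => sum_eq_zero fun L' hL' => if_neg ?_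
    have hA := mem_powerset.1 hA
    have k : ∀ a, a ∈ stackSort L ++ stackSort L' ↔ a ∈ S := fun a => by
      have := @hA a
      rw [List.mem_append, mem_sort hL, mem_sort hL', mem_sdiff]
      tauto
    obtain ⟨a, ha⟩ := nonempty_iff_ne_empty.2 h
    obtain ⟨b, l, hb⟩ := List.exists_cons_of_ne_nil (List.ne_nil_of_mem ((k a).2 ha))
    rw [stackSort_append (fun a ha => hS a (hA (((mem_W.1 hL).2 a).1 ha)))
      (fun a ha => hS a (sdiff_subset (((mem_W.1 hL').2 a).1 ha))), hb]
    simpa using (hS b ((k b).1 (by simp [hb]))).ne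

lemma sum_powerset_sdiff (S : Finset ℕ) (G : Finset ℕ → Finset ℕ → R) :
    ∑ A ∈ S.powerset, ∑ L ∈ A.powerset, G L (A \ L) =
      ∑ L ∈ S.powerset, ∑ B ∈ (S \ L).powerset, G L B := by
  simp only [sum_sigma']
  refine sum_nbij' (fun t => ⟨t.2, t.1 \ t.2⟩) (fun t => ⟨t.1 ∪ t.2, t.1⟩) ?_ ?_ ?_ ?_
    fun _ _ => rfl
  · rintro ⟨A, L⟩ h
    simp only [mem_sigma, mem_powerset] at h ⊢
    exact ⟨h.2.trans h.1, sdiff_subset_sdiff h.1 Subset.rfl⟩
  · rintro ⟨A, L⟩ h
    simp only [mem_sigma, mem_powerset] at h ⊢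
    exact ⟨union_subset h.1 (h.2.trans sdiff_subset), subset_union_left⟩
  · rintro ⟨A, L⟩ h
    simp only [mem_sigma, mem_powerset] at h
    simp [union_eq_right.2 h.2]
  · rintro ⟨A, L⟩ h
    simp only [mem_sigma, mem_powerset] at h
    simp [union_sdiff_cancel_left (subset_sdiff.1 h.2).2.symm]

lemma sum_rank (G : ℕ → ℕ → R) (S : Finset ℕ) :
    ∑ u ∈ S, G #{v ∈ S | v < u} #{v ∈ S | u < v} = ∑ a ∈ range #S, G a (#S - 1 - a) := by
  induction S using Finset.induction_on_max generalizing G with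
  | empty => simp
  | insert n S hn ih =>
    have h0 : n ∉ S := fun h => (hn n h).false
    rw [sum_insert h0, card_insert_of_notMem h0, sum_range_succ, add_comm, filter_insert,
      filter_insert, if_neg (lt_irrefl n), if_neg (lt_irrefl n), filter_true_of_mem hn,
      filter_false_of_mem fun a ha => (hn a ha).not_gt]
    congr 1
    · have := ih fun a b => G a (b + 1)
      refine (sum_congr rfl fun u hu => ?_).trans (this.trans (sum_congr rfl fun a ha => ?_))
      · rw [filter_insert, filter_insert, if_neg (hn u hu).not_gt, if_pos (hn u hu),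
          card_insert_of_notMem fun h => h0 (mem_filter.1 h).1]
      · rw [mem_range] at ha
        congr 1
        omega
    · simp

variable {x} {h m : ℕ → R}

/-- The recursions defining the auxiliary sequences. -/
structure Rec (x : R) (h m : ℕ → R) : Prop where
  h0 : h 0 = 1
  hs : ∀ b, h (b + 1) = (2 - x) * h b + (1 - x) * ∑ a ∈ range b, h a * h (b - 1 - a)
  m0 : m 0 = 1
  ms : ∀ k, m (k + 1) = -x * (m k + ∑ a ∈ range k, m a * h (k - 1 - a))

lemma conv_P {S : Finset ℕ} (K : ∀ u ∈ S, ∑ A ∈ S.powerset, F x A u * m #(S \ A) =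
      m #{v ∈ S | v < u} * h #{v ∈ S | u < v}) :
    ∑ A ∈ S.powerset, P x A * m #(S \ A) = m #S + ∑ a ∈ range #S, m a * h (#S - 1 - a) := by
  rw [← sum_rank (fun a b => m a * h b) S, ← sum_congr rfl K, sum_comm]
  simp only [P_eq, add_mul, sum_add_distrib, ite_mul, one_mul, zero_mul, sum_ite_eq',
    empty_mem_powerset, if_true, sdiff_empty, ← sum_mul]
  congr 1
  refine sum_congr rfl fun A hA => ?_
  rw [sum_subset (mem_powerset.1 hA) fun u _ hu => F_eq_zero x hu]

lemma conv_F (H : Rec x h m) (S : Finset ℕ) : ∀ u ∈ S, ∑ A ∈ S.powerset, F x A u * m #(S \ A) =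
    m #{v ∈ S | v < u} * h #{v ∈ S | u < v} := by
  induction S using Finset.strongInduction with | H S0 ih => ?_
  intro u hu
  obtain ⟨n, hn0, hmax⟩ := S0.exists_max_image id ⟨u, hu⟩
  obtain ⟨S, h0, rfl⟩ : ∃ S, n ∉ S ∧ S0 = insert n S :=
    ⟨S0.erase n, notMem_erase _ _, (insert_erase hn0).symm⟩
  have hn : ∀ a ∈ S, a < n := fun a ha =>
    lt_of_le_of_ne (hmax a (mem_insert_of_mem ha)) fun e => h0 (e ▸ ha)
  replace ih : ∀ T ⊆ S, _ := fun T hT => ih T (hT.trans_ssubset (ssubset_insert h0))
  have e1 : ∀ A ∈ S.powerset, #(insert n S \ A) = #(S \ A) + 1 := fun A hA => by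
    rw [insert_sdiff_of_notMem _ fun k => h0 (mem_powerset.1 hA k),
      card_insert_of_notMem fun k => h0 (sdiff_subset k)]
  have e2 : ∀ A : Finset ℕ, insert n S \ insert n A = S \ A := fun A => by
    rw [insert_sdiff_insert, sdiff_insert_of_notMem h0]
  rw [sum_powerset_insert h0, filter_insert, filter_insert]
  simp only [e2]
  rcases mem_insert.1 hu with rfl | hu
  · rw [sum_eq_zero fun A hA => by rw [F_eq_zero x fun k => h0 (mem_powerset.1 hA k), zero_mul],
      sum_congr rfl fun A hA => by rw [F_insert_max x fun a ha => hn a (mem_powerset.1 hA ha)],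
      if_neg (lt_irrefl u), if_neg (lt_irrefl u), filter_true_of_mem hn,
      filter_false_of_mem fun a ha => (hn a ha).not_gt]
    simp [H.h0]
  have hun := hn u hu
  rw [if_neg hun.not_gt, if_pos hun, card_insert_of_notMem fun k => h0 (mem_filter.1 k).1, H.hs]
  have e3 : ∑ A ∈ S.powerset, F x (insert n A) u * m #(S \ A) =
      ∑ A ∈ S.powerset, F x A u * m #(S \ A) + ∑ L ∈ S.powerset, F x L u *
        ∑ B ∈ (S \ L).powerset, (x * P x B + (1 - x) * (if B = ∅ then 1 else 0) +
          (1 - x) * ∑ v ∈ B with ∀ a ∈ L, a < v, F x B v) * m #((S \ L) \ B) := by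
    simp only [mul_sum, ← mul_assoc]
    rw [← sum_powerset_sdiff, ← sum_add_distrib]
    refine sum_congr rfl fun A hA => ?_
    rw [F_insert x (fun a ha => hn a (mem_powerset.1 hA ha)) hun.ne, add_mul, sum_mul]
    congr 1
    refine sum_congr rfl fun L hL => ?_
    rw [sdiff_sdiff, sup_eq_union, union_sdiff_of_subset (mem_powerset.1 hL)]
    simp only [mul_sum]
  have e4 : ∀ L ∈ S.powerset, m (#(S \ L) + 1) +
      ∑ B ∈ (S \ L).powerset, (x * P x B + (1 - x) * (if B = ∅ then 1 else 0) +
          (1 - x) * ∑ v ∈ B with ∀ a ∈ L, a < v, F x B v) * m #((S \ L) \ B) =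
      (1 - x) * m #(S \ L) + (1 - x) * ∑ v ∈ S, if L ⊆ {a ∈ S | a < v} then
        m #({a ∈ S | a < v} \ L) * h #{a ∈ S | v < a} else 0 := by
    intro L hL
    have hL := mem_powerset.1 hL
    simp only [add_mul, sum_add_distrib, mul_assoc, ← mul_sum, ite_mul, one_mul, zero_mul,
      sum_ite_eq', empty_mem_powerset, if_true, sdiff_empty]
    rw [conv_P (ih _ sdiff_subset), H.ms, ← add_assoc, ← add_assoc, neg_mul, neg_add_cancel,
      zero_add, ← sum_filter]
    congr 2
    have e5 : {v ∈ S | L ⊆ {a ∈ S | a < v}} = {v ∈ S \ L | ∀ a ∈ L, a < v} := by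
      ext v
      simp only [mem_filter, mem_sdiff, subset_iff]
      exact ⟨fun k => ⟨⟨k.1, fun j => (k.2 j).2.false⟩, fun a ha => (k.2 ha).2⟩,
        fun k => ⟨k.1.1, fun a ha => ⟨hL ha, k.2 a ha⟩⟩⟩
    rw [e5, sum_congr rfl fun B hB => by rw [sum_subset (filter_subset_filter _
      (mem_powerset.1 hB)) fun v h1 h2 => F_eq_zero x fun k => h2 (mem_filter.2
        ⟨k, (mem_filter.1 h1).2⟩), sum_mul], sum_comm]
    refine sum_congr rfl fun v hv => ?_
    obtain ⟨hv, hv'⟩ := mem_filter.1 hv
    rw [ih _ sdiff_subset v hv]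
    congr 3
    · ext a
      simp only [mem_filter, mem_sdiff]
      tauto
    · ext a
      simp only [mem_filter, mem_sdiff]
      exact ⟨fun k => ⟨k.1.1, k.2⟩, fun k => ⟨⟨k.1, fun j => (hv' a j).not_gt k.2⟩, k.2⟩⟩
  have e6 : ∑ L ∈ S.powerset, F x L u * ∑ v ∈ S, (if L ⊆ {a ∈ S | a < v} then
        m #({a ∈ S | a < v} \ L) * h #{a ∈ S | v < a} else 0) = m #{v ∈ S | v < u} *
      ∑ a ∈ range #{v ∈ S | u < v}, h a * h (#{v ∈ S | u < v} - 1 - a) := by
    simp only [mul_sum]
    rw [sum_comm, ← mul_sum, ← sum_rank fun a b => h a * h b, mul_sum, sum_filter]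
    refine sum_congr rfl fun v hv => ?_
    have : ∑ L ∈ S.powerset, F x L u * (if L ⊆ {a ∈ S | a < v} then
        m #({a ∈ S | a < v} \ L) * h #{a ∈ S | v < a} else 0) =
        (∑ L ∈ powerset {a ∈ S | a < v}, F x L u * m #({a ∈ S | a < v} \ L)) *
          h #{a ∈ S | v < a} := by
      rw [sum_mul, ← sum_subset (powerset_mono.2 (filter_subset (· < v) S))
        fun L _ k => by rw [if_neg (by simpa using k), mul_zero]]
      exact sum_congr rfl fun L hL => by rw [if_pos (mem_powerset.1 hL), mul_assoc]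
    rw [this]
    split_ifs with huv
    · rw [ih _ (filter_subset _ _) u (mem_filter.2 ⟨hu, huv⟩), mul_assoc]
      have a1 : {a ∈ {a ∈ S | a < v} | a < u} = {a ∈ S | a < u} := by
        ext a
        simp only [mem_filter]
        exact ⟨fun k => ⟨k.1.1, k.2⟩, fun k => ⟨⟨k.1, k.2.trans huv⟩, k.2⟩⟩
      have a2 : {a ∈ {a ∈ S | a < v} | u < a} = {a ∈ {a ∈ S | u < a} | a < v} := filter_comm _ _ _
      have a3 : {a ∈ S | v < a} = {a ∈ {a ∈ S | u < a} | v < a} := by
        ext a
        simp only [mem_filter]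
        exact ⟨fun k => ⟨⟨k.1, huv.trans k.2⟩, k.2⟩, fun k => ⟨k.1.1, k.2⟩⟩
      rw [a1, a2, a3]
    · rw [sum_eq_zero fun L hL => by
        rw [F_eq_zero x fun k => huv (mem_filter.1 (mem_powerset.1 hL k)).2, zero_mul], zero_mul]
  have e7 := sum_congr rfl fun L hL => congrArg (F x L u * ·) (e4 L hL)
  simp only [mul_add, sum_add_distrib, mul_left_comm _ (1 - x), ← mul_sum] at e7
  rw [e3, sum_congr rfl fun A hA => by rw [e1 A hA], add_left_comm, e7, e6, ih S Subset.rfl u hu]
  ring

/-- Moments of the semicircle law with mean `2 - x` and variance `1 - x`. -/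
def hh (x : R) : ℕ → R
  | 0 => 1
  | b + 1 => (2 - x) * hh x b + (1 - x) * ∑ a : Fin b, hh x a * hh x (b - 1 - a)
decreasing_by all_goals omega

/-- The moment sequence. -/
def mm (x : R) : ℕ → R
  | 0 => 1
  | 1 => -x
  | n + 2 => -x * (1 - x) * hh x n

lemma hh_zero (x : R) : hh x 0 = 1 := by rw [hh]

lemma hh_succ (x : R) (b : ℕ) :
    hh x (b + 1) = (2 - x) * hh x b + (1 - x) * ∑ a ∈ range b, hh x a * hh x (b - 1 - a) := by
  rw [hh, Fin.sum_univ_eq_sum_range fun a => hh x a * hh x (b - 1 - a)]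

lemma rec_hh (x : R) : Rec x (hh x) (mm x) where
  h0 := hh_zero x
  hs := hh_succ x
  m0 := rfl
  ms
    | 0 => by simp [mm]
    | 1 => by simp [mm, hh_zero]; ring
    | k + 2 => by
      have e : ∀ a ∈ range k, mm x (a + 1 + 1) * hh x (k + 2 - 1 - (a + 1 + 1)) =
          -x * (1 - x) * (hh x a * hh x (k - 1 - a)) := fun a _ => by
        rw [show k + 2 - 1 - (a + 1 + 1) = k - 1 - a by omega, ← mul_assoc]
        rfl
      rw [sum_range_succ', sum_range_succ', sum_congr rfl e, ← mul_sum]
      simp only [mm, show k + 2 - 1 - (0 + 1) = k by omega, show k + 2 - 1 - 0 = k + 1 by omega]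
      linear_combination x ^ 2 * hh_succ x k

lemma conv_card (x : R) (S : Finset ℕ) (hS : ∀ A ⊂ S, P x A = P x (Icc 1 #A)) :
    -x * (P x S - P x (Icc 1 #S) + ∑ i ∈ range (#S + 1),
      (#S).choose i * (P x (Icc 1 i) * mm x (#S - i))) = mm x (#S + 1) ∧
    P x S - P x (Icc 1 #S) + ∑ i ∈ range (#S + 1), (#S).choose i * (P x (Icc 1 i) * mm x (#S - i)) =
      mm x #S + ∑ a ∈ range #S, mm x a * hh x (#S - 1 - a) := by
  suffices h : _ by exact ⟨by rw [h, (rec_hh x).ms], h⟩
  have := sum_powerset_apply_card (fun i => P x (Icc 1 i) * mm x (#S - i)) (x := S)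
  simp only [nsmul_eq_mul] at this
  rw [← conv_P (conv_F (rec_hh x) S), ← this, ← add_sum_erase _ _ (mem_powerset_self S),
    ← add_sum_erase _ _ (mem_powerset_self S), sdiff_self, Nat.sub_self, bot_eq_empty, card_empty,
    (rec_hh x).m0, sum_congr rfl fun A hA => ?_]
  · ring
  · obtain ⟨h1, h2⟩ := mem_erase.1 hA
    rw [hS A (ssubset_of_ne_of_subset h1 (mem_powerset.1 h2)), card_sdiff_of_subset (mem_powerset.1 h2)]

lemma P_card (x : R) : ∀ (k : ℕ) (S : Finset ℕ), #S = k → P x S = P x (Icc 1 k) := by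
  intro k
  induction k using Nat.strong_induction_on with | _ k ih => ?_
  intro S hS
  have hk : #(Icc 1 k) = k := by simp
  have h1 := (conv_card x S fun A hA => ih _ (hS ▸ card_lt_card hA) A rfl).2
  have h2 := (conv_card x (Icc 1 k) fun A hA => ih _ (hk ▸ card_lt_card hA) A rfl).2
  rw [hS] at h1
  rw [hk] at h2
  linear_combination h1 - h2

/-- The moment-cumulant recursion. -/
theorem cumulant (x : R) (k : ℕ) : mm x (k + 1) =
    ∑ i ∈ range (k + 1), k.choose i * (-(x * P x (Icc 1 i)) * mm x (k - i)) := by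
  have hk : #(Icc 1 k) = k := by simp
  have := (conv_card x (Icc 1 k) fun A _ => P_card x _ A rfl).1
  rw [hk, sub_self, zero_add, mul_sum] at this
  rw [← this]
  exact sum_congr rfl fun i _ => by ring

lemma des_le : ∀ (k : ℕ) (w : List ℕ), w.length = k → w.Nodup → 2 * des (stackSort w) ≤ k - 1 := by
  intro k
  induction k using Nat.strong_induction_on with | _ k ih => ?_
  intro w hk hw
  rcases eq_or_ne w [] with rfl | h0
  · simp [stackSort, pass, des]
  obtain ⟨n, hn, hm⟩ := w.toFinset.exists_max_image id ⟨_, List.mem_toFinset.2 (List.head_mem h0)⟩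
  obtain ⟨L, L', rfl⟩ := List.append_of_mem (List.mem_toFinset.1 hn)
  rw [List.nodup_middle, List.nodup_cons] at hw
  have key : ∀ a ∈ L ++ L', a < n := fun a ha =>
    lt_of_le_of_ne (hm a (by simp at ha ⊢; tauto)) fun e => hw.1 (e ▸ ha)
  have h1 := ih L.length (by simp at hk; omega) L rfl hw.2.of_append_left
  have h2 := ih L'.length (by simp at hk; omega) L' rfl hw.2.of_append_right
  have l1 := (stackSort_perm L).length_eq
  have l2 := (stackSort_perm L').length_eq
  rw [stackSort_append (fun a ha => key a (by simp [ha])) fun a ha => key a (by simp [ha]),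
    des_snoc fun a ha => key a (((stackSort_perm L).append (stackSort_perm L')).mem_iff.1 ha)]
  simp only [List.length_append, List.length_cons] at hk
  rcases (stackSort L).eq_nil_or_concat' with e | ⟨l, a, e⟩
  · rw [e, List.nil_append]; omega
  · cases e' : stackSort L' with
    | nil => rw [List.append_nil]; omega
    | cons b l' =>
      rw [e] at h1 l1
      rw [e'] at h2 l2
      rw [e, List.append_assoc, List.singleton_append, des_append]
      simp only [List.length_append, List.length_cons] at l1 l2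
      split_ifs <;> omega

open Polynomial in
/-- The polynomial `A_n`. -/
def A (n : ℕ) : ℤ[X] :=
  ((List.range' 1 (n - 1)).permutations.map fun σ => X ^ (des (stackSort σ) + 1)).sum

open Polynomial in
lemma A_eq (n : ℕ) : A n = ∑ w ∈ W (Icc 1 (n - 1)), X ^ (des (stackSort w) + 1) := by
  rw [A, ← List.sum_toFinset _ (List.nodup_permutations _ List.nodup_range')]
  congr 1
  ext w
  rw [mem_W, List.mem_toFinset, List.mem_permutations]
  have e : ∀ a, a ∈ List.range' 1 (n - 1) ↔ a ∈ Icc 1 (n - 1) := fun a => by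
    rw [List.mem_range'_1, mem_Icc]
    omega
  exact ⟨fun h => ⟨h.nodup_iff.2 List.nodup_range', fun a => by rw [h.mem_iff, e]⟩,
    fun h => (List.perm_ext_iff_of_nodup h.1 List.nodup_range').2 fun a => by rw [h.2, e]⟩

lemma aeval_A (x : R) (i : ℕ) : Polynomial.aeval x (A (i + 1)) = x * P x (Icc 1 i) := by
  simp [A_eq, P, mul_sum, pow_succ']

/-- The values `-A_n(x)` are the classical cumulants of the moment sequence `mm x`. -/
theorem cumulant_A (x : R) (k : ℕ) : mm x (k + 1) =
    ∑ i ∈ range (k + 1), k.choose i * (-Polynomial.aeval x (A (i + 1)) * mm x (k - i)) := by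
  simp only [aeval_A, cumulant]

theorem natDegree_A {n : ℕ} (hn : 2 ≤ n) : (A n).natDegree ≤ n / 2 := by
  rw [A_eq]
  refine Polynomial.natDegree_sum_le_of_forall_le _ _ fun w hw => ?_
  obtain ⟨h1, h2⟩ := mem_W.1 hw
  have := des_le _ w rfl h1
  rw [← List.toFinset_card_of_nodup h1, show w.toFinset = Icc 1 (n - 1) by ext a; simp [h2],
    Nat.card_Icc] at this
  rw [Polynomial.natDegree_X_pow]
  omega

end Pool.Agent.MP_dbd6a6_co.H92
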