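import Pool.Agent.MP_ff3f8e_an.H65.Rect

/-!
Entire functions: extraction of zeros, counting, power sums of zeros, argument principle.
-/

open Complex Metric Set Filter Topology MeasureTheory

noncomputable section

namespace Pool.Agent.MP_dbd6a6_co.H92

/-- The monic polynomial function with zero multiset `Z`. -/
def pr (Z : Multiset ℂ) (z : ℂ) : ℂ := (Z.map fun a => z - a).prod

@[simp] lemma pr_zero (z : ℂ) : pr 0 z = 1 := by simp [pr]

@[simp] lemma pr_cons (a : ℂ) (Z : Multiset ℂ) (z : ℂ) : pr (a ::ₘ Z) z = (z - a) * pr Z z := by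
  simp [pr]

lemma pr_add (Z Z' : Multiset ℂ) (z : ℂ) : pr (Z + Z') z = pr Z z * pr Z' z := by simp [pr]

@[fun_prop] lemma differentiable_pr (Z : Multiset ℂ) : Differentiable ℂ (pr Z) := by
  induction Z using Multiset.induction_on with
  | empty => rw [funext pr_zero]; fun_prop
  | cons a Z ih => rw [funext (pr_cons a Z)]; fun_prop

lemma pr_eq_zero {Z : Multiset ℂ} {z : ℂ} : pr Z z = 0 ↔ z ∈ Z := by
  simp [pr, sub_eq_zero]

lemma le_norm_pr {Z : Multiset ℂ} {z : ℂ} {t : ℝ} (ht : 0 ≤ t) (h : ∀ a ∈ Z, t ≤ ‖z - a‖) :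
    t ^ Z.card ≤ ‖pr Z z‖ := by
  induction Z using Multiset.induction_on with
  | empty => simp
  | cons a Z ih =>
    rw [pr_cons, norm_mul, Multiset.card_cons, pow_succ']
    exact mul_le_mul (h a (by simp)) (ih fun b hb => h b (by simp [hb])) (by positivity)
      (norm_nonneg _)

lemma norm_pr_le {Z : Multiset ℂ} {z : ℂ} {t : ℝ} (h : ∀ a ∈ Z, ‖z - a‖ ≤ t) :
    ‖pr Z z‖ ≤ t ^ Z.card := by
  induction Z using Multiset.induction_on with
  | empty => simp
  | cons a Z ih =>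
    rw [pr_cons, norm_mul, Multiset.card_cons, pow_succ']
    exact mul_le_mul (h a (by simp)) (ih fun b hb => h b (by simp [hb])) (norm_nonneg _)
      ((norm_nonneg _).trans (h a (by simp)))

lemma norm_quot_le {f g : ℂ → ℂ} {Z : Multiset ℂ} (hg : Differentiable ℂ g)
    (hf : ∀ z, f z = pr Z z * g z) {c : ℂ} {r R B : ℝ} (hR : r < R)
    (hZ : ∀ a ∈ Z, ‖a - c‖ ≤ r) (hB : ∀ z, ‖z - c‖ = R → ‖f z‖ ≤ B) (hR0 : 0 < R) {z : ℂ}
    (hz : ‖z - c‖ ≤ R) : (R - r) ^ Z.card * ‖g z‖ ≤ B := by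
  have hp : 0 < (R - r) ^ Z.card := pow_pos (sub_pos.2 hR) _
  rw [← le_div_iff₀' hp]
  refine norm_le_of_forall_mem_frontier_norm_le (U := ball c R) isBounded_ball
    hg.diffContOnCl (fun w hw => ?_) (by rwa [closure_ball c hR0.ne', mem_closedBall, dist_eq_norm])
  rw [frontier_ball c hR0.ne', mem_sphere, dist_eq_norm] at hw
  rw [le_div_iff₀' hp]
  refine le_trans ?_ (hB w hw)
  rw [hf, norm_mul]
  gcongr
  refine le_norm_pr (sub_pos.2 hR).le fun a ha => ?_
  have := norm_sub_norm_le (w - c) (a - c)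
  rw [sub_sub_sub_cancel_right] at this
  linarith [hZ a ha]

/-- Counting the zeros in a disc of any centre. -/
theorem count_le {f g : ℂ → ℂ} {Z : Multiset ℂ} (hg : Differentiable ℂ g)
    (hf : ∀ z, f z = pr Z z * g z) {c : ℂ} {r R B : ℝ} (hr : 0 ≤ r) (hR : r < R)
    (hB : ∀ z, ‖z - c‖ = R → ‖f z‖ ≤ B) :
    (R - r) ^ (Z.filter fun a => ‖a - c‖ ≤ r).card * ‖f c‖ ≤
      r ^ (Z.filter fun a => ‖a - c‖ ≤ r).card * B := by
  set Z₁ := Z.filter fun a => ‖a - c‖ ≤ r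
  have hf' : ∀ z, f z = pr Z₁ z * (pr (Z.filter fun a => ¬ ‖a - c‖ ≤ r) z * g z) := fun z => by
    rw [← mul_assoc, ← pr_add, Multiset.filter_add_not, hf]
  have hZ : ∀ a ∈ Z₁, ‖a - c‖ ≤ r := fun a ha => (Multiset.mem_filter.1 ha).2
  have h := norm_quot_le (by fun_prop) hf' hR hZ hB (hr.trans_lt hR) (z := c)
    (by simpa using (hr.trans_lt hR).le)
  have h2 : ‖pr Z₁ c‖ ≤ r ^ Z₁.card := norm_pr_le fun a ha => by rw [norm_sub_rev]; exact hZ a ha
  rw [hf' c, norm_mul, mul_left_comm]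
  exact mul_le_mul h2 h (by have := sub_pos.2 hR; positivity) (by positivity)

/-- Extraction of the zeros in a closed disc. -/
theorem exists_fac {f : ℂ → ℂ} (hf : Differentiable ℂ f) {c : ℂ} (hc : f c ≠ 0) {r : ℝ}
    (hr : 0 < r) : ∃ (Z : Multiset ℂ) (g : ℂ → ℂ), Differentiable ℂ g ∧
      (∀ z, f z = pr Z z * g z) ∧ (∀ a ∈ Z, ‖a - c‖ ≤ r) ∧ ∀ z, ‖z - c‖ ≤ r → g z ≠ 0 := by
  by_contra! H
  have key : ∀ k : ℕ, ∃ (Z : Multiset ℂ) (g : ℂ → ℂ), Differentiable ℂ g ∧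
      (∀ z, f z = pr Z z * g z) ∧ (∀ a ∈ Z, ‖a - c‖ ≤ r) ∧ Z.card = k := by
    intro k
    induction k with
    | zero => exact ⟨0, f, hf, by simp, by simp, rfl⟩
    | succ k ih =>
      obtain ⟨Z, g, hg, hfg, hZ, hk⟩ := ih
      obtain ⟨a, ha, hga⟩ := H Z g hg hfg hZ
      refine ⟨a ::ₘ Z, dslope g a, ?_, fun z => ?_, ?_, by simp [hk]⟩
      · rw [← differentiableOn_univ] at hg ⊢
        exact (differentiableOn_dslope univ_mem).2 hg
      · have h1 := sub_smul_dslope g a z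
        rw [hga, sub_zero, smul_eq_mul] at h1
        rw [hfg, pr_cons, ← h1]; ring
      · intro b hb
        rcases Multiset.mem_cons.1 hb with rfl | hb
        exacts [ha, hZ b hb]
  obtain ⟨B, hB⟩ := (isCompact_sphere c (3 * r)).exists_bound_of_continuousOn
    hf.continuous.continuousOn
  obtain ⟨k, hk⟩ := pow_unbounded_of_one_lt (B / ‖f c‖) (one_lt_two (α := ℝ))
  obtain ⟨Z, g, hg, hfg, hZ, rfl⟩ := key k
  have h := count_le hg hfg (c := c) hr.le (R := 3 * r) (B := B) (by linarith)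
    fun z hz => hB z (by rwa [mem_sphere, dist_eq_norm])
  rw [Multiset.filter_eq_self.2 hZ, show 3 * r - r = r * 2 by ring, mul_pow, mul_assoc] at h
  rw [div_lt_iff₀ (norm_pos_iff.2 hc)] at hk
  exact (le_of_mul_le_mul_left h (pow_pos hr _)).not_gt hk

lemma logDeriv_step {F : ℂ → ℂ} (hF : Differentiable ℂ F) {a z : ℂ} (ha : z ≠ a) (hz : F z ≠ 0) :
    logDeriv (fun w => (w - a) * F w) z = (z - a)⁻¹ + logDeriv F z := by
  rw [logDeriv_mul (f := fun w => w - a) z (sub_ne_zero.2 ha) hz (by fun_prop) (hF z)]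
  simp [logDeriv_apply]

lemma analyticAt_logDeriv {F : ℂ → ℂ} (hF : Differentiable ℂ F) {z : ℂ} (hz : F z ≠ 0) :
    AnalyticAt ℂ (logDeriv F) z := (hF.analyticAt z).deriv.div (hF.analyticAt z) hz

lemma iteratedDeriv_inv_sub (a : ℂ) (n : ℕ) :
    iteratedDeriv n (fun z : ℂ => (z - a)⁻¹) 0 = -(n.factorial * a⁻¹ ^ (n + 1)) := by
  have h := iteratedDeriv_comp_sub_const n (fun z : ℂ => z⁻¹) a
  rw [congrFun h 0, iteratedDeriv_eq_iterate, iter_deriv_inv, zero_sub,
    show (-1 - n : ℤ) = -((n + 1 : ℕ) : ℤ) by push_cast; ring, zpow_neg, zpow_natCast, ← inv_pow,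
    inv_neg, neg_pow a⁻¹, pow_succ (-1 : ℂ)]
  have : (-1 : ℂ) ^ n * (-1) ^ n = 1 := by rw [← mul_pow]; simp
  linear_combination (-(n.factorial : ℂ) * a⁻¹ ^ (n + 1)) * this

lemma iteratedDeriv_logDeriv_fac {g : ℂ → ℂ} (hg : Differentiable ℂ g) (hg0 : g 0 ≠ 0) (n : ℕ)
    (Z : Multiset ℂ) (hZ : (0 : ℂ) ∉ Z) :
    iteratedDeriv n (logDeriv fun z => pr Z z * g z) 0 =
      iteratedDeriv n (logDeriv g) 0 - n.factorial * (Z.map fun a => a⁻¹ ^ (n + 1)).sum := by
  induction Z using Multiset.induction_on with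
  | empty => simp
  | cons a Z ih =>
    rw [Multiset.mem_cons, not_or] at hZ
    have hF : Differentiable ℂ fun z => pr Z z * g z := by fun_prop
    have hF0 : pr Z 0 * g 0 ≠ 0 := mul_ne_zero (mt pr_eq_zero.1 hZ.2) hg0
    have hev : (logDeriv fun z => pr (a ::ₘ Z) z * g z) =ᶠ[𝓝 0]
        (fun z => (z - a)⁻¹) + logDeriv fun z => pr Z z * g z := by
      filter_upwards [(hF.continuous.continuousAt).eventually_ne hF0, eventually_ne_nhds hZ.1]
        with z hz hza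
      simp only [pr_cons, mul_assoc, Pi.add_apply]
      exact logDeriv_step hF hza hz
    have h1 : AnalyticAt ℂ (fun z : ℂ => (z - a)⁻¹) 0 :=
      AnalyticAt.inv (by fun_prop) (sub_ne_zero.2 hZ.1)
    rw [hev.iteratedDeriv_eq, iteratedDeriv_add h1.contDiffAt
      (analyticAt_logDeriv hF hF0).contDiffAt, ih hZ.2, iteratedDeriv_inv_sub]
    simp only [Multiset.map_cons, Multiset.sum_cons]
    ring

lemma norm_iteratedDeriv_logDeriv {g : ℂ → ℂ} (hg : Differentiable ℂ g) {r ρ A : ℝ} (hρ : 0 < ρ)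
    (hr : ρ < r) (hA : 0 < A) (hne : ∀ z, ‖z‖ ≤ r → g z ≠ 0)
    (hB : ∀ z, ‖z‖ ≤ r → ‖g z‖ ≤ Real.exp A * ‖g 0‖) (n : ℕ) :
    ‖iteratedDeriv n (logDeriv g) 0‖ ≤ (n + 1).factorial * (2 * A * ρ / (r - ρ)) / ρ ^ (n + 1) := by
  have hr0 := hρ.trans hr
  have hne' : ∀ z ∈ ball (0 : ℂ) r, g z ≠ 0 := fun z hz => hne z (mem_ball_zero_iff.1 hz).le
  have hq : DifferentiableOn ℂ (logDeriv g) (ball 0 r) := fun z hz =>
    (analyticAt_logDeriv hg (hne' z hz)).differentiableAt.differentiableWithinAt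
  obtain ⟨h, hc, hh⟩ := hq.isExactOn_ball.with_val_at 0 0
  have hd : DifferentiableOn ℂ h (ball 0 r) := fun w hw =>
    (hh w hw).differentiableAt.differentiableWithinAt
  have hexp : ∀ w ∈ ball (0 : ℂ) r, g w = g 0 * exp (h w) := by
    intro w hw
    have hk : ∀ z ∈ ball (0 : ℂ) r, HasDerivAt (fun z => g z * exp (-h z)) 0 z := by
      intro z hz
      refine ((hg z).hasDerivAt.mul ((hh z hz).neg.cexp)).congr_deriv ?_
      have := hne' z hz
      rw [logDeriv_apply]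
      simp only [Pi.neg_apply]
      field_simp
      ring
    have hconst := isOpen_ball.is_const_of_deriv_eq_zero (convex_ball (0 : ℂ) r).isPreconnected
      (f := fun z => g z * exp (-h z))
      (fun z hz => (hk z hz).differentiableAt.differentiableWithinAt)
      (fun z hz => (hk z hz).deriv) hw (mem_ball_self hr0)
    simp only [hc, neg_zero, exp_zero, mul_one] at hconst
    rw [← hconst, mul_assoc, ← exp_add]; simp
  have hre : MapsTo h (ball 0 r) {z | z.re ≤ A} := fun w hw => by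
    have := hB w (mem_ball_zero_iff.1 hw).le
    rw [hexp w hw, norm_mul, norm_exp, mul_comm] at this
    exact Real.exp_le_exp.1 (le_of_mul_le_mul_right this (norm_pos_iff.2 (hne 0 (by simpa using hr0.le))))
  have hev : logDeriv g =ᶠ[𝓝 0] deriv h := by
    filter_upwards [ball_mem_nhds (0 : ℂ) hr0] with z hz using (hh z hz).deriv.symm
  rw [hev.iteratedDeriv_eq, ← iteratedDeriv_succ']
  refine norm_iteratedDeriv_le_of_forall_mem_sphere_norm_le _ hρ
    (hd.diffContOnCl_ball (closedBall_subset_ball hr)) fun z hz => ?_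
  rw [mem_sphere_zero_iff_norm] at hz
  simpa [hz] using borelCaratheodory_zero hA hd hre hr0 (z := z) (by simpa [hz] using hr) hc

/-- Power sums of the reciprocals of the zeros. -/
theorem power_sums {f g : ℂ → ℂ} {Z : Multiset ℂ} (hg : Differentiable ℂ g)
    (hf : ∀ z, f z = pr Z z * g z) {r ρ A : ℝ} (hρ : 0 < ρ) (hr : ρ < r) (hA : 0 < A)
    (hZ : ∀ a ∈ Z, ‖a‖ ≤ r) (hne : ∀ z, ‖z‖ ≤ r → g z ≠ 0) (h0 : f 0 ≠ 0)
    (hB : ∀ z, ‖z‖ = 2 * r → ‖f z‖ ≤ Real.exp A * ‖f 0‖) (n : ℕ) :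
    ‖iteratedDeriv n (logDeriv f) 0 + n.factorial * (Z.map fun a => a⁻¹ ^ (n + 1)).sum‖ ≤
      (n + 1).factorial * (2 * A * ρ / (r - ρ)) / ρ ^ (n + 1) := by
  have hr0 := hρ.trans hr
  have hZ0 : (0 : ℂ) ∉ Z := fun h => h0 (by rw [hf, pr_eq_zero.2 h, zero_mul])
  rw [funext hf, iteratedDeriv_logDeriv_fac hg (hne 0 (by simpa using hr0.le)) n Z hZ0,
    sub_add_cancel]
  refine norm_iteratedDeriv_logDeriv hg hρ hr hA hne (fun z hz => ?_) n
  have h := norm_quot_le hg hf (c := 0) (r := r) (R := 2 * r) (by linarith) (by simpa using hZ)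
    (by simpa using hB) (by linarith) (z := z) (by rw [sub_zero]; linarith)
  have h2 : ‖pr Z 0‖ ≤ r ^ Z.card := norm_pr_le (by simpa using hZ)
  rw [show 2 * r - r = r by ring, hf 0, norm_mul] at h
  refine le_of_mul_le_mul_left (h.trans ?_) (pow_pos hr0 Z.card)
  rw [mul_left_comm (r ^ Z.card)]
  gcongr

/-- Integral over the boundary of a rectangle. -/
def RI (a b c d : ℝ) (φ : ℂ → ℂ) : ℂ :=
  (∫ x in a..b, φ (x + c * I)) - (∫ x in a..b, φ (x + d * I))
    + I * (∫ y in c..d, φ (b + y * I)) - I * ∫ y in c..d, φ (a + y * I)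

/-- The boundary of a rectangle. -/
def Bd (a b c d : ℝ) : Set ℂ := (Icc a b ×ℂ Icc c d) \ (Ioo a b ×ℂ Ioo c d)

variable {a b c d : ℝ}

lemma RI_eq_zero (hab : a ≤ b) (hcd : c ≤ d) {φ : ℂ → ℂ}
    (h : ∀ z ∈ Icc a b ×ℂ Icc c d, DifferentiableAt ℂ φ z) : RI a b c d φ = 0 := by
  have h' : DifferentiableOn ℂ φ (Icc a b ×ℂ Icc c d) :=
    fun z hz => (h z hz).differentiableWithinAt
  have h0 := integral_boundary_rect_eq_zero_of_differentiableOn φ ⟨a, c⟩ ⟨b, d⟩
    (by simpa only [uIcc_of_le hab, uIcc_of_le hcd] using h')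
  simpa only [smul_eq_mul, RI] using h0

lemma RI_add (hab : a ≤ b) (hcd : c ≤ d) {χ φ ψ : ℂ → ℂ} (h : ∀ z ∈ Bd a b c d, χ z = φ z + ψ z)
    (hφ : ∀ z ∈ Bd a b c d, ContinuousAt φ z) (hψ : ∀ z ∈ Bd a b c d, ContinuousAt ψ z) :
    RI a b c d χ = RI a b c d φ + RI a b c d ψ := by
  have key : ∀ (p : ℝ → ℂ) (s t : ℝ), Continuous p → (∀ x ∈ uIcc s t, p x ∈ Bd a b c d) →
      ∫ x in s..t, χ (p x) = (∫ x in s..t, φ (p x)) + ∫ x in s..t, ψ (p x) := by
    intro p s t hp hm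
    rw [← intervalIntegral.integral_add]
    · exact intervalIntegral.integral_congr fun x hx => h _ (hm x hx)
    · exact ContinuousOn.intervalIntegrable fun x hx =>
        ((hφ _ (hm x hx)).comp hp.continuousAt).continuousWithinAt
    · exact ContinuousOn.intervalIntegrable fun x hx =>
        ((hψ _ (hm x hx)).comp hp.continuousAt).continuousWithinAt
  unfold RI
  rw [key (fun x => x + c * I) a b (by fun_prop), key (fun x => x + d * I) a b (by fun_prop),
    key (fun y => b + y * I) c d (by fun_prop), key (fun y => a + y * I) c d (by fun_prop)]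
  · ring
  all_goals
    intro x hx
    first | rw [uIcc_of_le hab] at hx | rw [uIcc_of_le hcd] at hx
    simp [Bd, mem_reProdIm, hx.1, hx.2, hab, hcd]

open Classical in
lemma RI_step (hab : a ≤ b) (hcd : c ≤ d) {F : ℂ → ℂ} (hF : Differentiable ℂ F)
    (hne : ∀ z ∈ Bd a b c d, F z ≠ 0) {u : ℂ} (hu : u ∉ Bd a b c d) :
    RI a b c d (logDeriv fun w => (w - u) * F w) =
      (if u ∈ Ioo a b ×ℂ Ioo c d then 2 * Real.pi * I else 0) + RI a b c d (logDeriv F) := by
  have hz : ∀ z ∈ Bd a b c d, z ≠ u := fun z hz h => hu (h ▸ hz)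
  rw [RI_add hab hcd (fun z h => logDeriv_step hF (hz z h) (hne z h))
    (fun z h => ContinuousAt.inv₀ (by fun_prop) (sub_ne_zero.2 (hz z h)))
    fun z h => (analyticAt_logDeriv hF (hne z h)).continuousAt]
  congr 1
  split_ifs with h
  · exact MP_ff3f8e_an.H65.Rect.wind a b c d u h.1.1 h.1.2 h.2.1 h.2.2
  · refine RI_eq_zero hab hcd fun z hz' => DifferentiableAt.inv (by fun_prop) ?_
    rw [sub_ne_zero]
    rintro rfl
    exact hu ⟨hz', h⟩

open Classical in
/-- The argument principle. -/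
theorem RI_fac (hab : a ≤ b) (hcd : c ≤ d) {g : ℂ → ℂ} (hg : Differentiable ℂ g)
    (hne : ∀ z ∈ Icc a b ×ℂ Icc c d, g z ≠ 0) (Z : Multiset ℂ) (hZ : ∀ u ∈ Z, u ∉ Bd a b c d) :
    RI a b c d (logDeriv fun w => pr Z w * g w) =
      (Z.filter fun u => u ∈ Ioo a b ×ℂ Ioo c d).card * (2 * Real.pi * I) := by
  induction Z using Multiset.induction_on with
  | empty =>
    simpa using RI_eq_zero hab hcd fun z hz => (analyticAt_logDeriv hg (hne z hz)).differentiableAt
  | cons u Z ih =>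
    have hZ' : ∀ u ∈ Z, u ∉ Bd a b c d := fun v hv => hZ v (by simp [hv])
    simp only [pr_cons, mul_assoc]
    rw [RI_step hab hcd (by fun_prop) (fun z hz => mul_ne_zero
      (fun h => hZ' z (pr_eq_zero.1 h) hz) (hne z hz.1)) (hZ u (by simp)), ih hZ',
      Multiset.filter_cons]
    split_ifs <;> simp [add_mul, mul_assoc, add_comm]

end Pool.Agent.MP_dbd6a6_co.H92
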