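import Pool.Agent.MP_dbd6a6_co.H92.Mom

/-!
Signs and bounds of the Laplace transform on horizontal and vertical lines.
-/

open Real MeasureTheory intervalIntegral Set

noncomputable section

namespace Pool.Agent.MP_dbd6a6_co.H92

lemma nonneg_of_deriv {g g' : ℝ → ℝ} (h : ∀ x, HasDerivAt g (g' x) x) (h0 : g 0 = 0)
    (h' : ∀ x, 0 ≤ x → 0 ≤ g' x) {x : ℝ} (hx : 0 ≤ x) : 0 ≤ g x := by
  have := monotoneOn_of_deriv_nonneg (convex_Ici (0 : ℝ)) (f := g)
    (fun x _ => (h x).continuousAt.continuousWithinAt)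
    (fun x _ => (h x).differentiableAt.differentiableWithinAt)
    (fun x hx => by rw [(h x).deriv]; exact h' x (interior_subset hx)) self_mem_Ici hx hx
  rwa [h0] at this

lemma cos_le_eight (x : ℝ) :
    cos x ≤ 1 - x ^ 2 / 2 + x ^ 4 / 24 - x ^ 6 / 720 + x ^ 8 / 40320 := by
  have hp := fun (n : ℕ) (x : ℝ) (c : ℝ) => (hasDerivAt_pow n x).div_const c
  have h4 : ∀ x : ℝ, 0 ≤ x → 0 ≤ 1 - x ^ 2 / 2 + x ^ 4 / 24 - cos x := fun x hx =>
    nonneg_of_deriv (g := fun x => 1 - x ^ 2 / 2 + x ^ 4 / 24 - cos x)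
      (g' := fun x => sin x - (x - x ^ 3 / 6))
      (fun x => ((((hp 2 x 2).const_sub 1).add (hp 4 x 24)).sub (hasDerivAt_cos x)).congr_deriv
        (by norm_num; ring)) (by simp) (fun x hx => sub_nonneg.2 (sin_ge_sub_cube hx)) hx
  have h5 : ∀ x : ℝ, 0 ≤ x → 0 ≤ x - x ^ 3 / 6 + x ^ 5 / 120 - sin x := fun x hx =>
    nonneg_of_deriv (g := fun x => x - x ^ 3 / 6 + x ^ 5 / 120 - sin x)
      (fun x => ((((hasDerivAt_id' x).sub (hp 3 x 6)).add (hp 5 x 120)).sub
        (hasDerivAt_sin x)).congr_deriv (by norm_num; ring)) (by simp) h4 hx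
  have h6 : ∀ x : ℝ, 0 ≤ x → 0 ≤ cos x - (1 - x ^ 2 / 2 + x ^ 4 / 24 - x ^ 6 / 720) := fun x hx =>
    nonneg_of_deriv (g := fun x => cos x - (1 - x ^ 2 / 2 + x ^ 4 / 24 - x ^ 6 / 720))
      (fun x => ((hasDerivAt_cos x).sub ((((hp 2 x 2).const_sub 1).add (hp 4 x 24)).sub
        (hp 6 x 720))).congr_deriv (by norm_num; ring)) (by simp) h5 hx
  have h7 : ∀ x : ℝ, 0 ≤ x → 0 ≤ sin x - (x - x ^ 3 / 6 + x ^ 5 / 120 - x ^ 7 / 5040) :=
    fun x hx => nonneg_of_deriv (g := fun x => sin x - (x - x ^ 3 / 6 + x ^ 5 / 120 - x ^ 7 / 5040))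
      (fun x => ((hasDerivAt_sin x).sub ((((hasDerivAt_id' x).sub (hp 3 x 6)).add (hp 5 x 120)).sub
        (hp 7 x 5040))).congr_deriv (by norm_num; ring)) (by simp) h6 hx
  have h8 : ∀ x : ℝ, 0 ≤ x →
      0 ≤ 1 - x ^ 2 / 2 + x ^ 4 / 24 - x ^ 6 / 720 + x ^ 8 / 40320 - cos x := fun x hx =>
    nonneg_of_deriv (g := fun x => 1 - x ^ 2 / 2 + x ^ 4 / 24 - x ^ 6 / 720 + x ^ 8 / 40320 - cos x)
      (fun x => ((((((hp 2 x 2).const_sub 1).add (hp 4 x 24)).sub (hp 6 x 720)).add
        (hp 8 x 40320)).sub (hasDerivAt_cos x)).congr_deriv (by norm_num; ring)) (by simp) h7 hx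
  rcases le_total 0 x with hx | hx
  · linarith [h8 x hx]
  · have := h8 (-x) (by linarith)
    rw [cos_neg] at this
    nlinarith

lemma int_cos_pow (n : ℕ) : ∫ θ in (0 : ℝ)..π, cos θ ^ (n + 2) =
    (n + 1) / (n + 2) * ∫ θ in (0 : ℝ)..π, cos θ ^ n := by
  rw [integral_cos_pow]; simp

lemma bessel_neg {H : ℝ} (h1 : 39 / 10 ≤ H) (h2 : H ≤ 3 * π / 2) :
    ∫ θ in (0 : ℝ)..π, sin θ ^ 2 * cos (H * cos θ) < 0 := by
  have c0 : ∫ θ in (0 : ℝ)..π, cos θ ^ 0 = π := by simp
  have c2 := int_cos_pow 0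
  have c4 := int_cos_pow 2
  have c6 := int_cos_pow 4
  have c8 := int_cos_pow 6
  have c10 := int_cos_pow 8
  norm_num only at c2 c4 c6 c8 c10
  have hI : ∀ (a : ℝ) (n : ℕ), IntervalIntegrable (fun θ => a * cos θ ^ n) volume 0 π :=
    fun a n => Continuous.intervalIntegrable (by fun_prop) _ _
  have key : ∫ θ in (0 : ℝ)..π, sin θ ^ 2 * cos (H * cos θ) ≤ ∫ θ in (0 : ℝ)..π,
      1 * cos θ ^ 0 + (-1 - H ^ 2 / 2) * cos θ ^ 2 + (H ^ 2 / 2 + H ^ 4 / 24) * cos θ ^ 4 +
      (-H ^ 4 / 24 - H ^ 6 / 720) * cos θ ^ 6 + (H ^ 6 / 720 + H ^ 8 / 40320) * cos θ ^ 8 +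
      (-H ^ 8 / 40320) * cos θ ^ 10 := by
    refine integral_mono_on pi_pos.le (Continuous.intervalIntegrable (by fun_prop) _ _)
      (Continuous.intervalIntegrable (by fun_prop) _ _) fun θ _ => ?_
    refine (mul_le_mul_of_nonneg_left (cos_le_eight _) (sq_nonneg _)).trans (le_of_eq ?_)
    rw [sin_sq]; ring
  rw [integral_add (Continuous.intervalIntegrable (by fun_prop) _ _) (hI _ _),
    integral_add (Continuous.intervalIntegrable (by fun_prop) _ _) (hI _ _),
    integral_add (Continuous.intervalIntegrable (by fun_prop) _ _) (hI _ _),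
    integral_add (Continuous.intervalIntegrable (by fun_prop) _ _) (hI _ _),
    integral_add (hI _ _) (hI _ _)] at key
  simp only [intervalIntegral.integral_const_mul] at key
  rw [c10, c8, c6, c4, c2, c0] at key
  refine key.trans_lt ?_
  have hπ := pi_lt_d2
  obtain ⟨q, hq⟩ : ∃ q, q = H ^ 2 / 4 := ⟨_, rfl⟩
  have hq1 : 3.8 ≤ q := by nlinarith
  have hq2 : q ≤ 5.6 := by nlinarith
  have hP : 1 - q / 2 + q ^ 2 / 12 - q ^ 3 / 144 + q ^ 4 / 2880 < 0 := by
    obtain ⟨t, rfl⟩ : ∃ t, q = 3.8 + t := ⟨q - 3.8, by ring⟩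
    have ht : 0 ≤ t := by linarith
    have ht2 : t ≤ 1.8 := by linarith
    nlinarith [mul_nonneg ht (sub_nonneg.2 ht2), mul_nonneg (mul_nonneg ht ht) (sub_nonneg.2 ht2),
      mul_nonneg (mul_nonneg (mul_nonneg ht ht) ht) (sub_nonneg.2 ht2)]
  refine lt_of_eq_of_lt (b := π / 2 * (1 - q / 2 + q ^ 2 / 12 - q ^ 3 / 144 + q ^ 4 / 2880)) ?_
    (mul_neg_of_pos_of_neg (by positivity) hP)
  rw [hq]; ring

/-- The weight in the centred variable. -/
def ph (c d θ : ℝ) : ℝ := sin θ ^ 2 / (c + d * cos θ) ^ 2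

/-- The centred Laplace transform. -/
def ff (c d : ℝ) : ℂ → ℂ := Lap (ph c d) cos

variable {c d : ℝ}

lemma den_pos (hd : 0 ≤ d) (hc : d < c) {t : ℝ} (ht : -1 ≤ t) : 0 < c + d * t := by nlinarith

lemma continuous_ph (hd : 0 ≤ d) (hc : d < c) : Continuous (ph c d) :=
  Continuous.div (by fun_prop) (by fun_prop)
    fun θ => (pow_pos (den_pos hd hc (neg_one_le_cos θ)) 2).ne'

lemma ph_nonneg (c d θ : ℝ) : 0 ≤ ph c d θ := by unfold ph; positivity

lemma differentiable_ff (hd : 0 ≤ d) (hc : d < c) : Differentiable ℂ (ff c d) :=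
  differentiable_Lap (continuous_ph hd hc) continuous_cos

lemma ff_conj (c d : ℝ) (z : ℂ) : ff c d (starRingEnd ℂ z) = starRingEnd ℂ (ff c d z) :=
  Lap_conj _ _ z

lemma re_ff (hd : 0 ≤ d) (hc : d < c) (w : ℂ) : (ff c d w).re =
    ∫ θ in (0 : ℝ)..π, ph c d θ * (exp (w.re * cos θ) * cos (w.im * cos θ)) := by
  have := re_Lap (continuous_ph hd hc) continuous_cos 1 w
  simp only [one_mul] at this
  rw [ff, this]
  simp only [Complex.exp_re, Complex.mul_re, Complex.mul_im, Complex.ofReal_re, Complex.ofReal_im,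
    mul_zero, sub_zero, zero_add]

lemma re_ff_pos (hd : 0 ≤ d) (hc : d < c) {w : ℂ} (hw : |w.im| ≤ π / 2) : 0 < (ff c d w).re := by
  have := continuous_ph hd hc
  rw [re_ff hd hc]
  refine intervalIntegral_pos_of_pos_on (Continuous.intervalIntegrable (by fun_prop) _ _)
    (fun θ hθ => ?_) pi_pos
  have hs := sin_pos_of_mem_Ioo hθ
  have := den_pos hd hc (neg_one_le_cos θ)
  have h1 : |cos θ| < 1 := by
    rw [← sq_lt_one_iff_abs_lt_one]; nlinarith [sin_sq_add_cos_sq θ]
  have h2 : |w.im * cos θ| < π / 2 := by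
    rw [abs_mul]
    nlinarith [abs_nonneg w.im, abs_nonneg (cos θ), pi_pos]
  have := cos_pos_of_mem_Ioo (x := w.im * cos θ) ⟨(abs_lt.1 h2).1, (abs_lt.1 h2).2⟩
  unfold ph; positivity

/-- The tilted weight. -/
def VV (c d x t : ℝ) : ℝ := exp (x * t) / (c + d * t) ^ 2

lemma VV_convex (hd : 0 ≤ d) (hc : d < c) (x : ℝ) : ConvexOn ℝ (Icc (-1) 1) (VV c d x) := by
  refine ⟨convex_Icc _ _, fun t ht u hu a b ha hb hab => ?_⟩
  have e : ∀ t : ℝ, -1 ≤ t → VV c d x t = exp (x * t - 2 * log (c + d * t)) := fun t ht => by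
    rw [VV, exp_sub, show (2 : ℝ) = (2 : ℕ) by norm_num, exp_nat_mul, exp_log (den_pos hd hc ht)]
  simp only [smul_eq_mul]
  rw [e _ ht.1, e _ hu.1, e _ (by nlinarith [ht.1, hu.1])]
  refine le_trans (exp_le_exp.2 ?_) (convexOn_exp.2 (mem_univ _) (mem_univ _) ha hb hab)
  have := strictConcaveOn_log_Ioi.concaveOn.2 (den_pos hd hc ht.1) (den_pos hd hc hu.1) ha hb hab
  simp only [smul_eq_mul] at this ⊢
  rw [show a * (c + d * t) + b * (c + d * u) = c + d * (a * t + b * u) by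
    linear_combination c * hab] at this
  linarith

lemma VV_symm (hd : 0 ≤ d) (hc : d < c) (x : ℝ) {t u : ℝ} (ht : |t| ≤ u) (hu : u ≤ 1) :
    VV c d x t + VV c d x (-t) ≤ VV c d x u + VV c d x (-u) := by
  rcases (abs_nonneg t).trans ht |>.eq_or_lt with h | h
  · subst h
    rw [abs_nonpos_iff.1 ht]
  rw [abs_le] at ht
  have hm : u ∈ Icc (-1 : ℝ) 1 := ⟨by linarith, hu⟩
  have hm' : -u ∈ Icc (-1 : ℝ) 1 := ⟨by linarith, by linarith⟩
  have ha : 0 ≤ (u + t) / (2 * u) := div_nonneg (by linarith) (by linarith)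
  have hb : 0 ≤ (u - t) / (2 * u) := div_nonneg (by linarith) (by linarith)
  have hab : (u + t) / (2 * u) + (u - t) / (2 * u) = 1 := by field_simp; ring
  have h1 := (VV_convex hd hc x).2 hm hm' ha hb hab
  have h2 := (VV_convex hd hc x).2 hm hm' hb ha (by linarith)
  simp only [smul_eq_mul] at h1 h2
  rw [show (u + t) / (2 * u) * u + (u - t) / (2 * u) * -u = t by field_simp; ring] at h1
  rw [show (u - t) / (2 * u) * u + (u + t) / (2 * u) * -u = -t by field_simp; ring] at h2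
  linear_combination h1 + h2 + (VV c d x u + VV c d x (-u)) * hab

lemma two_re_ff (hd : 0 ≤ d) (hc : d < c) (w : ℂ) : 2 * (ff c d w).re = ∫ θ in (0 : ℝ)..π,
    (VV c d w.re (cos θ) + VV c d w.re (-cos θ)) * (sin θ ^ 2 * cos (w.im * cos θ)) := by
  have hph := continuous_ph hd hc
  have h := re_ff hd hc w
  have h' := h
  have := integral_comp_sub_left (a := 0) (b := π)
    (fun θ => ph c d θ * (exp (w.re * cos θ) * cos (w.im * cos θ))) π
  rw [sub_self, sub_zero] at this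
  rw [← this] at h'
  rw [two_mul]
  nth_rewrite 1 [h]
  rw [h', ← integral_add (Continuous.intervalIntegrable (by fun_prop) _ _)
    (Continuous.intervalIntegrable (by fun_prop) _ _)]
  refine integral_congr fun θ _ => ?_
  simp only [ph, VV, cos_pi_sub, sin_pi_sub, mul_neg, cos_neg]
  ring

lemma continuous_VV (hd : 0 ≤ d) (hc : d < c) (x : ℝ) :
    Continuous fun θ => VV c d x (cos θ) + VV c d x (-cos θ) := by
  unfold VV
  refine (Continuous.div (by fun_prop) (by fun_prop) fun θ => ?_).add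
    (Continuous.div (by fun_prop) (by fun_prop) fun θ => ?_)
  · exact (pow_pos (den_pos hd hc (neg_one_le_cos θ)) 2).ne'
  · exact (pow_pos (den_pos hd hc (neg_le_neg (cos_le_one θ))) 2).ne'

lemma cos_sign {H t : ℝ} (h1 : 0 < H) (h2 : H ≤ 3 * π / 2) (ht : |t| ≤ 1) :
    (|t| ≤ π / 2 / H → 0 ≤ cos (H * t)) ∧ (π / 2 / H ≤ |t| → cos (H * t) ≤ 0) := by
  rw [← cos_abs, abs_mul, abs_of_pos h1]
  constructor
  · intro h
    rw [le_div_iff₀' h1] at h
    exact cos_nonneg_of_mem_Icc ⟨by nlinarith [pi_pos, abs_nonneg t], h⟩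
  · intro h
    rw [div_le_iff₀' h1] at h
    exact cos_nonpos_of_pi_div_two_le_of_le h (by nlinarith)

lemma re_ff_neg (hd : 0 ≤ d) (hc : d < c) {w : ℂ} (h1 : 39 / 10 ≤ |w.im|)
    (h2 : |w.im| ≤ 3 * π / 2) : (ff c d w).re < 0 := by
  have hV := continuous_VV hd hc w.re
  have hH : 0 < |w.im| := by linarith
  have ht0 : π / 2 / |w.im| ≤ 1 := by rw [div_le_one hH]; linarith [pi_lt_d2]
  have ht1 : 0 < π / 2 / |w.im| := by positivity
  have hcos : ∀ t, cos (w.im * t) = cos (|w.im| * t) := fun t => by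
    rw [← cos_abs, abs_mul, ← cos_abs (|w.im| * t), abs_mul, abs_abs]
  have key : 2 * (ff c d w).re ≤ (VV c d w.re (π / 2 / |w.im|) + VV c d w.re (-(π / 2 / |w.im|))) *
      ∫ θ in (0 : ℝ)..π, sin θ ^ 2 * cos (|w.im| * cos θ) := by
    rw [two_re_ff hd hc, ← intervalIntegral.integral_const_mul]
    refine integral_mono_on pi_pos.le (Continuous.intervalIntegrable (by fun_prop) _ _)
      (Continuous.intervalIntegrable (by fun_prop) _ _) fun θ _ => ?_
    rw [hcos]
    have hs := cos_sign hH h2 (abs_cos_le_one θ)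
    rcases le_total |cos θ| (π / 2 / |w.im|) with h | h
    · exact mul_le_mul_of_nonneg_right (VV_symm hd hc _ h ht0) (mul_nonneg (sq_nonneg _) (hs.1 h))
    · refine mul_le_mul_of_nonpos_right ?_ (mul_nonpos_of_nonneg_of_nonpos (sq_nonneg _) (hs.2 h))
      have := VV_symm hd hc w.re (t := π / 2 / |w.im|) (u := |cos θ|) (by rwa [abs_of_pos ht1])
        (abs_cos_le_one θ)
      rcases abs_cases (cos θ) with h3 | h3 <;> rw [h3.1] at this
      · exact this
      · rw [neg_neg] at this; linarith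
  have hpos : 0 < VV c d w.re (π / 2 / |w.im|) + VV c d w.re (-(π / 2 / |w.im|)) := by
    have := den_pos hd hc (t := π / 2 / |w.im|) (by linarith)
    have := den_pos hd hc (t := -(π / 2 / |w.im|)) (by linarith)
    unfold VV; positivity
  linarith [mul_neg_of_pos_of_neg hpos (bessel_neg h1 h2)]

lemma tilt_bound {ε X : ℝ} (hε : ε ^ 2 = 1) :
    X * ∫ θ in (0 : ℝ)..π, sin θ ^ 2 * (1 - ε * cos θ) * exp (ε * X * cos θ) ≤
      3 / 2 * ∫ θ in (0 : ℝ)..π, sin θ ^ 2 * exp (ε * X * cos θ) := by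
  have hd : ∀ θ, HasDerivAt (fun θ => ε * (exp (ε * X * cos θ) * (sin θ * (1 - ε * cos θ))))
      ((ε * cos θ * (1 - ε * cos θ) + sin θ ^ 2) * exp (ε * X * cos θ) -
        X * (sin θ ^ 2 * (1 - ε * cos θ) * exp (ε * X * cos θ))) θ := fun θ => by
    refine (((((hasDerivAt_cos θ).const_mul (ε * X)).exp).mul ((hasDerivAt_sin θ).mul
      (((hasDerivAt_cos θ).const_mul ε).const_sub 1))).const_mul ε).congr_deriv ?_
    simp only [Pi.mul_apply]
    linear_combination (exp (ε * X * cos θ) * sin θ ^ 2 * (1 - X * (1 - ε * cos θ))) * hε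
  have hI := integral_eq_sub_of_hasDerivAt (a := 0) (b := π) (fun θ _ => hd θ)
    (Continuous.intervalIntegrable (by fun_prop) _ _)
  rw [integral_sub (Continuous.intervalIntegrable (by fun_prop) _ _)
    (Continuous.intervalIntegrable (by fun_prop) _ _), intervalIntegral.integral_const_mul] at hI
  simp only [sin_pi, sin_zero, zero_mul, mul_zero, sub_self, sub_eq_zero] at hI
  rw [← hI, ← intervalIntegral.integral_const_mul]
  refine integral_mono_on pi_pos.le (Continuous.intervalIntegrable (by fun_prop) _ _)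
    (Continuous.intervalIntegrable (by fun_prop) _ _) fun θ _ => ?_
  rw [← mul_assoc]
  gcongr
  have h := sin_sq_add_cos_sq θ
  have : (ε * cos θ) ^ 2 = cos θ ^ 2 := by rw [mul_pow, hε, one_mul]
  nlinarith [sq_nonneg (1 - ε * cos θ)]

/-- On far vertical lines the logarithmic derivative is close to `1` or `-1`. -/
lemma vertical (hd : 0 ≤ d) (hc : d < c) : ∃ X₀ : ℝ, 0 < X₀ ∧ ∀ ε : ℝ, ε ^ 2 = 1 → ∀ w : ℂ,
    X₀ ≤ ε * w.re → |w.im| ≤ 5 → ff c d w ≠ 0 ∧ ‖logDeriv (ff c d) w - ε‖ ≤ 1 / 10 := by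
  have hcd : 0 < c - d := sub_pos.2 hc
  have hc0 : 0 < c + d := by linarith
  have hph := continuous_ph hd hc
  refine ⟨30 * (c + d) ^ 2 / (c - d) ^ 2, by positivity, fun ε hε w hX hw => ?_⟩
  have hε1 : |ε| = 1 := by rcases sq_eq_one_iff.1 hε with h | h <;> simp [h]
  have hu : ∀ θ, 0 ≤ 1 - ε * cos θ := fun θ => by
    have : |ε * cos θ| ≤ 1 := by rw [abs_mul, hε1, one_mul]; exact abs_cos_le_one θ
    linarith [(abs_le.1 this).2]
  set N := ∫ θ in (0 : ℝ)..π, ph c d θ * ((1 - ε * cos θ) * exp (w.re * cos θ)) with hN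
  set Z := ∫ θ in (0 : ℝ)..π, ph c d θ * exp (w.re * cos θ) with hZ
  have hZ0 : 0 < Z := by simpa [hZ, re_ff hd hc] using re_ff_pos hd hc (w := w.re) (by simp; positivity)
  have hNZ : 20 * N ≤ Z := by
    have h := tilt_bound (X := ε * w.re) hε
    rw [← mul_assoc, ← sq, hε, one_mul] at h
    have h1 : (c - d) ^ 2 * N ≤
        ∫ θ in (0 : ℝ)..π, sin θ ^ 2 * (1 - ε * cos θ) * exp (w.re * cos θ) := by
      rw [hN, ← intervalIntegral.integral_const_mul]
      refine integral_mono_on pi_pos.le (Continuous.intervalIntegrable (by fun_prop) _ _)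
        (Continuous.intervalIntegrable (by fun_prop) _ _) fun θ _ => ?_
      rw [← mul_assoc, mul_assoc (sin θ ^ 2)]
      have := hu θ
      gcongr
      have h2 := den_pos hd hc (neg_one_le_cos θ)
      rw [ph, ← mul_div_assoc, div_le_iff₀ (by positivity), mul_comm]
      gcongr
      nlinarith [neg_one_le_cos θ]
    have h2 : ∫ θ in (0 : ℝ)..π, sin θ ^ 2 * exp (w.re * cos θ) ≤ (c + d) ^ 2 * Z := by
      rw [hZ, ← intervalIntegral.integral_const_mul]
      refine integral_mono_on pi_pos.le (Continuous.intervalIntegrable (by fun_prop) _ _)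
        (Continuous.intervalIntegrable (by fun_prop) _ _) fun θ _ => ?_
      rw [← mul_assoc]
      gcongr
      have h2 := den_pos hd hc (neg_one_le_cos θ)
      rw [ph, ← mul_div_assoc, le_div_iff₀ (by positivity), mul_comm]
      gcongr
      nlinarith [cos_le_one θ]
    have hN0 : 0 ≤ N := integral_nonneg pi_pos.le fun θ _ => by
      have := hu θ; have := ph_nonneg c d θ; positivity
    have hX0 : 0 ≤ ε * w.re := le_trans (by positivity) hX
    rw [div_le_iff₀ (by positivity)] at hX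
    have h3 := mul_le_mul_of_nonneg_left h1 hX0
    have h4 := mul_le_mul_of_nonneg_right hX hN0
    refine le_of_mul_le_mul_left ?_ (show 0 < (c + d) ^ 2 by positivity)
    linarith
  have hI : ∀ (φ : ℝ → ℝ) (z : ℂ), Continuous φ →
      IntervalIntegrable (fun θ => (φ θ : ℂ) * Complex.exp (z * cos θ)) volume 0 π :=
    fun φ z h => Continuous.intervalIntegrable (by fun_prop) _ _
  have hA : ‖deriv (ff c d) w - ε * ff c d w‖ ≤ N := by
    rw [ff, deriv_Lap hph continuous_cos, Lap, Lap, ← intervalIntegral.integral_const_mul,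
      ← integral_sub (hI _ _ (by fun_prop)) ((hI _ _ hph).const_mul _)]
    refine (intervalIntegral.norm_integral_le_integral_norm pi_pos.le).trans (le_of_eq ?_)
    refine integral_congr fun θ _ => ?_
    have e : ((ph c d θ * cos θ : ℝ) : ℂ) * Complex.exp (w * cos θ) -
        ε * (ph c d θ * Complex.exp (w * cos θ)) =
        ((ph c d θ * (-ε * (1 - ε * cos θ)) : ℝ) : ℂ) * Complex.exp (w * cos θ) := by
      rw [show -ε * (1 - ε * cos θ) = cos θ - ε by linear_combination cos θ * hε]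
      push_cast; ring
    simp only [e, norm_mul, Complex.norm_real, Real.norm_eq_abs, abs_neg, hε1, one_mul,
      abs_of_nonneg (hu θ), abs_of_nonneg (ph_nonneg c d θ), Complex.norm_exp, Complex.re_mul_ofReal,
      mul_assoc]
  have hB : ‖ff c d w - Complex.exp (Complex.I * (ε * w.im : ℝ)) * Z‖ ≤ 5 * N := by
    rw [hZ, ← Lap_ofReal, ff, Lap, Lap, ← intervalIntegral.integral_const_mul,
      ← integral_sub (hI _ _ hph) ((hI _ _ hph).const_mul _), hN,
      ← intervalIntegral.integral_const_mul]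
    refine (intervalIntegral.norm_integral_le_integral_norm pi_pos.le).trans ?_
    refine integral_mono_on pi_pos.le (Continuous.intervalIntegrable (by fun_prop) _ _)
      (Continuous.intervalIntegrable (by fun_prop) _ _) fun θ _ => ?_
    have e : (ph c d θ : ℂ) * Complex.exp (w * cos θ) - Complex.exp (Complex.I * (ε * w.im : ℝ)) *
        (ph c d θ * Complex.exp (w.re * cos θ)) = ph c d θ * Complex.exp (w.re * cos θ) *
        Complex.exp (Complex.I * (ε * w.im : ℝ)) *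
        (Complex.exp (Complex.I * (w.im * (cos θ - ε) : ℝ)) - 1) := by
      rw [mul_sub, mul_assoc, mul_assoc, ← Complex.exp_add, ← Complex.exp_add]
      congr 1
      · congr 2
        conv_lhs => rw [← Complex.re_add_im w]
        push_cast; ring
      · ring
    have h5 := norm_exp_I_mul_ofReal_sub_one_le (x := w.im * (cos θ - ε))
    rw [show cos θ - ε = -ε * (1 - ε * cos θ) by linear_combination -cos θ * hε] at h5 e
    simp only [norm_mul, Real.norm_eq_abs, abs_neg, hε1, one_mul, abs_of_nonneg (hu θ)] at h5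
    rw [e, norm_mul, norm_mul, norm_mul, Complex.norm_exp_I_mul_ofReal, mul_one,
      Complex.norm_real, Real.norm_eq_abs, abs_of_nonneg (ph_nonneg c d θ), ← Complex.ofReal_mul,
      Complex.norm_exp_ofReal]
    have := mul_nonneg (ph_nonneg c d θ) (exp_pos (w.re * cos θ)).le
    have h6 := mul_le_mul_of_nonneg_left (h5.trans (mul_le_mul_of_nonneg_right hw (hu θ))) this
    linarith
  have hC : 3 / 4 * Z ≤ ‖ff c d w‖ := by
    have := norm_sub_norm_le (Complex.exp (Complex.I * (ε * w.im : ℝ)) * Z) (ff c d w)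
    rw [norm_sub_rev, norm_mul, Complex.norm_exp_I_mul_ofReal, one_mul, Complex.norm_real,
      Real.norm_eq_abs, abs_of_pos hZ0] at this
    linarith
  have hne : ff c d w ≠ 0 := norm_pos_iff.1 (by linarith)
  refine ⟨hne, ?_⟩
  rw [logDeriv_apply, div_sub' hne, norm_div, div_le_iff₀ (norm_pos_iff.2 hne), mul_comm (ff c d w)]
  linarith

end Pool.Agent.MP_dbd6a6_co.H92
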