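import Pool.Agent.MP_dbd6a6_co.H92.MidA
import Pool.Agent.MP_dbd6a6_co.H70.Spec

/-!
Module F: the middle and large range of `y`, by a certified computation.
-/

open Finset Real

namespace Pool.Agent.MP_dbd6a6_co.H92

/-- The scale. -/
@[irreducible] def sN : ℕ := 2 ^ 660

/-- The error bound. -/
@[irreducible] def sE : ℕ := 2 ^ 614

lemma sN_pos : (0 : ℝ) < sN := by unfold sN; positivity

lemma sN_le : 10 ^ 14 * 1537 ^ 56 + sN ≤ 10 ^ 14 * sE := by decide +kernel

/-- Rounded Taylor coefficients. -/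
def cs (ka si : ℚ) : ℕ → ℕ → ℚ → ℚ → ℚ → ℚ → ℚ → List ℤ
  | 0, _, _, _, _, _, _ => []
  | n + 1, k, t0, t1, g0, g1, f => ⌊t0 / f * sN⌋ :: cs ka si n (k + 1) t1
      (ka * g0 - 2 * si * t1 - si ^ 2 * t0) g1 (g0 * (k + 1) / (k + 4)) (f * (128 * (k + 1)))

/-- The rounded Taylor coefficients of `fr r`. -/
def co (r : ℚ) : List ℤ :=
  cs ((1 - r ^ 2) / (4 * r ^ 2)) ((1 + r ^ 2) / (2 * r)) 56 0 1 (-r) 1 0 1

/-- Horner evaluation at a Gaussian integer. -/
def ev (X H : ℤ) : List ℤ → ℤ × ℤ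
  | [] => (0, 0)
  | c :: l => (c + ((ev X H l).1 * X - (ev X H l).2 * H), (ev X H l).1 * H + (ev X H l).2 * X)

/-- The covering check. -/
def cov (l : List ℤ) (B : ℕ) : ℕ → List (ℕ × ℕ × ℕ) → Bool
  | L, [] => decide (403 ≤ L)
  | L, (X, H, D) :: s => decide (H ≤ L + D ∧ 1000 * (X ^ 2 + (H + D) ^ 2) ≤ B ∧
      D * ((ev X 0 l).1 + sE) < 128 * ((ev X H l).2 - sE)) && cov l B (H + D) s

/-- The parameter with index `u`. -/
def ru (u : ℕ) : ℚ := 1 - u / 2 ^ 31

/-- Upper bound for an exponential moment. -/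
def up (u a b : ℕ) : ℚ := (10078430973 / 10 ^ 10) ^ b * ((ev a 0 (co (ru u))).1 + sE) / sN

/-- The check of all cells. -/
def chk : ℕ → List (ℕ × ℕ × List (ℕ × ℕ × ℕ)) → Bool
  | u0, [] => decide (2 ^ 31 ≤ u0)
  | u0, (u1, a, s) :: c => cov (co (ru u0)) (893 * (363724 + a ^ 2)) 200 s &&
      decide (0 < u1 ∧ 363724 + a ^ 2 ≤ 2359296 ∧ (a = 0 ∨ u1 < 2 ^ 31 ∧ up u1 a a <
        2 - (363724 + a ^ 2) / 16384 * ((1 - ru u1) * (5 - 3 * ru u1) / 8))) && chk u1 c

/-- The cells. -/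
def data : List (ℕ × ℕ × List (ℕ × ℕ × ℕ)) :=
  [(207, 1404, [(1426, 211, 11), (1423, 233, 11), (1420, 253, 9), (1416, 271, 9), (1413, 288, 8),
    (1409, 305, 9), (1405, 323, 9), (1400, 342, 10), (1393, 365, 13), (1382, 397, 19)]),
    (232, 1396, [(1419, 211, 11), (1416, 233, 11), (1412, 254, 10), (1409, 273, 9), (1405, 291, 9),
    (1401, 309, 9), (1397, 327, 9), (1391, 347, 11), (1384, 372, 14), (1371, 408, 22)]),
    (268, 1386, [(1411, 211, 11), (1407, 232, 10), (1404, 251, 9), (1401, 269, 9), (1397, 286, 8),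
    (1394, 302, 8), (1390, 319, 9), (1385, 338, 10), (1379, 360, 12), (1369, 389, 17)]),
    (314, 1375, [(1401, 211, 11), (1398, 232, 10), (1394, 251, 9), (1391, 269, 9), (1388, 286, 8),
    (1384, 303, 9), (1380, 320, 8), (1375, 338, 10), (1369, 360, 12), (1359, 389, 17)]),
    (374, 1363, [(1390, 211, 11), (1387, 232, 10), (1384, 251, 9), (1380, 269, 9), (1377, 287, 9),
    (1373, 305, 9), (1368, 323, 9), (1363, 342, 10), (1356, 365, 13), (1345, 397, 19)]),
    (458, 1349, [(1378, 211, 11), (1375, 232, 10), (1371, 251, 9), (1368, 269, 9), (1365, 286, 8),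
    (1361, 303, 9), (1356, 321, 9), (1351, 340, 10), (1345, 362, 12), (1334, 392, 18)]),
    (576, 1333, [(1364, 211, 11), (1361, 232, 10), (1357, 251, 9), (1354, 269, 9), (1350, 286, 8),
    (1347, 302, 8), (1343, 319, 9), (1338, 338, 10), (1331, 360, 12), (1321, 390, 18)]),
    (744, 1315, [(1348, 211, 11), (1345, 232, 10), (1342, 251, 9), (1338, 269, 9), (1335, 286, 8),
    (1331, 303, 9), (1326, 321, 9), (1321, 340, 10), (1314, 363, 13), (1302, 395, 19)]),
    (996, 1295, [(1331, 211, 11), (1328, 232, 10), (1324, 252, 10), (1320, 271, 9), (1317, 288, 8),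
    (1313, 304, 8), (1309, 321, 9), (1303, 340, 10), (1296, 363, 13), (1284, 395, 19)]),
    (1400, 1271, [(1310, 211, 11), (1307, 232, 10), (1303, 251, 9), (1300, 269, 9), (1296, 286, 8),
    (1292, 302, 8), (1288, 319, 9), (1283, 338, 10), (1276, 360, 12), (1265, 390, 18)]),
    (2064, 1244, [(1287, 211, 11), (1283, 232, 10), (1280, 251, 9), (1276, 269, 9), (1272, 286, 8),
    (1269, 302, 8), (1264, 319, 9), (1259, 338, 10), (1252, 360, 12), (1241, 390, 18)]),
    (3216, 1213, [(1260, 211, 11), (1257, 232, 10), (1253, 252, 10), (1249, 271, 9),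
    (1245, 288, 8), (1241, 305, 9), (1236, 323, 9), (1230, 342, 10), (1223, 365, 13),
    (1209, 398, 20)]), (5280, 1178, [(1230, 212, 12), (1226, 235, 11), (1222, 255, 9),
    (1218, 273, 9), (1214, 291, 9), (1209, 309, 9), (1204, 328, 10), (1197, 350, 12),
    (1186, 378, 16), (1166, 423, 29)]), (9472, 1137, [(1195, 211, 11), (1191, 232, 10),
    (1188, 251, 9), (1184, 269, 9), (1180, 286, 8), (1176, 302, 8), (1171, 319, 9),
    (1165, 338, 10), (1157, 361, 13), (1144, 393, 19)]), (18560, 1089, [(1155, 211, 11),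
    (1151, 232, 10), (1147, 251, 9), (1143, 269, 9), (1139, 286, 8), (1134, 303, 9),
    (1129, 321, 9), (1123, 340, 10), (1114, 363, 13), (1100, 396, 20)]),
    (40960, 1033, [(1108, 211, 11), (1104, 232, 10), (1100, 251, 9), (1095, 269, 9),
    (1091, 286, 8), (1087, 302, 8), (1081, 319, 9), (1075, 338, 10), (1066, 361, 13),
    (1051, 394, 20)]), (103936, 966, [(1052, 212, 12), (1048, 234, 10), (1043, 254, 10),
    (1038, 273, 9), (1034, 290, 8), (1029, 306, 8), (1023, 323, 9), (1016, 343, 11),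
    (1006, 368, 14), (986, 406, 24)]), (315392, 885, [(987, 211, 11), (982, 233, 11),
    (977, 254, 10), (972, 272, 8), (967, 288, 8), (962, 304, 8), (957, 320, 8), (950, 338, 10),
    (940, 361, 13), (923, 394, 20)]), (1204224, 785, [(908, 212, 12), (903, 234, 10),
    (898, 253, 9), (893, 270, 8), (888, 286, 8), (882, 302, 8), (876, 318, 8), (869, 335, 9),
    (860, 356, 12), (843, 386, 18)]), (6029312, 659, [(813, 213, 13), (807, 236, 10),
    (801, 256, 10), (795, 274, 8), (789, 290, 8), (783, 306, 8), (776, 322, 8), (769, 339, 9),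
    (757, 360, 12), (737, 391, 19)]), (37486592, 493, [(699, 214, 14), (691, 240, 12),
    (684, 262, 10), (676, 281, 9), (669, 298, 8), (662, 313, 7), (655, 327, 7), (646, 343, 9),
    (634, 363, 11), (611, 392, 18)]), (171966464, 261, [(574, 218, 18), (562, 250, 14),
    (551, 275, 11), (541, 295, 9), (532, 312, 8), (523, 327, 7), (514, 341, 7), (503, 356, 8),
    (489, 373, 9), (466, 396, 14)]), (2147483648, 0, [(499, 237, 37), (467, 300, 26),
    (440, 344, 18), (415, 376, 14), (387, 404, 14)])]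

lemma chk_data : chk 187 data = true := by decide +kernel

lemma chk_up : up 187 1409 1410 ≤ 199 / 100 := by decide +kernel

variable {r : ℝ}

lemma ev_cs {q : ℚ} (h0 : 0 < (q : ℝ)) (h1 : (q : ℝ) < 1) (X H : ℤ)
    (hW : ‖(X + H * Complex.I : ℂ)‖ ≤ 1536) (n : ℕ) : ∀ (k : ℕ) (t0 t1 g0 g1 f : ℚ),
    (t0 : ℝ) = ta q k → (t1 : ℝ) = ta q (k + 1) → (g0 : ℝ) = ga k → (g1 : ℝ) = ga (k + 1) →
    (f : ℝ) = 128 ^ k * k.factorial → ∀ l, l = cs ((1 - q ^ 2) / (4 * q ^ 2))
      ((1 + q ^ 2) / (2 * q)) n k t0 t1 g0 g1 f →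
    ‖((ev X H l).1 + (ev X H l).2 * Complex.I : ℂ) - sN * ∑ j ∈ range n,
      (ta q (k + j) / (128 ^ (k + j) * (k + j).factorial) : ℝ) * (X + H * Complex.I : ℂ) ^ j‖ ≤
      1537 ^ n := by
  induction n with
  | zero => rintro k t0 t1 g0 g1 f - - - - - l rfl; simp [cs, ev]
  | succ n ih =>
    rintro k t0 t1 g0 g1 f a0 a1 b0 b1 c l rfl
    have h := ih (k + 1) t1 ((1 - q ^ 2) / (4 * q ^ 2) * g0 - 2 * ((1 + q ^ 2) / (2 * q)) * t1 -
      ((1 + q ^ 2) / (2 * q)) ^ 2 * t0) g1 (g0 * (k + 1) / (k + 4)) (f * (128 * (k + 1))) a1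
      (by push_cast; rw [a0, a1, b0, ta_succ h0 h1]) b1 (by push_cast; rw [b0, ga_succ])
      (by push_cast [Nat.factorial_succ]; rw [c]; ring) _ rfl
    have e : ((t0 / f * sN : ℚ) : ℝ) = sN * (ta q k / (128 ^ k * k.factorial)) := by
      push_cast; rw [a0, c]; ring
    have fl : ‖((⌊t0 / f * sN⌋ : ℝ) - sN * (ta q k / (128 ^ k * k.factorial) : ℝ) : ℂ)‖
        ≤ 1 := by
      have e2 : ((⌊t0 / f * sN⌋ : ℝ) - sN * (ta q k / (128 ^ k * k.factorial) : ℝ) : ℂ) =
        ((⌊t0 / f * sN⌋ : ℝ) - ((t0 / f * sN : ℚ) : ℝ) : ℝ) := by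
        rw [e]; push_cast; rfl
      rw [e2, Complex.norm_real, ← Rat.floor_cast (α := ℝ), norm_eq_abs, abs_sub_comm]
      exact (Int.abs_fract (R := ℝ)).trans_le (Int.fract_lt_one _).le
    rw [sum_range_succ', cs, ev]
    generalize cs _ _ n (k + 1) t1 _ g1 _ _ = l at h ⊢
    simp only [add_right_comm k 1, add_assoc k] at h
    simp only [pow_succ (X + H * Complex.I : ℂ), ← mul_assoc, ← sum_mul, add_zero, pow_zero]
    generalize (∑ j ∈ range n, _ : ℂ) = S at h ⊢
    have hm := mul_le_mul h hW (norm_nonneg _) (by positivity)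
    rw [← norm_mul] at hm
    refine le_trans (le_of_eq ?_) ((norm_add_le_of_le fl hm).trans ?_)
    · congr 1
      push_cast
      linear_combination ((ev X H l).2 * H : ℂ) * Complex.I_mul_I.symm
    · have : (1 : ℝ) ≤ 1537 ^ n := one_le_pow₀ (by norm_num)
      rw [pow_succ]; linarith

lemma ev_co {q : ℚ} (h0 : 0 < (q : ℝ)) (h1 : (q : ℝ) < 1) (X H : ℕ)
    (hW : X ^ 2 + H ^ 2 ≤ 2359296) :
    ‖((ev X H (co q)).1 + (ev X H (co q)).2 * Complex.I : ℂ) -
      sN * fr q ((X / 128 : ℝ) + (H / 128 : ℝ) * Complex.I)‖ ≤ sE := by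
  have hn : ‖((X : ℤ) + (H : ℤ) * Complex.I : ℂ)‖ ≤ 1536 := by
    refine (sq_le_sq₀ (norm_nonneg _) (by norm_num)).1 ?_
    rw [Complex.sq_norm, Complex.normSq_apply]
    have : ((X ^ 2 + H ^ 2 : ℕ) : ℝ) ≤ (2359296 : ℕ) := by exact_mod_cast hW
    push_cast at this
    simp; linarith
  have e : ((X / 128 : ℝ) + (H / 128 : ℝ) * Complex.I : ℂ) =
      ((X : ℤ) + (H : ℤ) * Complex.I) / 128 := by push_cast; ring
  have h := ev_cs h0 h1 X H hn 56 0 1 (-q) 1 0 1 (by simp [ta_zero h0 h1]) (by simp [ta_one h0 h1])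
    (by simp [ga_zero]) (by simp [ga_one]) (by simp) (co q) rfl
  have h2 := fr_taylor h0 h1 (w := ((X : ℤ) + (H : ℤ) * Complex.I) / 128)
    (by rw [norm_div]; simp only [Complex.norm_ofNat]; linarith)
  have e2 : ∀ j : ℕ, (ta q j / j.factorial : ℝ) * (((X : ℤ) + (H : ℤ) * Complex.I : ℂ) / 128) ^ j =
      (ta q (0 + j) / (128 ^ (0 + j) * (0 + j).factorial) : ℝ) *
        ((X : ℤ) + (H : ℤ) * Complex.I : ℂ) ^ j := fun j => by
    rw [zero_add, div_pow]; push_cast; ring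
  simp only [e2] at h2
  rw [e]
  have hm := mul_le_mul_of_nonneg_left h2 (norm_nonneg (sN : ℂ))
  rw [← norm_mul, Complex.norm_natCast, mul_sub, norm_sub_rev] at hm
  refine le_trans (le_of_eq ?_) ((norm_add_le_of_le h hm).trans ?_)
  · congr 1; ring
  · have : (10 : ℝ) ^ 14 * 1537 ^ 56 + sN ≤ 10 ^ 14 * sE := by exact_mod_cast sN_le
    linarith

lemma ev_re {q : ℚ} (h0 : 0 < (q : ℝ)) (h1 : (q : ℝ) < 1) {X : ℕ} (hW : X ^ 2 ≤ 2359296) :
    sN * EE q (fun t => exp (X / 128 * t)) ≤ (ev X 0 (co q)).1 + sE := by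
  have h := (Complex.abs_re_le_norm _).trans (ev_co h0 h1 X 0 (by simpa using hW))
  rw [Nat.cast_zero, Nat.cast_zero, zero_div, Complex.ofReal_zero, zero_mul, add_zero, fr_ofReal,
    ← Complex.ofReal_natCast, ← Complex.ofReal_mul] at h
  simp only [Complex.sub_re, Complex.add_re, Complex.ofReal_re, Complex.mul_I_re,
    Complex.intCast_re, Complex.intCast_im] at h
  linarith [(abs_le.1 h).1]

lemma ev_im {q : ℚ} (h0 : 0 < (q : ℝ)) (h1 : (q : ℝ) < 1) {X H : ℕ}
    (hW : X ^ 2 + H ^ 2 ≤ 2359296) : (ev X H (co q)).2 - sE ≤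
      sN * EE q fun t => exp (X / 128 * t) * sin (H / 128 * t) := by
  have h := (Complex.abs_im_le_norm _).trans (ev_co h0 h1 X H hW)
  rw [← Complex.ofReal_natCast, Complex.sub_im, Complex.im_ofReal_mul, im_fr h0.le h1] at h
  simp only [Complex.add_re, Complex.add_im, Complex.ofReal_re, Complex.ofReal_im, Complex.mul_I_re,
    Complex.mul_I_im, Complex.intCast_re, Complex.intCast_im, neg_zero, add_zero, zero_add] at h
  linarith [(abs_le.1 h).2]

lemma cov_sound {q : ℚ} (h0 : 0 < r) (hq : r ≤ q) (h1 : (q : ℝ) < 1) {B : ℕ}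
    (hB : B ≤ 1000 * 2359296) {w : ℂ} (hw : fr r w = 0) (hp : 0 < w.im) (hπ : w.im ≤ π)
    (s : List (ℕ × ℕ × ℕ)) : ∀ L : ℕ, cov (co q) B L s = true → L ≤ 128 * w.im →
      1000 * (128 ^ 2 * ‖w‖ ^ 2) ≤ B := by
  induction s with
  | nil =>
    intro L h hL
    have : (403 : ℝ) ≤ L := by simpa [cov] using h
    linarith [pi_lt_d4]
  | cons a s ih =>
    obtain ⟨X, H, D⟩ := a
    intro L h hL
    rw [cov, Bool.and_eq_true, decide_eq_true_eq] at h
    obtain ⟨⟨c1, c2, c3⟩, c4⟩ := h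
    rcases le_total ((H + D : ℕ) : ℝ) (128 * w.im) with a | a
    · exact ih _ c4 a
    have q0 := h0.trans_le hq
    have r1 := hq.trans_lt h1
    have i1 := ev_re q0 h1 (X := X) (by nlinarith)
    have i2 := ev_im q0 h1 (X := X) (H := H) (by nlinarith)
    have c1' : (H : ℝ) ≤ L + D := by exact_mod_cast c1
    have c2' : 1000 * ((X : ℝ) ^ 2 + (H + D) ^ 2) ≤ B := by exact_mod_cast c2
    have c3' : (D : ℝ) * ((ev X 0 (co q)).1 + sE) < 128 * ((ev X H (co q)).2 - sE) := by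
      exact_mod_cast c3
    push_cast at a
    have i3 := im_lip q0.le h1 (X := X / 128) (H := H / 128) (H' := w.im) (D := D / 128)
      (abs_le.2 ⟨by linarith, by linarith⟩)
    have i4 : 0 < EE q fun t => exp (X / 128 * t) * sin (w.im * t) := by
      have := mul_le_mul_of_nonneg_left i1 (Nat.cast_nonneg (α := ℝ) D)
      refine (mul_pos_iff_of_pos_left sN_pos).1 ?_
      linarith [mul_le_mul_of_nonneg_left i3 sN_pos.le]
    have z := im_fr h0.le r1 w
    rw [hw, Complex.zero_im] at z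
    have b1 : w.re < X / 128 := not_le.1 fun b => (im_pos h0.le hq h1 b hp hπ i4).ne z
    have b2 : 0 < w.re := not_le.1 fun b => (im_neg h0 r1 b hp hπ).ne' z
    rw [Complex.sq_norm, Complex.normSq_apply]
    nlinarith

lemma up_sound {u a b : ℕ} (h0 : 0 < (ru u : ℝ)) (h1 : (ru u : ℝ) < 1) (ha : a ^ 2 ≤ 2359296) :
    exp (b / 128) * EE (ru u) (fun t => exp (a / 128 * t)) ≤ up u a b := by
  have e : exp (1 / 128) ≤ 10078430973 / 10 ^ 10 :=
    (Real.exp_bound' (by norm_num) (by norm_num) (n := 4) (by norm_num)).trans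
      (by norm_num [sum_range_succ, Nat.factorial])
  have e2 : exp (b / 128) ≤ (10078430973 / 10 ^ 10) ^ b := by
    rw [div_eq_mul_one_div, exp_nat_mul]; gcongr
  have p : 0 ≤ EE (ru u) (fun t => exp (a / 128 * t)) := by
    rw [← EE_const h0 h1 0]
    exact EE_mono h0.le h1 continuous_const (by fun_prop) fun _ _ _ => (exp_pos _).le
  rw [up]
  push_cast
  rw [mul_div_assoc]
  refine mul_le_mul e2 ?_ p (by positivity)
  rw [le_div_iff₀' sN_pos]
  exact ev_re h0 h1 ha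

/-- The zero pattern needed for the local Sturm property. -/
def Good (r : ℝ) : Prop := ∃ R : ℝ, 0 < R ∧ R ≤ 12 ∧ 19.6 ≤ 0.893 * R ^ 2 ∧
  (∀ w, fr r w = 0 → π / 2 < w.im → w.im ≤ π → ‖w‖ ^ 2 ≤ 0.893 * R ^ 2) ∧
  ∀ w, fr r w = 0 → ‖w‖ < R → |w.im| ≤ 3 * π / 2

lemma ru_lt {u : ℕ} (h : 0 < u) : (ru u : ℝ) < 1 := by
  rw [ru]; push_cast; rw [sub_lt_self_iff]; positivity

lemma chk_sound (h0 : 0 < r) (c : List (ℕ × ℕ × List (ℕ × ℕ × ℕ))) :
    ∀ u0 : ℕ, chk u0 c = true → 0 < u0 → r ≤ ru u0 → Good r := by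
  induction c with
  | nil =>
    intro u h _ hr
    have : (2 : ℝ) ^ 31 ≤ u := by
      rw [chk, decide_eq_true_eq] at h; exact_mod_cast h
    rw [ru] at hr
    push_cast at hr
    linarith [(one_le_div (by positivity)).2 this]
  | cons x c ih =>
    obtain ⟨u1, a, s⟩ := x
    intro u h hu hr
    rw [chk, Bool.and_eq_true, Bool.and_eq_true, decide_eq_true_eq] at h
    obtain ⟨⟨c1, c2, c3, c4⟩, c5⟩ := h
    rcases le_total r (ru u1) with b | b
    · exact ih _ c5 c2 b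
    have r1 := hr.trans_lt (ru_lt hu)
    have c3' : 363724 + (a : ℝ) ^ 2 ≤ 2359296 := by exact_mod_cast c3
    have hR : √((363724 + (a : ℝ) ^ 2) / 16384) ^ 2 = (363724 + a ^ 2) / 16384 :=
      sq_sqrt (by positivity)
    refine ⟨√((363724 + a ^ 2) / 16384), by positivity, sqrt_le_iff.2 ⟨by norm_num, by linarith⟩,
      by rw [hR]; nlinarith, fun w hw i1 i2 => ?_, fun w hw hn => ?_⟩
    · have := cov_sound h0 hr (ru_lt hu) (by omega) hw (by linarith [pi_pos]) i2 s 200 c1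
        (by push_cast; linarith [pi_gt_d2])
      push_cast at this
      rw [hR]; linarith
    by_contra! hi
    have n1 : w.re ^ 2 + w.im ^ 2 < (363724 + a ^ 2) / 16384 := by
      have := pow_lt_pow_left₀ hn (norm_nonneg _) two_ne_zero
      rwa [hR, Complex.sq_norm, Complex.normSq_apply, ← sq, ← sq] at this
    have n2 : 4.7123 ^ 2 ≤ w.im ^ 2 := by
      rw [← sq_abs w.im]
      exact pow_le_pow_left₀ (by norm_num) (by linarith [pi_gt_d6]) 2
    rcases c4 with rfl | ⟨c4, c6⟩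
    · simp only [Nat.cast_zero] at n1
      nlinarith
    have q0 : 0 < (ru u1 : ℝ) := by
      have : (u1 : ℝ) < 2 ^ 31 := by exact_mod_cast c4
      rw [ru]; push_cast
      linarith [(div_lt_one (by positivity)).2 this]
    have e1 := E3 h0 r1 hw (a := a / 128) (abs_le_of_sq_le_sq (by linarith) (by positivity))
    have e2 := exp_anti q0 b r1 (a := a / 128) (by positivity)
    have e3 := up_sound (a := a) (b := a) q0 (ru_lt c2) (by omega)
    have c6' : (up u1 a a : ℝ) <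
        2 - (363724 + a ^ 2) / 16384 * ((1 - ru u1) * (5 - 3 * ru u1) / 8) := by
      simpa using (Rat.cast_lt (K := ℝ)).2 c6
    have e4 : w.im ^ 2 * ((1 - r) * (5 - 3 * r) / 8) ≤
        (363724 + a ^ 2) / 16384 * ((1 - ru u1) * (5 - 3 * ru u1) / 8) :=
      mul_le_mul (by nlinarith) (by nlinarith) (by nlinarith) (by positivity)
    linarith [mul_le_mul_of_nonneg_left e2 (exp_pos (a / 128)).le]

lemma geom {n : ℕ} (hn : 200 ≤ n) : (n + 1 : ℝ) * 0.945 ^ n ≤ 0.00246 := by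
  induction n, hn using Nat.le_induction with
  | base => norm_num
  | succ n hn ih =>
    have : (200 : ℝ) ≤ n := by exact_mod_cast hn
    have p : (0 : ℝ) < 0.945 ^ n := by positivity
    push_cast
    rw [pow_succ]
    nlinarith

lemma loc_of_good (hc : H70.CoreStmt) (h0 : 0 < r) (h1 : r < 1) (hg : Good r) {n : ℕ}
    (hn : 200 ≤ n) : H70.Loc (1 / r ^ 2 - 1) n := by
  obtain ⟨R, R0, R1, R2, g1, g2⟩ := hg
  have hy := yy_pos h0 h1
  obtain ⟨z₁, a1, a2, g, hg, hf, hne⟩ := strip hy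
  have hS := @S2 _ hy z₁
  simp only [sqrt_yy h0, mul_one_div] at a1 a2 hne hS
  have hz : ∀ z, M (1 / r ^ 2 - 1) z = 0 → fr r ((2 / r : ℝ) * z) = 0 := fun z h => by
    rw [M_yy h0 h1] at h
    exact (mul_eq_zero.1 h).resolve_left (Complex.exp_ne_zero _)
  have hs : 0 < 2 / r := by positivity
  have hN : ∀ z : ℂ, ‖((2 / r : ℝ) : ℂ) * z‖ = 2 / r * ‖z‖ := fun z => by
    rw [norm_mul, Complex.norm_real, norm_of_nonneg hs.le]
  have i0 : 0 < z₁.im := (mul_pos_iff_of_pos_left hs).1 (by linarith [pi_pos])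
  have z0 : z₁ ≠ 0 := fun h => by simp [h] at i0
  have z0' : starRingEnd ℂ z₁ ≠ 0 := by simpa using z0
  have zc : z₁ ≠ starRingEnd ℂ z₁ := fun h => by
    have := congrArg Complex.im h
    rw [Complex.conj_im] at this; linarith
  have m1 : M (1 / r ^ 2 - 1) z₁ = 0 := by rw [hf, div_self z0]; simp
  have n1 : ‖((2 / r : ℝ) : ℂ) * z₁‖ ^ 2 ≤ 0.893 * R ^ 2 := by
    rcases le_total (2 / r * z₁.im) π with b | b
    · exact g1 _ (hz _ m1) (by rwa [Complex.im_ofReal_mul]) (by rwa [Complex.im_ofReal_mul])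
    · exact (hS m1 b (by linarith [pi_gt_three])).trans R2
  have n2 : ‖z₁‖ / (R * r / 2) ≤ 0.945 := by
    have : ‖((2 / r : ℝ) : ℂ) * z₁‖ ≤ 0.945 * R :=
      (sq_le_sq₀ (norm_nonneg _) (by positivity)).1 (by nlinarith)
    rw [hN] at this
    rw [div_le_iff₀ (by positivity)]
    field_simp at this
    linarith
  refine hc _ n ((1 + r ^ 2) / r ^ 2 : ℝ) (R * r / 2) (2 * R) z₁ ∅ hy (by omega) (by positivity)
    (by positivity) i0 m1 ((div_le_one (by positivity)).1 (by linarith)) (fun z h => ?_) (by simp)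
    (fun z h hM => ?_) ?_
  · rw [M_yy h0 h1, mul_right_comm, ← Complex.exp_add, mul_comm z, add_neg_cancel, Complex.exp_zero,
      one_mul]
    refine (norm_fr_le h0 h1 _).trans (le_of_eq ?_)
    rw [hN, h]; congr 1; field_simp
  · have gz := hne z (by
      rw [← Complex.im_ofReal_mul]
      refine g2 _ (hz z hM) ?_
      rw [hN, ← lt_div_iff₀' hs]
      refine h.trans_eq ?_
      field_simp)
    have hd := (((((hasDerivAt_id z).div_const z₁).const_sub 1).mul
      (((hasDerivAt_id z).div_const (starRingEnd ℂ z₁)).const_sub 1)).mul (hg z).hasDerivAt).deriv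
    rw [hf, mul_eq_zero_iff_right gz, mul_eq_zero, sub_eq_zero, sub_eq_zero, @eq_comm _ 1,
      @eq_comm _ 1, div_eq_one_iff_eq z0, div_eq_one_iff_eq z0'] at hM
    refine ⟨by tauto, ?_⟩
    rw [funext hf]
    refine hd.trans_ne ?_
    rcases hM with e | e
    · simp [e, z0, sub_eq_zero, e ▸ gz, eq_div_iff z0', zc.symm]
    · simp [e, z0', sub_eq_zero, e ▸ gz, eq_div_iff z0, zc]
  · have hε : (n + 1 : ℝ) * (‖z₁‖ / (R * r / 2)) ^ n ≤ 0.00246 :=
      le_trans (by gcongr) (geom hn)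
    have p : 0 ≤ (n + 1 : ℝ) * (‖z₁‖ / (R * r / 2)) ^ n := by positivity
    have i1 : 1.57 * r < 2 * z₁.im := by
      rw [div_mul_eq_mul_div, lt_div_iff₀ h0] at a1
      nlinarith [pi_gt_d2]
    simp only [sum_empty, zero_div, sub_zero, zero_add, mul_right_comm _ (2 * R)]
    rw [mul_assoc _ (n + 1 : ℝ)]
    generalize (n + 1 : ℝ) * (‖z₁‖ / (R * r / 2)) ^ n = ε at *
    have k1 : ε * R ≤ 0.00246 * 12 := mul_le_mul hε R1 R0.le (by norm_num)
    have k2 : ε * R * R ≤ 0.00246 * 12 * 12 := mul_le_mul k1 R1 R0.le (by norm_num)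
    nlinarith

/-- Module F. -/
theorem mid (hc : H70.CoreStmt) : H70.MidStmt := by
  have q0 : (ru 187 : ℝ) = 1 - 187 / 2 ^ 31 := by rw [ru]; push_cast; rfl
  have q1 : 0 < (ru 187 : ℝ) := by rw [q0]; norm_num
  have q2 := ru_lt (u := 187) (by norm_num)
  have par : ∀ y : ℝ, 0 < y → ∃ r, 0 < r ∧ r < 1 ∧ y = 1 / r ^ 2 - 1 := fun y hy =>
    ⟨1 / √(1 + y), by positivity, (div_lt_one (by positivity)).2 (one_lt_sqrt hy), by
      rw [one_div_pow, one_div_one_div, sq_sqrt (by positivity)]; ring⟩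
  refine ⟨1 / ru 187 ^ 2 - 1, yy_pos q1 q2, by rw [q0]; norm_num, fun y hy n hn => ?_,
    fun y hy hy' => ?_⟩
  · obtain ⟨r, h0, h1, rfl⟩ := par y ((yy_pos q1 q2).trans_le hy)
    refine loc_of_good hc h0 h1 (chk_sound h0 data 187 chk_data (by norm_num) ?_) hn
    rw [sub_le_sub_iff_right, one_div_le_one_div (by positivity) (by positivity)] at hy
    exact (sq_le_sq₀ h0.le q1.le).1 hy
  · obtain ⟨r, h0, h1, rfl⟩ := par y hy
    rw [sub_le_sub_iff_right, one_div_le_one_div (by positivity) (by positivity),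
      sq_le_sq₀ q1.le h0.le] at hy'
    have e1 := exp_anti q1 hy' h1 (a := (1409 : ℕ) / 128) (by positivity)
    have e2 := up_sound (a := 1409) (b := 1410) q1 q2 (by norm_num)
    have e3 : (up 187 1409 1410 : ℝ) ≤ (199 / 100 : ℚ) := by exact_mod_cast chk_up
    have e4 : H70.IA (1 / r ^ 2 - 1) (fun t => exp (5.5 * t)) =
        EE r fun t => exp (5.5 * ((1 + r ^ 2 + 2 * r * t) / r ^ 2)) := by
      simp only [H70.IA, EE, wt_yy h0 h1, xx_yy h0]
    have e5 := EE_mono h0.le h1 (g := fun t => exp (5.5 * ((1 + r ^ 2 + 2 * r * t) / r ^ 2)))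
      (h := fun t => exp ((1410 : ℕ) / 128) * exp ((1409 : ℕ) / 128 * t)) (by fun_prop)
      (by fun_prop) fun t a b => by
        rw [← exp_add, exp_le_exp, ← mul_div_assoc, div_le_iff₀ (by positivity)]
        rw [q0] at hy'
        have : 11 ≤ 1409 / 128 * r := by linarith
        push_cast
        nlinarith [mul_nonneg (mul_nonneg (sub_nonneg.2 this) h0.le) (by linarith : 0 ≤ 1 + t)]
    rw [EE_mul] at e5
    push_cast at e3
    linarith [mul_le_mul_of_nonneg_left e1 (exp_pos ((1410 : ℕ) / 128)).le]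

end Pool.Agent.MP_dbd6a6_co.H92
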