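import Pool.Agent.MP_dbd6a6_co.H92.Upper

/-!
The centred law with parameter `r`: moments, Taylor bound, monotone likelihood ratio.
-/

open Finset Real MeasureTheory intervalIntegral

noncomputable section

namespace Pool.Agent.MP_dbd6a6_co.H92

/-- The density of the centred law. -/
def pw (r θ : ℝ) : ℝ := 2 / π * (1 - r ^ 2) * ph (1 + r ^ 2) (2 * r) θ

/-- Expectation under the centred law. -/
def EE (r : ℝ) (g : ℝ → ℝ) : ℝ := ∫ θ in (0 : ℝ)..π, pw r θ * g (cos θ)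

/-- Laplace transform of the centred law. -/
def fr (r : ℝ) : ℂ → ℂ := Lap (pw r) cos

variable {r : ℝ}

lemma two_lt (h1 : r < 1) : 2 * r < 1 + r ^ 2 := by nlinarith

lemma continuous_pw (h0 : 0 ≤ r) (h1 : r < 1) : Continuous (pw r) :=
  (continuous_ph (by linarith) (two_lt h1)).const_mul _

lemma pw_nonneg (h0 : 0 ≤ r) (h1 : r < 1) (θ : ℝ) : 0 ≤ pw r θ :=
  mul_nonneg (mul_nonneg (by positivity) (by nlinarith)) (ph_nonneg _ _ _)

lemma yy_pos (h0 : 0 < r) (h1 : r < 1) : 0 < 1 / r ^ 2 - 1 := by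
  rw [sub_pos, one_lt_div (by positivity)]; nlinarith

lemma sqrt_yy (h0 : 0 < r) : √(1 + (1 / r ^ 2 - 1)) = 1 / r := by
  rw [add_sub_cancel, ← one_div_pow, sqrt_sq (by positivity)]

lemma xx_yy (h0 : 0 < r) (θ : ℝ) :
    xx (1 / r ^ 2 - 1) θ = (1 + r ^ 2 + 2 * r * cos θ) / r ^ 2 := by
  rw [xx, sqrt_yy h0]; field_simp; ring

lemma wt_yy (h0 : 0 < r) (h1 : r < 1) (θ : ℝ) : wt (1 / r ^ 2 - 1) θ = pw r θ := by
  have := den_pos (c := 1 + r ^ 2) (d := 2 * r) (by linarith) (two_lt h1) (neg_one_le_cos θ)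
  rw [wt, xx_yy h0, pw, ph]; field_simp; ring

lemma M_yy (h0 : 0 < r) (h1 : r < 1) (z : ℂ) : M (1 / r ^ 2 - 1) z =
    Complex.exp (z * ((1 + r ^ 2) / r ^ 2 : ℝ)) * fr r ((2 / r : ℝ) * z) := by
  rw [M, fr, Lap, ← intervalIntegral.integral_const_mul]
  refine integral_congr fun θ _ => ?_
  have : (r : ℂ) ≠ 0 := by exact_mod_cast h0.ne'
  simp only [wt_yy h0 h1, xx_yy h0]
  rw [mul_left_comm, ← Complex.exp_add]
  push_cast
  congr 2
  field_simp

lemma EE_int (h0 : 0 ≤ r) (h1 : r < 1) {g : ℝ → ℝ} (hg : Continuous g) :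
    IntervalIntegrable (fun θ => pw r θ * g (cos θ)) volume 0 π :=
  ((continuous_pw h0 h1).mul (hg.comp continuous_cos)).intervalIntegrable _ _

lemma EE_mono (h0 : 0 ≤ r) (h1 : r < 1) {g h : ℝ → ℝ} (hg : Continuous g) (hh : Continuous h)
    (hle : ∀ t, -1 ≤ t → t ≤ 1 → g t ≤ h t) : EE r g ≤ EE r h :=
  integral_mono_on pi_pos.le (EE_int h0 h1 hg) (EE_int h0 h1 hh) fun θ _ =>
    mul_le_mul_of_nonneg_left (hle _ (neg_one_le_cos θ) (cos_le_one θ)) (pw_nonneg h0 h1 θ)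

lemma EE_add (h0 : 0 ≤ r) (h1 : r < 1) {g h : ℝ → ℝ} (hg : Continuous g) (hh : Continuous h) :
    EE r (fun t => g t + h t) = EE r g + EE r h := by
  simp only [EE, mul_add]
  exact integral_add (EE_int h0 h1 hg) (EE_int h0 h1 hh)

lemma EE_mul (r c : ℝ) (g : ℝ → ℝ) : EE r (fun t => c * g t) = c * EE r g := by
  simp only [EE, ← intervalIntegral.integral_const_mul, mul_left_comm]

lemma EE_one (h0 : 0 < r) (h1 : r < 1) : EE r (fun _ => 1) = 1 := by
  have := mom_zero (yy_pos h0 h1)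
  simpa only [wt_yy h0 h1, EE, mul_one] using this

lemma EE_const (h0 : 0 < r) (h1 : r < 1) (c : ℝ) : EE r (fun _ => c) = c := by
  simpa [EE_one h0 h1] using EE_mul r c fun _ => 1

/-- The moments of the centred law. -/
def ta (r : ℝ) (k : ℕ) : ℝ := EE r fun t => t ^ k

/-- The moments of the semicircle law. -/
def ga (k : ℕ) : ℝ := 2 / π * ∫ θ in (0 : ℝ)..π, sin θ ^ 2 * cos θ ^ k

lemma ta_zero (h0 : 0 < r) (h1 : r < 1) : ta r 0 = 1 := by
  simpa [ta] using EE_one h0 h1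

lemma ta_one (h0 : 0 < r) (h1 : r < 1) : ta r 1 = -r := by
  have h := mom_one (yy_pos h0 h1)
  have e : EE r (fun t => (1 + r ^ 2) / r ^ 2 + 2 / r * t ^ 1) = 1 / r ^ 2 - 1 := by
    rw [← h, EE]
    refine integral_congr fun θ _ => ?_
    simp only [wt_yy h0 h1, xx_yy h0]
    field_simp
  rw [EE_add h0.le h1 (by fun_prop) (by fun_prop), EE_const h0 h1, EE_mul] at e
  rw [← ta] at e
  field_simp at e
  refine mul_left_cancel₀ (a := 2 * r) (by positivity) ?_
  linarith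

lemma ga_eq (k : ℕ) : ga k = 2 / π * ((∫ θ in (0 : ℝ)..π, cos θ ^ k) / (k + 2)) := by
  have e : ∀ θ, sin θ ^ 2 * cos θ ^ k = cos θ ^ k - cos θ ^ (k + 2) := fun θ => by
    rw [sin_sq]; ring
  simp only [ga, e]
  rw [integral_sub (Continuous.intervalIntegrable (by fun_prop) _ _)
    (Continuous.intervalIntegrable (by fun_prop) _ _), int_cos_pow]
  field_simp
  ring

lemma ga_zero : ga 0 = 1 := by
  rw [ga_eq]; simp [pi_ne_zero]

lemma ga_one : ga 1 = 0 := by
  rw [ga_eq]; simp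

lemma ga_succ (k : ℕ) : ga (k + 2) = ga k * (k + 1) / (k + 4) := by
  rw [ga_eq, ga_eq, int_cos_pow]
  push_cast
  field_simp
  ring

lemma ta_succ (h0 : 0 < r) (h1 : r < 1) (k : ℕ) : ta r (k + 2) = (1 - r ^ 2) / (4 * r ^ 2) * ga k -
    2 * ((1 + r ^ 2) / (2 * r)) * ta r (k + 1) - ((1 + r ^ 2) / (2 * r)) ^ 2 * ta r k := by
  have e : EE r (fun t => t ^ (k + 2) + (2 * ((1 + r ^ 2) / (2 * r)) * t ^ (k + 1) +
      ((1 + r ^ 2) / (2 * r)) ^ 2 * t ^ k)) = (1 - r ^ 2) / (4 * r ^ 2) * ga k := by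
    rw [EE, ga, ← intervalIntegral.integral_const_mul, ← intervalIntegral.integral_const_mul]
    refine integral_congr fun θ _ => ?_
    have := den_pos (c := 1 + r ^ 2) (d := 2 * r) (by linarith) (two_lt h1) (neg_one_le_cos θ)
    simp only [pw, ph]
    field_simp
    ring
  rw [EE_add h0.le h1 (by fun_prop) (by fun_prop), EE_add h0.le h1 (by fun_prop) (by fun_prop),
    EE_mul, EE_mul] at e
  simp only [ta]
  linarith

lemma fr_taylor (h0 : 0 < r) (h1 : r < 1) {w : ℂ} (hw : ‖w‖ ≤ 12) :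
    ‖fr r w - ∑ k ∈ range 56, (ta r k / k.factorial : ℝ) * w ^ k‖ ≤ 1 / 10 ^ 14 := by
  have hc := continuous_pw h0.le h1
  have e : ∑ k ∈ range 56, (ta r k / k.factorial : ℝ) * w ^ k =
      ∫ θ in (0 : ℝ)..π, (pw r θ : ℂ) * ∑ k ∈ range 56, (w * cos θ) ^ k / k.factorial := by
    simp only [mul_sum]
    rw [intervalIntegral.integral_finsetSum
      fun k _ => Continuous.intervalIntegrable (by fun_prop) _ _]
    refine sum_congr rfl fun k _ => ?_
    rw [ta, EE, Complex.ofReal_div, ← intervalIntegral.integral_ofReal,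
      ← intervalIntegral.integral_div, ← intervalIntegral.integral_mul_const]
    refine integral_congr fun θ _ => ?_
    push_cast
    ring
  rw [e, fr, Lap, ← integral_sub (Continuous.intervalIntegrable (by fun_prop) _ _)
    (Continuous.intervalIntegrable (by fun_prop) _ _), ← EE_const h0 h1 (1 / 10 ^ 14)]
  refine intervalIntegral.norm_integral_le_of_norm_le pi_pos.le (.of_forall fun θ _ => ?_)
    (EE_int h0.le h1 continuous_const)
  rw [← mul_sub, norm_mul, Complex.norm_real, Real.norm_of_nonneg (pw_nonneg h0.le h1 θ)]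
  refine mul_le_mul_of_nonneg_left ?_ (pw_nonneg h0.le h1 θ)
  have hn : ‖w * (cos θ : ℝ)‖ ≤ 12 := by
    rw [norm_mul, Complex.norm_real, Real.norm_eq_abs]
    nlinarith [abs_cos_le_one θ, norm_nonneg w, abs_nonneg (cos θ)]
  refine (Complex.exp_bound' (n := 56) (by push_cast at hn ⊢; linarith)).trans ?_
  calc _ ≤ (12 : ℝ) ^ 56 / (56 : ℕ).factorial * 2 := by gcongr
    _ ≤ _ := by norm_num [Nat.factorial]

lemma fr_ofReal (r x : ℝ) : fr r x = (EE r fun t => exp (x * t) : ℝ) := Lap_ofReal _ _ x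

lemma re_fr (h0 : 0 ≤ r) (h1 : r < 1) (u w : ℂ) :
    (u * fr r w).re = EE r fun t => (u * Complex.exp (w * t)).re :=
  re_Lap (continuous_pw h0 h1) continuous_cos u w

lemma im_fr (h0 : 0 ≤ r) (h1 : r < 1) (w : ℂ) :
    (fr r w).im = EE r fun t => exp (w.re * t) * sin (w.im * t) := by
  have := re_fr h0 h1 (-Complex.I) w
  simpa [Complex.exp_im] using this

lemma norm_fr_le (h0 : 0 < r) (h1 : r < 1) (w : ℂ) : ‖fr r w‖ ≤ exp ‖w‖ := by
  refine (norm_Lap_le (pw_nonneg h0.le h1) w).trans ?_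
  rw [← EE_const h0 h1 (exp ‖w‖)]
  refine EE_mono h0.le h1 (g := fun t => exp (w.re * t)) (by fun_prop) continuous_const
    fun t a b => exp_le_exp.2 ?_
  have := abs_le.1 (Complex.abs_re_le_norm w)
  rcases le_total 0 w.re with h | h <;> nlinarith

/-- The tilted density. -/
def qq (r x t : ℝ) : ℝ := exp (x * t) / (1 + r ^ 2 + 2 * r * t) ^ 2

lemma qq_pos (h0 : 0 ≤ r) (h1 : r < 1) (x : ℝ) {t : ℝ} (ht : -1 ≤ t) : 0 < qq r x t := by
  have := den_pos (c := 1 + r ^ 2) (d := 2 * r) (by linarith) (two_lt h1) ht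
  unfold qq; positivity

lemma qq_mlr {r₀ x X s t : ℝ} (h0 : 0 ≤ r) (h : r ≤ r₀) (h1 : r₀ < 1) (hx : X ≤ x) (hs : -1 ≤ s)
    (hst : s ≤ t) : qq r x s * qq r₀ X t ≤ qq r x t * qq r₀ X s := by
  have d1 := den_pos (c := 1 + r ^ 2) (d := 2 * r) (by linarith) (two_lt (h.trans_lt h1)) hs
  have d2 := den_pos (c := 1 + r ^ 2) (d := 2 * r) (by linarith) (two_lt (h.trans_lt h1))
    (hs.trans hst)
  have d3 := den_pos (c := 1 + r₀ ^ 2) (d := 2 * r₀) (by linarith) (two_lt h1) hs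
  have d4 := den_pos (c := 1 + r₀ ^ 2) (d := 2 * r₀) (by linarith) (two_lt h1) (hs.trans hst)
  simp only [qq, div_mul_div_comm, ← exp_add, ← mul_pow]
  refine div_le_div₀ (exp_pos _).le (exp_le_exp.2 ?_) (by positivity)
    (pow_le_pow_left₀ (by positivity) ?_ 2)
  · nlinarith [mul_nonneg (sub_nonneg.2 hx) (sub_nonneg.2 hst)]
  · have : 0 ≤ 1 - r * r₀ := by nlinarith
    nlinarith [mul_nonneg (mul_nonneg (sub_nonneg.2 h) (sub_nonneg.2 hst)) this]

lemma pw_qq (r x θ : ℝ) :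
    pw r θ * exp (x * cos θ) = 2 / π * (1 - r ^ 2) * sin θ ^ 2 * qq r x (cos θ) := by
  simp only [pw, ph, qq]; ring

lemma mlr_pt {r₀ x X s : ℝ} (h0 : 0 ≤ r) (h : r ≤ r₀) (h1 : r₀ < 1) (hx : X ≤ x) (hs : -1 ≤ s)
    {u : ℝ → ℝ} (hl : ∀ t, -1 ≤ t → t ≤ s → u t ≤ 0) (hr : ∀ t, s ≤ t → t ≤ 1 → 0 ≤ u t) (θ : ℝ) :
    (1 - r ^ 2) * qq r x s * (pw r₀ θ * (exp (X * cos θ) * u (cos θ))) ≤
      (1 - r₀ ^ 2) * qq r₀ X s * (pw r θ * (exp (x * cos θ) * u (cos θ))) := by
  have hp : 0 ≤ 2 / π * (1 - r ^ 2) * (1 - r₀ ^ 2) * sin θ ^ 2 :=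
    mul_nonneg (mul_nonneg (mul_nonneg (by positivity) (by nlinarith)) (by nlinarith)) (sq_nonneg _)
  have key : qq r x s * qq r₀ X (cos θ) * u (cos θ) ≤ qq r x (cos θ) * qq r₀ X s * u (cos θ) := by
    rcases le_total s (cos θ) with a | a
    · exact mul_le_mul_of_nonneg_right (qq_mlr h0 h h1 hx hs a) (hr _ a (cos_le_one θ))
    · exact mul_le_mul_of_nonpos_right (qq_mlr h0 h h1 hx (neg_one_le_cos θ) a)
        (hl _ (neg_one_le_cos θ) a)
  rw [← mul_assoc (pw r₀ θ), ← mul_assoc (pw r θ), pw_qq, pw_qq]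
  nlinarith [mul_le_mul_of_nonneg_left key hp]

/-- Monotone likelihood ratio. -/
lemma mlr {r₀ x X s : ℝ} (h0 : 0 ≤ r) (h : r ≤ r₀) (h1 : r₀ < 1) (hx : X ≤ x) (hs : -1 ≤ s)
    {u : ℝ → ℝ} (hu : Continuous u) (hl : ∀ t, -1 ≤ t → t ≤ s → u t ≤ 0)
    (hr : ∀ t, s ≤ t → t ≤ 1 → 0 ≤ u t) :
    (1 - r ^ 2) * qq r x s * EE r₀ (fun t => exp (X * t) * u t) ≤
      (1 - r₀ ^ 2) * qq r₀ X s * EE r (fun t => exp (x * t) * u t) := by
  simp only [EE, ← intervalIntegral.integral_const_mul]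
  exact integral_mono_on pi_pos.le
    ((EE_int (h0.trans h) h1 (g := fun t => exp (X * t) * u t) (by fun_prop)).const_mul _)
    ((EE_int h0 (h.trans_lt h1) (g := fun t => exp (x * t) * u t) (by fun_prop)).const_mul _)
    fun θ _ => mlr_pt h0 h h1 hx hs hl hr θ

lemma sin_sign {H : ℝ} (h0 : 0 < H) (h1 : H ≤ π) :
    (∀ t, -1 ≤ t → t ≤ 0 → sin (H * t) ≤ 0) ∧ ∀ t, 0 ≤ t → t ≤ 1 → 0 ≤ sin (H * t) :=
  ⟨fun t a b => sin_nonpos_of_nonpos_of_neg_pi_le (by nlinarith) (by nlinarith),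
    fun t a b => sin_nonneg_of_nonneg_of_le_pi (by nlinarith) (by nlinarith)⟩

/-- Positivity of the imaginary part propagates to the right and to smaller parameters. -/
lemma im_pos {r₀ x X H : ℝ} (h0 : 0 ≤ r) (h : r ≤ r₀) (h1 : r₀ < 1) (hx : X ≤ x) (hH : 0 < H)
    (hH' : H ≤ π) (hp : 0 < EE r₀ fun t => exp (X * t) * sin (H * t)) :
    0 < EE r fun t => exp (x * t) * sin (H * t) := by
  have key := mlr h0 h h1 hx (s := 0) (by norm_num) (u := fun t => sin (H * t)) (by fun_prop)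
    (sin_sign hH hH').1 (sin_sign hH hH').2
  have a : 0 < (1 - r ^ 2) * qq r x 0 :=
    mul_pos (by nlinarith) (qq_pos h0 (h.trans_lt h1) x (by norm_num))
  have b : 0 < (1 - r₀ ^ 2) * qq r₀ X 0 :=
    mul_pos (by nlinarith) (qq_pos (h0.trans h) h1 X (by norm_num))
  exact (mul_pos_iff_of_pos_left b).1 ((mul_pos a hp).trans_le key)

/-- No zeros in the left half strip. -/
lemma im_neg {x H : ℝ} (h0 : 0 < r) (h1 : r < 1) (hx : x ≤ 0) (hH : 0 < H) (hH' : H ≤ π) :
    (EE r fun t => exp (x * t) * sin (H * t)) < 0 := by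
  have z : (EE 0 fun t => exp (0 * t) * sin (H * t)) = 0 := by
    have := integral_comp_sub_left (a := 0) (b := π)
      (fun θ => pw 0 θ * (exp (0 * cos θ) * sin (H * cos θ))) π
    simp only [sub_self, sub_zero, pw, ph, sin_pi_sub, cos_pi_sub, zero_mul, mul_neg, sin_neg,
      mul_zero, add_zero, intervalIntegral.integral_neg] at this
    simp only [EE, pw, ph, zero_mul, mul_zero, add_zero]
    linarith
  have key : (1 - 0 ^ 2) * qq 0 0 0 * EE r (fun t => exp (x * t) * sin (H * t)) <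
      (1 - r ^ 2) * qq r x 0 * EE 0 (fun t => exp (0 * t) * sin (H * t)) := by
    simp only [EE, ← intervalIntegral.integral_const_mul]
    have c1 := continuous_pw h0.le h1
    have c2 := continuous_pw le_rfl one_pos
    refine integral_lt_integral_of_continuousOn_of_le_of_exists_lt pi_pos (by fun_prop)
      (by fun_prop) (fun θ _ => mlr_pt le_rfl h0.le h1 hx (s := 0) (by norm_num)
        (u := fun t => sin (H * t)) (sin_sign hH hH').1 (sin_sign hH hH').2 θ)
      ⟨π / 3, ⟨by positivity, by linarith [pi_pos]⟩, ?_⟩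
    rw [← mul_assoc (pw r _), ← mul_assoc (pw 0 _), pw_qq, pw_qq, cos_pi_div_three]
    have s1 : 0 < sin (H * (1 / 2)) := sin_pos_of_pos_of_lt_pi (by linarith) (by linarith)
    have s2 : 0 < sin (π / 3) := by rw [sin_pi_div_three]; positivity
    have s3 : qq r x (1 / 2) < qq r x 0 := by
      unfold qq
      refine div_lt_div₀' (exp_le_exp.2 (by linarith)) ?_ (exp_pos _) (by positivity)
      gcongr
      norm_num
    have s4 : 0 < 2 / π * (1 - r ^ 2) * sin (π / 3) ^ 2 * sin (H * (1 / 2)) :=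
      mul_pos (mul_pos (mul_pos (by positivity) (by nlinarith)) (by positivity)) s1
    have s5 : ∀ t, qq 0 0 t = 1 := fun t => by simp [qq]
    simp only [s5]
    nlinarith [mul_lt_mul_of_pos_left s3 s4]
  rw [z, mul_zero] at key
  simpa [qq] using key

/-- The exponential moment decreases with the parameter. -/
lemma exp_anti {r₁ a : ℝ} (h0 : 0 < r₁) (h : r₁ ≤ r) (h1 : r < 1) (ha : 0 ≤ a) :
    EE r (fun t => exp (a * t)) ≤ EE r₁ fun t => exp (a * t) := by
  have hr := h0.trans_le h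
  have hc : Continuous fun t => exp (a * t) := by fun_prop
  obtain ⟨s, hs, e⟩ : EE r (fun t => exp (a * t)) ∈ (fun t => exp (a * t)) '' Set.Icc (-1) 1 := by
    refine intermediate_value_Icc (by norm_num) hc.continuousOn ⟨?_, ?_⟩
    · rw [← EE_const hr h1 (exp (a * -1))]
      exact EE_mono hr.le h1 continuous_const hc fun t b _ => by gcongr
    · rw [← EE_const hr h1 (exp (a * 1))]
      exact EE_mono hr.le h1 hc continuous_const fun t _ b => by gcongr
  have key := mlr h0.le h h1 (le_refl 0) hs.1 (u := fun t => exp (a * t) + -exp (a * s))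
    (by fun_prop) (fun t _ b => by rw [← sub_eq_add_neg, sub_nonpos]; gcongr)
    (fun t b _ => by rw [← sub_eq_add_neg, sub_nonneg]; gcongr)
  simp only [zero_mul, exp_zero, one_mul] at key e
  rw [EE_add hr.le h1 hc continuous_const, EE_add h0.le (h.trans_lt h1) hc continuous_const,
    EE_const hr h1, EE_const h0 (h.trans_lt h1), e, add_neg_cancel, mul_zero] at key
  have b : 0 < (1 - r ^ 2) * qq r 0 s := mul_pos (by nlinarith) (qq_pos hr.le h1 0 hs.1)
  linarith [nonneg_of_mul_nonneg_right key b]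

lemma EE_sq (h0 : 0 < r) (h1 : r < 1) :
    EE r (fun t => (1 + t) ^ 2) = (1 - r) * (5 - 3 * r) / 4 := by
  have e : (fun t : ℝ => (1 + t) ^ 2) = fun t => 1 + (2 * t ^ 1 + t ^ (0 + 2)) := by
    funext t; ring
  rw [e, EE_add h0.le h1 (by fun_prop) (by fun_prop), EE_add h0.le h1 (by fun_prop) (by fun_prop),
    EE_mul, EE_one h0 h1, ← ta, ← ta, ta_succ h0 h1, ga_zero, zero_add, ta_one h0 h1,
    ta_zero h0 h1]
  field_simp
  ring

/-- The real part bound at a zero. -/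
lemma E3 (h0 : 0 < r) (h1 : r < 1) {w : ℂ} (hw : fr r w = 0) {a : ℝ} (ha : |w.re| ≤ a) :
    2 - w.im ^ 2 * ((1 - r) * (5 - 3 * r) / 8) ≤ exp a * EE r fun t => exp (a * t) := by
  have z := re_fr h0.le h1 (Complex.exp w) w
  rw [hw, mul_zero, Complex.zero_re] at z
  have key := EE_mono h0.le h1 (g := fun t => 2 + -(w.im ^ 2 / 2) * (1 + t) ^ 2)
    (h := fun t => (Complex.exp w * Complex.exp (w * t)).re + exp a * exp (a * t)) (by fun_prop)
    (by fun_prop) fun t b _ => by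
      have e : w + w * t = w * (1 + t : ℝ) := by push_cast; ring
      rw [← Complex.exp_add, ← exp_add, e, Complex.exp_re, Complex.re_mul_ofReal,
        Complex.im_mul_ofReal]
      have c1 := one_sub_sq_div_two_le_cos (x := w.im * (1 + t))
      have c2 := cos_le_one (w.im * (1 + t))
      have c3 := neg_one_le_cos (w.im * (1 + t))
      have hT : 0 ≤ 1 + t := by linarith
      have ha' := abs_le.1 ha
      have e1 : exp (w.re * (1 + t)) ≤ exp (a + a * t) := exp_le_exp.2 (by nlinarith)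
      have e2 : 2 ≤ exp (w.re * (1 + t)) + exp (a + a * t) := by
        have := add_one_le_exp (w.re * (1 + t))
        have := add_one_le_exp (a + a * t)
        nlinarith
      nlinarith [mul_nonneg (sub_nonneg.2 e1) (sub_nonneg.2 c2),
        mul_nonneg (sub_nonneg.2 e2) (sub_nonneg.2 c3)]
  rw [EE_add h0.le h1 (by fun_prop) (by fun_prop), EE_add h0.le h1 (by fun_prop) (by fun_prop),
    EE_mul, EE_mul, EE_const h0 h1, EE_sq h0 h1, ← z] at key
  linarith

/-- Lipschitz bound in the imaginary direction. -/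
lemma im_lip (h0 : 0 ≤ r) (h1 : r < 1) {X H H' D : ℝ} (h : |H - H'| ≤ D) :
    (EE r fun t => exp (X * t) * sin (H * t)) ≤
      (EE r fun t => exp (X * t) * sin (H' * t)) + D * EE r fun t => exp (X * t) := by
  rw [← EE_mul, ← EE_add h0 h1 (by fun_prop) (by fun_prop)]
  refine EE_mono h0 h1 (by fun_prop) (by fun_prop) fun t a b => ?_
  have h2 := abs_sin_sub_sin_le (H * t) (H' * t)
  rw [← sub_mul, abs_mul] at h2
  have h3 : |t| ≤ 1 := abs_le.2 ⟨a, b⟩
  have h4 : sin (H * t) - sin (H' * t) ≤ D := by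
    nlinarith [le_abs_self (sin (H * t) - sin (H' * t)), abs_nonneg (H - H'), abs_nonneg t]
  nlinarith [exp_pos (X * t)]

end Pool.Agent.MP_dbd6a6_co.H92
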