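import Pool.Agent.MP_dbd6a6_co.H92.Comb

/-!
The moment sequence of the stack-sorting cumulants as an integral; the moment generating function.
-/

open Finset Real MeasureTheory intervalIntegral

noncomputable section

namespace Pool.Agent.MP_dbd6a6_co.H92

/-- Laplace transform of the weight `φ` pushed forward by `a`. -/
def Lap (φ a : ℝ → ℝ) (z : ℂ) : ℂ := ∫ θ in (0 : ℝ)..π, (φ θ : ℂ) * Complex.exp (z * a θ)

lemma hasDerivAt_Lap {φ a : ℝ → ℝ} (hφ : Continuous φ) (ha : Continuous a) (z : ℂ) :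
    HasDerivAt (Lap φ a) (Lap (fun θ => φ θ * a θ) a z) z := by
  have hc : ∀ w : ℂ, Continuous fun θ => (φ θ : ℂ) * Complex.exp (w * a θ) := fun w => by fun_prop
  have hc' : Continuous fun θ => ((φ θ * a θ : ℝ) : ℂ) * Complex.exp (z * a θ) := by fun_prop
  refine (hasDerivAt_integral_of_dominated_loc_of_deriv_le (μ := volume)
    (F := fun w θ => (φ θ : ℂ) * Complex.exp (w * a θ))
    (F' := fun w θ => ((φ θ * a θ : ℝ) : ℂ) * Complex.exp (w * a θ))
    (bound := fun θ => |φ θ * a θ| * Real.exp ((‖z‖ + 1) * |a θ|))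
    (Metric.ball_mem_nhds z one_pos) (.of_forall fun w => (hc w).aestronglyMeasurable)
    ((hc z).intervalIntegrable _ _) hc'.aestronglyMeasurable (.of_forall fun θ _ w hw => ?_)
    (Continuous.intervalIntegrable (by fun_prop) _ _) (.of_forall fun θ _ w _ => ?_)).2
  · rw [norm_mul, Complex.norm_real, Real.norm_eq_abs]
    gcongr
    refine (Complex.norm_exp_le_exp_norm _).trans (Real.exp_le_exp.2 ?_)
    rw [norm_mul, Complex.norm_real, Real.norm_eq_abs]
    gcongr
    have := norm_sub_norm_le w z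
    rw [Metric.mem_ball, dist_eq_norm] at hw
    linarith
  · have := (((hasDerivAt_id w).mul_const (a θ : ℂ)).cexp).const_mul (φ θ : ℂ)
    refine this.congr_deriv ?_
    simp only [id]; push_cast; ring

lemma differentiable_Lap {φ a : ℝ → ℝ} (hφ : Continuous φ) (ha : Continuous a) :
    Differentiable ℂ (Lap φ a) := fun z => (hasDerivAt_Lap hφ ha z).differentiableAt

lemma deriv_Lap {φ a : ℝ → ℝ} (hφ : Continuous φ) (ha : Continuous a) :
    deriv (Lap φ a) = Lap (fun θ => φ θ * a θ) a := funext fun z => (hasDerivAt_Lap hφ ha z).deriv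

lemma iteratedDeriv_Lap {φ a : ℝ → ℝ} (hφ : Continuous φ) (ha : Continuous a) (n : ℕ) :
    iteratedDeriv n (Lap φ a) = Lap (fun θ => φ θ * a θ ^ n) a := by
  induction n with
  | zero => simp
  | succ n ih =>
    rw [iteratedDeriv_succ, ih, deriv_Lap (by fun_prop) ha]
    simp only [pow_succ, mul_assoc]

lemma Lap_ofReal (φ a : ℝ → ℝ) (x : ℝ) :
    Lap φ a x = (∫ θ in (0 : ℝ)..π, φ θ * Real.exp (x * a θ) : ℝ) := by
  rw [Lap, ← intervalIntegral.integral_ofReal]
  push_cast; rfl

lemma Lap_zero (φ a : ℝ → ℝ) : Lap φ a 0 = (∫ θ in (0 : ℝ)..π, φ θ : ℝ) := by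
  simpa using Lap_ofReal φ a 0

lemma Lap_conj (φ a : ℝ → ℝ) (z : ℂ) :
    Lap φ a (starRingEnd ℂ z) = starRingEnd ℂ (Lap φ a z) := by
  simp only [Lap, intervalIntegral.integral_of_le pi_pos.le, ← integral_conj, map_mul,
    Complex.conj_ofReal, ← Complex.exp_conj]

lemma re_Lap {φ a : ℝ → ℝ} (hφ : Continuous φ) (ha : Continuous a) (u z : ℂ) :
    (u * Lap φ a z).re = ∫ θ in (0 : ℝ)..π, φ θ * (u * Complex.exp (z * a θ)).re := by
  have hc : Continuous fun θ => u * ((φ θ : ℂ) * Complex.exp (z * a θ)) := by fun_prop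
  rw [Lap, ← intervalIntegral.integral_const_mul, ← Complex.reCLM_apply,
    ← Complex.reCLM.intervalIntegral_comp_comm (hc.intervalIntegrable _ _)]
  refine intervalIntegral.integral_congr fun θ _ => ?_
  simp only [Complex.reCLM_apply]
  rw [mul_left_comm, Complex.re_ofReal_mul]

lemma norm_Lap_le {φ a : ℝ → ℝ} (hφ0 : ∀ θ, 0 ≤ φ θ) (z : ℂ) :
    ‖Lap φ a z‖ ≤ ∫ θ in (0 : ℝ)..π, φ θ * Real.exp (z.re * a θ) := by
  refine (intervalIntegral.norm_integral_le_integral_norm pi_pos.le).trans (le_of_eq ?_)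
  refine intervalIntegral.integral_congr fun θ _ => ?_
  simp [Complex.norm_exp, abs_of_nonneg (hφ0 θ)]

/-- The random variable. -/
def xx (y θ : ℝ) : ℝ := 2 + y + 2 * √(1 + y) * cos θ

/-- The probability density on `[0, π]`. -/
def wt (y θ : ℝ) : ℝ := 2 / π * (y * (1 + y)) * sin θ ^ 2 / xx y θ ^ 2

/-- The moment generating function. -/
def M (y : ℝ) (z : ℂ) : ℂ := ∫ θ in (0 : ℝ)..π, (wt y θ : ℂ) * Complex.exp (z * xx y θ)

/-- The cumulants. -/
def cc (y : ℝ) (n : ℕ) : ℝ := -Polynomial.aeval (-y) (A n)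

lemma M_eq (y : ℝ) : M y = Lap (wt y) (xx y) := rfl

variable {y : ℝ}

lemma one_lt_sqrt (hy : 0 < y) : 1 < √(1 + y) := by
  rw [Real.lt_sqrt zero_le_one]; linarith

lemma sqrt_sq' (hy : 0 < y) : √(1 + y) ^ 2 = 1 + y := Real.sq_sqrt (by linarith)

lemma le_xx (hy : 0 < y) (θ : ℝ) : (√(1 + y) - 1) ^ 2 ≤ xx y θ := by
  have := neg_one_le_cos θ
  have h1 := one_lt_sqrt hy
  have h2 := sqrt_sq' hy
  rw [xx]; nlinarith

lemma xx_le (hy : 0 < y) (θ : ℝ) : xx y θ ≤ (√(1 + y) + 1) ^ 2 := by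
  have := cos_le_one θ
  have h1 := one_lt_sqrt hy
  have h2 := sqrt_sq' hy
  rw [xx]; nlinarith

lemma xx_pos (hy : 0 < y) (θ : ℝ) : 0 < xx y θ :=
  (pow_pos (sub_pos.2 (one_lt_sqrt hy)) 2).trans_le (le_xx hy θ)

@[fun_prop] lemma continuous_xx (y : ℝ) : Continuous (xx y) := by unfold xx; fun_prop

lemma continuous_wt (hy : 0 < y) : Continuous (wt y) := by
  unfold wt
  exact Continuous.div (by fun_prop) (by fun_prop) fun θ => (pow_pos (xx_pos hy θ) 2).ne'

lemma wt_nonneg (hy : 0 < y) (θ : ℝ) : 0 ≤ wt y θ := by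
  unfold wt; positivity

lemma orth (k : ℕ) : ∫ θ in (0 : ℝ)..π, sin ((k + 1) * θ) * sin θ = if k = 0 then π / 2 else 0 := by
  split_ifs with h
  · subst h
    simp only [Nat.cast_zero, zero_add, one_mul, ← sq, integral_sin_sq]
    simp
  · have hk : (k : ℝ) ≠ 0 := Nat.cast_ne_zero.2 h
    have hk2 : (k : ℝ) + 2 ≠ 0 := by positivity
    have hd : ∀ θ : ℝ, HasDerivAt (fun θ : ℝ => (sin (k * θ) / k - sin ((k + 2) * θ) / (k + 2)) / 2)
        (sin ((k + 1) * θ) * sin θ) θ := by
      intro θ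
      have h1 := (((hasDerivAt_id θ).const_mul (k : ℝ)).sin.div_const (k : ℝ))
      have h2 := (((hasDerivAt_id θ).const_mul ((k : ℝ) + 2)).sin.div_const ((k : ℝ) + 2))
      refine ((h1.sub h2).div_const 2).congr_deriv ?_
      have e1 : (k : ℝ) * θ = (k + 1) * θ - θ := by ring
      have e2 : ((k : ℝ) + 2) * θ = (k + 1) * θ + θ := by ring
      simp only [id]
      rw [mul_one, mul_one, mul_div_cancel_right₀ _ hk, mul_div_cancel_right₀ _ hk2, e1, e2,
        cos_sub, cos_add]
      ring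
    rw [integral_eq_sub_of_hasDerivAt (fun θ _ => hd θ) (Continuous.intervalIntegrable (by fun_prop) _ _)]
    have e : ((k : ℝ) + 2) * π = ((k + 2 : ℕ) : ℝ) * π := by push_cast; ring
    rw [e, sin_nat_mul_pi, sin_nat_mul_pi]
    simp

open PowerSeries in
lemma hh_series (hy : 0 < y) (n : ℕ) : ∀ k : ℕ,
    coeff n ((C √(1 + y) * X) ^ k * (PowerSeries.mk (hh (-y))) ^ (k + 1)) =
      2 / π * ∫ θ in (0 : ℝ)..π, xx y θ ^ n * (sin ((k + 1) * θ) * sin θ) := by
  set s := √(1 + y) with hs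
  set H : ℝ⟦X⟧ := PowerSeries.mk (hh (-y)) with hH
  have hq : H = 1 + X * (C (2 + y) * H + C s * (C s * X * H ^ 2)) := by
    ext n
    rcases n with _ | n
    · simp [hH, hh_zero]
    · rw [map_add, coeff_succ_X_mul, coeff_one, if_neg n.succ_ne_zero, zero_add, map_add,
        coeff_C_mul, coeff_C_mul, mul_assoc, coeff_C_mul, ← mul_assoc, ← sq, sqrt_sq' hy]
      simp only [hH, coeff_mk, hh_succ, sub_neg_eq_add]
      congr 2
      rcases n with _ | n
      · simp
      · rw [coeff_succ_X_mul, sq, coeff_mul, Nat.sum_antidiagonal_eq_sum_range_succ_mk]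
        simp
  induction n with
  | zero =>
    intro k
    simp only [pow_zero, one_mul, orth]
    rcases k with _ | k
    · simp [hH, hh_zero, pi_ne_zero]
    · simp
  | succ n ih =>
    intro k
    have hI : ∀ j : ℝ, IntervalIntegrable (fun θ => xx y θ ^ n * (sin (j * θ) * sin θ)) volume 0 π :=
      fun j => Continuous.intervalIntegrable (by fun_prop) _ _
    have key : ∫ θ in (0 : ℝ)..π, xx y θ ^ (n + 1) * (sin ((k + 1) * θ) * sin θ) =
        (2 + y) * (∫ θ in (0 : ℝ)..π, xx y θ ^ n * (sin ((k + 1) * θ) * sin θ)) +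
        s * (∫ θ in (0 : ℝ)..π, xx y θ ^ n * (sin (((k + 1 : ℕ) + 1) * θ) * sin θ)) +
        s * ∫ θ in (0 : ℝ)..π, xx y θ ^ n * (sin (k * θ) * sin θ) := by
      simp only [← intervalIntegral.integral_const_mul]
      rw [← integral_add ((hI _).const_mul _) ((hI _).const_mul _),
        ← integral_add (((hI _).const_mul _).add ((hI _).const_mul _)) ((hI _).const_mul _)]
      refine intervalIntegral.integral_congr fun θ _ => ?_
      have e1 : (k : ℝ) * θ = (k + 1) * θ - θ := by ring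
      have e2 : (((k + 1 : ℕ) : ℝ) + 1) * θ = (k + 1) * θ + θ := by push_cast; ring
      simp only [pow_succ]
      rw [e2, e1, sin_sub, sin_add]
      nth_rewrite 2 [xx]
      ring
    rw [key, mul_add, mul_add, mul_left_comm, ← ih, mul_left_comm, ← ih]
    rcases k with _ | k
    · simp only [pow_zero, one_mul, zero_add, pow_one, Nat.cast_zero, zero_mul, sin_zero, mul_zero,
        intervalIntegral.integral_zero, add_zero]
      conv_lhs => rw [hq]
      rw [map_add, coeff_succ_X_mul, coeff_one, if_neg n.succ_ne_zero, zero_add, map_add,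
        coeff_C_mul, coeff_C_mul]
    · have e : (C s * X) ^ (k + 1) * H ^ (k + 1 + 1) = X * (C (2 + y) * ((C s * X) ^ (k + 1) *
          H ^ (k + 1 + 1)) + C s * ((C s * X) ^ (k + 1 + 1) * H ^ (k + 1 + 1 + 1)) +
          C s * ((C s * X) ^ k * H ^ (k + 1))) := by
        conv_lhs => rw [pow_succ H (k + 1)]; arg 2; arg 2; rw [hq]
        ring
      rw [mul_left_comm, Nat.cast_succ k, ← ih k]
      conv_lhs => rw [e]
      rw [coeff_succ_X_mul, map_add, map_add, coeff_C_mul, coeff_C_mul, coeff_C_mul]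

lemma hh_eq (hy : 0 < y) (n : ℕ) :
    hh (-y) n = 2 / π * ∫ θ in (0 : ℝ)..π, xx y θ ^ n * sin θ ^ 2 := by
  simpa [sq] using hh_series hy n 0

lemma int_inv_xx (hy : 0 < y) : ∫ θ in (0 : ℝ)..π, (xx y θ)⁻¹ = π / y := by
  have h1 := one_lt_sqrt hy
  have h2 := sqrt_sq' hy
  have hd : ∀ θ : ℝ, HasDerivAt (fun θ => (θ - 2 * arctan (sin θ / (√(1 + y) + cos θ))) / y)
      (xx y θ)⁻¹ θ := by
    intro θ
    have h3 : 0 < √(1 + y) + cos θ := by linarith [neg_one_le_cos θ]
    have h4 := ((hasDerivAt_sin θ).div ((hasDerivAt_cos θ).const_add √(1 + y)) h3.ne').arctan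
    refine (((hasDerivAt_id θ).sub (h4.const_mul 2)).div_const y).congr_deriv ?_
    have h5 := xx_pos hy θ
    have h6 := sin_sq_add_cos_sq θ
    have h7 : (√(1 + y) + cos θ) ^ 2 + sin θ ^ 2 = xx y θ := by rw [xx]; nlinarith
    simp only [Pi.div_apply]
    field_simp
    rw [h7]
    field_simp
    rw [xx]; nlinarith
  rw [integral_eq_sub_of_hasDerivAt (fun θ _ => hd θ)
    (((continuous_xx y).inv₀ fun θ => (xx_pos hy θ).ne').intervalIntegrable _ _)]
  simp

lemma int_xx (y : ℝ) : ∫ θ in (0 : ℝ)..π, xx y θ = (2 + y) * π := by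
  unfold xx
  rw [integral_add (by simp) (Continuous.intervalIntegrable (by fun_prop) _ _)]
  simp
  ring

lemma sin_sq_xx (hy : 0 < y) (θ : ℝ) :
    4 * (1 + y) * sin θ ^ 2 = -xx y θ ^ 2 + 2 * (2 + y) * xx y θ - y ^ 2 := by
  have h2 := sqrt_sq' hy
  have h6 := sin_sq_add_cos_sq θ
  have : sin θ ^ 2 = 1 - cos θ ^ 2 := by linarith
  rw [xx, this]
  linear_combination (4 * cos θ ^ 2) * h2

lemma mom_one (hy : 0 < y) : ∫ θ in (0 : ℝ)..π, wt y θ * xx y θ = y := by
  have hi : IntervalIntegrable (fun θ => (xx y θ)⁻¹) volume 0 π :=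
    ((continuous_xx y).inv₀ fun θ => (xx_pos hy θ).ne').intervalIntegrable 0 π
  have hx := (continuous_xx y).intervalIntegrable (μ := volume) 0 π
  have e : ∀ θ, wt y θ * xx y θ =
      y / (2 * π) * (2 * (2 + y) - xx y θ - y ^ 2 * (xx y θ)⁻¹) := by
    intro θ
    have := xx_pos hy θ
    have h := sin_sq_xx hy θ
    rw [wt]
    field_simp
    linear_combination h
  simp only [e]
  rw [intervalIntegral.integral_const_mul, integral_sub (IntervalIntegrable.sub (by simp) hx)
    (hi.const_mul _), integral_sub (by simp) hx, intervalIntegral.integral_const_mul (y ^ 2),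
    int_inv_xx hy, int_xx]
  simp only [intervalIntegral.integral_const, sub_zero, smul_eq_mul]
  field_simp
  ring

lemma mom_two (hy : 0 < y) (n : ℕ) :
    ∫ θ in (0 : ℝ)..π, wt y θ * xx y θ ^ (n + 2) = y * (1 + y) * hh (-y) n := by
  rw [hh_eq hy, ← intervalIntegral.integral_const_mul, ← intervalIntegral.integral_const_mul]
  refine intervalIntegral.integral_congr fun θ _ => ?_
  have := xx_pos hy θ
  simp only [wt]
  field_simp
  ring

lemma mom_zero (hy : 0 < y) : ∫ θ in (0 : ℝ)..π, wt y θ = 1 := by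
  have h1 := one_lt_sqrt hy
  have h2 := sqrt_sq' hy
  have hw := continuous_wt hy
  have hd : ∀ θ : ℝ, HasDerivAt (fun θ => 4 / π * (y * (1 + y)) * √(1 + y) * (sin θ ^ 3 / xx y θ))
      (2 * (wt y θ * xx y θ ^ (0 + 2)) - (2 + y) * (wt y θ * xx y θ) - y ^ 2 * wt y θ) θ := by
    intro θ
    have h5 := xx_pos hy θ
    have h3 : HasDerivAt (xx y) (2 * √(1 + y) * -sin θ) θ :=
      ((hasDerivAt_cos θ).const_mul _).const_add _
    refine ((((hasDerivAt_sin θ).pow 3).div h3 h5.ne').const_mul _).congr_deriv ?_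
    have h := sin_sq_xx hy θ
    have hc : 2 * √(1 + y) * cos θ = xx y θ - (2 + y) := by rw [xx]; ring
    simp only [wt, Pi.pow_apply]
    field_simp
    simp only [Nat.cast_ofNat, Nat.add_one_sub_one]
    linear_combination (3 * sin θ ^ 2 * xx y θ * 2) * hc + 8 * sin θ ^ 4 * h2 + 2 * sin θ ^ 2 * h
  have hI := integral_eq_sub_of_hasDerivAt (a := 0) (b := π) (fun θ _ => hd θ)
    (Continuous.intervalIntegrable (by fun_prop) _ _)
  rw [integral_sub (Continuous.intervalIntegrable (by fun_prop) _ _)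
      (Continuous.intervalIntegrable (by fun_prop) _ _),
    integral_sub (Continuous.intervalIntegrable (by fun_prop) _ _)
      (Continuous.intervalIntegrable (by fun_prop) _ _), intervalIntegral.integral_const_mul,
    intervalIntegral.integral_const_mul, intervalIntegral.integral_const_mul, mom_two hy,
    mom_one hy, hh_zero] at hI
  simp only [sin_pi, sin_zero, ne_eq, OfNat.ofNat_ne_zero, not_false_eq_true, zero_pow, zero_div,
    mul_zero] at hI
  have hy2 : y ^ 2 ≠ 0 := by positivity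
  apply mul_left_cancel₀ hy2
  linarith

/-- The numbers `mm (-y) n` are the moments of `xx y` under the density `wt y`. -/
theorem mom (hy : 0 < y) : ∀ n, ∫ θ in (0 : ℝ)..π, wt y θ * xx y θ ^ n = mm (-y) n
  | 0 => by simpa [mm] using mom_zero hy
  | 1 => by simpa [mm] using mom_one hy
  | n + 2 => by rw [mom_two hy]; simp [mm]

theorem differentiable_M (hy : 0 < y) : Differentiable ℂ (M y) :=
  differentiable_Lap (continuous_wt hy) (continuous_xx y)

theorem iteratedDeriv_M (hy : 0 < y) (n : ℕ) (z : ℂ) : iteratedDeriv n (M y) z =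
    ∫ θ in (0 : ℝ)..π, ((wt y θ * xx y θ ^ n : ℝ) : ℂ) * Complex.exp (z * xx y θ) := by
  rw [M_eq, iteratedDeriv_Lap (continuous_wt hy) (continuous_xx y)]; rfl

theorem iteratedDeriv_M_zero (hy : 0 < y) (n : ℕ) :
    iteratedDeriv n (M y) 0 = (mm (-y) n : ℝ) := by
  rw [M_eq, iteratedDeriv_Lap (continuous_wt hy) (continuous_xx y), Lap_zero, mom hy]

theorem M_zero (hy : 0 < y) : M y 0 = 1 := by
  simpa [mm] using iteratedDeriv_M_zero hy 0

theorem M_conj (y : ℝ) (z : ℂ) : M y (starRingEnd ℂ z) = starRingEnd ℂ (M y z) := Lap_conj _ _ z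

theorem hasSum_M (hy : 0 < y) (z : ℂ) :
    HasSum (fun n : ℕ => ((mm (-y) n : ℝ) : ℂ) * z ^ n / n.factorial) (M y z) := by
  have := Complex.hasSum_taylorSeries_of_entire (differentiable_M hy) 0 z
  simp only [iteratedDeriv_M_zero hy, sub_zero, smul_eq_mul] at this
  refine this.congr_fun fun n => ?_
  ring

/-- The Taylor coefficients of the logarithmic derivative of `M y` are the cumulants. -/
theorem logDeriv_M (hy : 0 < y) (n : ℕ) :
    iteratedDeriv n (logDeriv (M y)) 0 = (cc y (n + 1) : ℝ) := by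
  have hM : AnalyticAt ℂ (M y) 0 := (differentiable_M hy).analyticAt 0
  have h0 : M y 0 ≠ 0 := by rw [M_zero hy]; exact one_ne_zero
  have hu : AnalyticAt ℂ (logDeriv (M y)) 0 := hM.deriv.div hM h0
  have hev : deriv (M y) =ᶠ[nhds 0] logDeriv (M y) * M y := by
    filter_upwards [hM.continuousAt.eventually_ne h0] with z hz
    simp [logDeriv_apply, hz]
  induction n using Nat.strong_induction_on with
  | _ n ih =>
    have h1 := iteratedDeriv_M_zero hy (n + 1)
    rw [iteratedDeriv_succ', hev.iteratedDeriv_eq, iteratedDeriv_mul hu.contDiffAt hM.contDiffAt,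
      cumulant_A, sum_range_succ, sum_range_succ] at h1
    have h2 : ∑ i ∈ range n, (n.choose i : ℂ) * iteratedDeriv i (logDeriv (M y)) 0 *
        iteratedDeriv (n - i) (M y) 0 = ((∑ i ∈ range n, (n.choose i : ℝ) *
          (-Polynomial.aeval (-y) (A (i + 1)) * mm (-y) (n - i)) : ℝ) : ℂ) := by
      rw [Complex.ofReal_sum]
      refine sum_congr rfl fun i hi => ?_
      rw [ih i (mem_range.1 hi), iteratedDeriv_M_zero hy, cc]
      push_cast; ring
    rw [h2, Complex.ofReal_add, add_right_inj] at h1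
    simpa [M_zero hy, mm, cc] using h1

end Pool.Agent.MP_dbd6a6_co.H92
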