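import Pool.Agent.MP_dbd6a6_co.H92.Lines
import Pool.Agent.MP_dbd6a6_co.H92.Fac

/-!
Exactly one conjugate pair of simple zeros in the strip.
-/

open Real MeasureTheory intervalIntegral Set

noncomputable section

namespace Pool.Agent.MP_dbd6a6_co.H92

variable {c d : ℝ}

lemma ff_ne_zero (hd : 0 ≤ d) (hc : d < c) {w : ℂ}
    (h : |w.im| ≤ π / 2 ∨ 39 / 10 ≤ |w.im| ∧ |w.im| ≤ 3 * π / 2) : ff c d w ≠ 0 := by
  intro h0
  rcases h with h | h
  · simpa [h0] using re_ff_pos hd hc h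
  · simpa [h0] using re_ff_neg hd hc h.1 h.2

lemma RI_bounds (hd : 0 ≤ d) (hc : d < c) {X : ℝ}
    (hv : ∀ ε : ℝ, ε ^ 2 = 1 → ∀ w : ℂ, X ≤ ε * w.re → |w.im| ≤ 5 →
      ff c d w ≠ 0 ∧ ‖logDeriv (ff c d) w - ε‖ ≤ 1 / 10) :
    0 < (RI (-X) X 0 (39 / 10) (logDeriv (ff c d))).im ∧
      (RI (-X) X 0 (39 / 10) (logDeriv (ff c d))).im < 4 * π := by
  have hf := differentiable_ff hd hc
  have hπ := pi_gt_d2
  have hπ' := pi_lt_d2
  have bottom : (∫ x in -X..X, logDeriv (ff c d) (x + (0 : ℝ) * Complex.I)).im = 0 := by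
    simp only [Complex.ofReal_zero, zero_mul, add_zero, logDeriv_apply, ff,
      deriv_Lap (continuous_ph hd hc) continuous_cos, Lap_ofReal, ← Complex.ofReal_div]
    rw [intervalIntegral.integral_ofReal, Complex.ofReal_im]
  have top : |(∫ x in -X..X, logDeriv (ff c d) (x + (39 / 10 : ℝ) * Complex.I)).im| < π := by
    have hneg : ∀ x : ℝ, 0 < (-ff c d (x + (39 / 10 : ℝ) * Complex.I)).re := fun x => by
      rw [Complex.neg_re, neg_pos]
      refine re_ff_neg hd hc ?_ ?_ <;> norm_num [abs_of_pos]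
      linarith
    have hne : ∀ x : ℝ, ff c d (x + (39 / 10 : ℝ) * Complex.I) ≠ 0 := fun x h => by
      have := hneg x
      rw [h] at this
      simp at this
    have hD : ∀ x : ℝ, HasDerivAt (fun x : ℝ => Complex.log (-ff c d (x + (39 / 10 : ℝ) * Complex.I)))
        (logDeriv (ff c d) (x + (39 / 10 : ℝ) * Complex.I)) x := fun x => by
      have h1 : HasDerivAt (fun z : ℂ => -ff c d (z + (39 / 10 : ℝ) * Complex.I))
          (-deriv (ff c d) (x + (39 / 10 : ℝ) * Complex.I)) x :=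
        ((hf _).hasDerivAt.comp_add_const (x : ℂ) _).neg
      refine (h1.clog (Or.inl (hneg x))).comp_ofReal.congr_deriv ?_
      rw [neg_div_neg_eq, logDeriv_apply]
    rw [integral_eq_sub_of_hasDerivAt (fun x _ => hD x) (Continuous.intervalIntegrable
      (continuous_iff_continuousAt.2 fun x => ((analyticAt_logDeriv hf (hne x)).continuousAt).comp
        (f := fun x : ℝ => (x : ℂ) + (39 / 10 : ℝ) * Complex.I) (by fun_prop)) _ _),
      Complex.sub_im, Complex.log_im, Complex.log_im]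
    have h1 := abs_lt.1 (Complex.abs_arg_lt_pi_div_two_iff.2 (Or.inl (hneg X)))
    have h2 := abs_lt.1 (Complex.abs_arg_lt_pi_div_two_iff.2 (Or.inl (hneg (-X))))
    rw [abs_lt]; constructor <;> linarith [h1.1, h1.2, h2.1, h2.2]
  have side : ∀ ε : ℝ, ε ^ 2 = 1 → ∀ x : ℝ, X ≤ ε * x →
      |(∫ y in (0 : ℝ)..39 / 10, logDeriv (ff c d) (x + y * Complex.I)).re - ε * (39 / 10)| ≤
        39 / 100 := by
    intro ε hε x hx
    have h := fun y (hy : y ∈ uIcc (0 : ℝ) (39 / 10)) => hv ε hε (x + y * Complex.I)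
      (by simpa using hx) (by
        rw [uIcc_of_le (by norm_num)] at hy
        simp only [Complex.add_im, Complex.ofReal_im, Complex.mul_im, Complex.ofReal_re,
          Complex.I_im, mul_one, Complex.I_re, mul_zero, add_zero, zero_add, abs_of_nonneg hy.1]
        linarith [hy.2])
    have hI : IntervalIntegrable (fun y : ℝ => logDeriv (ff c d) (x + y * Complex.I)) volume 0
        (39 / 10) := ContinuousOn.intervalIntegrable fun y hy =>
      (((analyticAt_logDeriv hf (h y hy).1).continuousAt).comp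
        (f := fun y : ℝ => (x : ℂ) + y * Complex.I) (by fun_prop)).continuousWithinAt
    have h1 := norm_integral_le_of_norm_le_const (a := 0) (b := 39 / 10) (C := 1 / 10)
      (f := fun y : ℝ => logDeriv (ff c d) (x + y * Complex.I) - ε)
      fun y hy => (h y (uIoc_subset_uIcc hy)).2
    rw [integral_sub hI (by simp)] at h1
    have h2 := (Complex.abs_re_le_norm _).trans h1
    norm_num [mul_comm ε] at h2 ⊢
    exact h2
  have right := abs_le.1 (side 1 (by norm_num) X (by simp))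
  have left := abs_le.1 (side (-1) (by norm_num) (-X) (by simp))
  rw [abs_lt] at top
  simp only [RI, Complex.sub_im, Complex.add_im, Complex.mul_im, Complex.I_re, Complex.I_im,
    zero_mul, one_mul, zero_add, bottom]
  constructor <;> linarith [right.1, right.2, left.1, left.2, top.1, top.2]

open Classical in
lemma count_one (hd : 0 ≤ d) (hc : d < c) {X : ℝ} (hX : 0 < X)
    (hv : ∀ ε : ℝ, ε ^ 2 = 1 → ∀ w : ℂ, X ≤ ε * w.re → |w.im| ≤ 5 →
      ff c d w ≠ 0 ∧ ‖logDeriv (ff c d) w - ε‖ ≤ 1 / 10) {Z : Multiset ℂ} {g : ℂ → ℂ}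
    (hg : Differentiable ℂ g) (hf : ∀ z, ff c d z = pr Z z * g z)
    (hne : ∀ z, ‖z‖ ≤ X + 5 → g z ≠ 0) :
    (Z.filter fun u => u ∈ Ioo (-X) X ×ℂ Ioo 0 (39 / 10)).card = 1 := by
  have hπ := pi_gt_d2
  have h := RI_fac (a := -X) (b := X) (c := 0) (d := 39 / 10) (by linarith) (by norm_num) hg
    (fun z hz => hne z ?_) Z fun u hu hb => ?_
  · obtain ⟨h1, h2⟩ := RI_bounds hd hc hv
    rw [funext hf, h] at h1 h2
    simp only [Complex.mul_im, Complex.natCast_re, Complex.mul_re, Complex.re_ofNat,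
      Complex.ofReal_re, Complex.im_ofNat, Complex.ofReal_im, mul_zero, sub_zero, Complex.I_im,
      mul_one, zero_mul, add_zero, Complex.I_re, Complex.natCast_im] at h1 h2
    have h3 := (mul_pos_iff_of_pos_right (by positivity)).1 h1
    have h4 := lt_of_mul_lt_mul_right (h2.trans_eq (show 4 * π = 2 * (2 * π) by ring))
      (by positivity)
    norm_cast at h3 h4
    omega
  · have := Complex.norm_le_abs_re_add_abs_im z
    have h1 : |z.re| ≤ X := abs_le.2 hz.1
    have h2 : |z.im| ≤ 5 := abs_le.2 ⟨by linarith [hz.2.1], by linarith [hz.2.2]⟩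
    linarith
  · have h0 : ff c d u = 0 := by rw [hf, pr_eq_zero.2 hu, zero_mul]
    obtain ⟨⟨⟨h1, h2⟩, h3, h4⟩, h5⟩ := hb
    have h6 : |u.im| ≤ 5 := abs_le.2 ⟨by linarith, by linarith⟩
    refine h5 ⟨⟨h1.lt_of_ne fun h => ?_, h2.lt_of_ne fun h => ?_⟩, h3.lt_of_ne fun h => ?_,
      h4.lt_of_ne fun h => ?_⟩
    · exact (hv (-1) (by norm_num) u (by linarith) h6).1 h0
    · exact (hv 1 (by norm_num) u (by linarith) h6).1 h0
    · exact ff_ne_zero hd hc (Or.inl (by rw [← h, abs_zero]; positivity)) h0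
    · exact ff_ne_zero hd hc (Or.inr (by rw [h, abs_of_pos (by norm_num)]; exact ⟨le_rfl, by linarith⟩)) h0

lemma pr_conj (Z : Multiset ℂ) (z : ℂ) :
    pr (Z.map (starRingEnd ℂ)) z = starRingEnd ℂ (pr Z (starRingEnd ℂ z)) := by
  induction Z using Multiset.induction_on with
  | empty => simp
  | cons a Z ih => simp [ih]

/-- The strip theorem in the centred variable. -/
theorem strip_ff (hd : 0 ≤ d) (hc : d < c) : ∃ w₁ : ℂ, π / 2 < w₁.im ∧ w₁.im < 39 / 10 ∧
    ∃ g : ℂ → ℂ, Differentiable ℂ g ∧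
      (∀ w, ff c d w = (1 - w / w₁) * (1 - w / starRingEnd ℂ w₁) * g w) ∧
      ∀ w : ℂ, |w.im| ≤ 3 * π / 2 → g w ≠ 0 := by
  classical
  have hπ := pi_lt_d2
  obtain ⟨X, hX, hv⟩ := vertical hd hc
  obtain ⟨Z, g, hg, hf, -, hne⟩ := exists_fac (differentiable_ff hd hc) (c := 0)
    (ff_ne_zero hd hc (Or.inl (by simp; positivity))) (r := X + 5) (by linarith)
  simp only [sub_zero] at hne
  have hz : ∀ u ∈ Z, ff c d u = 0 := fun u hu => by rw [hf, pr_eq_zero.2 hu, zero_mul]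
  have hz' : ∀ u, ‖u‖ ≤ X + 5 → ff c d u = 0 → u ∈ Z := fun u hu h => by
    rw [hf] at h
    exact pr_eq_zero.1 ((mul_eq_zero.1 h).resolve_right (hne u hu))
  set p : ℂ → Prop := fun u => u ∈ Ioo (-X) X ×ℂ Ioo 0 (39 / 10) with hp
  have hpn : ∀ u, p u → ‖u‖ ≤ X + 5 := fun u hu => by
    have := Complex.norm_le_abs_re_add_abs_im u
    have h1 : |u.re| < X := abs_lt.2 hu.1
    have h2 : |u.im| < 5 := abs_lt.2 ⟨by linarith [hu.2.1], by linarith [hu.2.2]⟩
    linarith
  obtain ⟨w₁, h₁⟩ := Multiset.card_eq_one.1 (count_one hd hc hX hv hg hf hne)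
  have h₂ := count_one hd hc hX hv (Z := Z.map (starRingEnd ℂ))
    (g := starRingEnd ℂ ∘ g ∘ starRingEnd ℂ)
    (fun z => by simpa using (hg (starRingEnd ℂ z)).conj_conj)
    (fun z => by
      rw [pr_conj, Function.comp_apply, Function.comp_apply, ← map_mul, ← hf, ff_conj,
        Complex.conj_conj])
    (fun z hz => by simpa using hne (starRingEnd ℂ z) (by simpa using hz))
  rw [Multiset.filter_map, Multiset.card_map] at h₂
  obtain ⟨w₂, h₂⟩ := Multiset.card_eq_one.1 h₂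
  have m₁ := Multiset.mem_filter.1 (h₁ ▸ Multiset.mem_singleton_self w₁)
  have m₂ := Multiset.mem_filter.1 (h₂ ▸ Multiset.mem_singleton_self w₂)
  have e : starRingEnd ℂ w₂ = w₁ := by
    rw [← Multiset.mem_singleton, ← h₁, Multiset.mem_filter]
    exact ⟨hz' _ (hpn _ m₂.2) (by rw [ff_conj, hz _ m₂.1, map_zero]), m₂.2⟩
  obtain rfl : w₂ = starRingEnd ℂ w₁ := by rw [← e, Complex.conj_conj]
  have hi := m₁.2.2
  have hw : w₁ ≠ 0 := fun h => by simp [h] at hi
  refine ⟨w₁, ?_, hi.2, ?_⟩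
  · by_contra! h
    exact ff_ne_zero hd hc (Or.inl (by rwa [abs_of_pos hi.1])) (hz _ m₁.1)
  set Z' := (Z.filter fun u => ¬ p u).filter fun u => ¬ p (starRingEnd ℂ u) with hZ'
  have hZ : Z = w₁ ::ₘ starRingEnd ℂ w₁ ::ₘ Z' := by
    rw [← Multiset.singleton_add, ← Multiset.singleton_add, ← h₁, ← h₂]
    conv_lhs => rw [← Multiset.filter_add_not p Z,
      ← Multiset.filter_add_not (fun u => p (starRingEnd ℂ u)) (Z.filter fun u => ¬ p u)]
    congr 2
    rw [Multiset.filter_filter]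
    refine Multiset.filter_congr fun u _ => ⟨fun h => h.1, fun h => ⟨h, fun h' => ?_⟩⟩
    have h1 := h.2.1
    have h2 := h'.2.1
    simp only [Complex.conj_im] at h1 h2
    linarith
  refine ⟨fun w => w₁ * starRingEnd ℂ w₁ * (pr Z' w * g w), by fun_prop, fun w => ?_,
    fun w hw' => ?_⟩
  · have hw2 : starRingEnd ℂ w₁ ≠ 0 := by simpa using hw
    rw [hf, hZ, pr_cons, pr_cons]
    field_simp
    ring
  have hv' : X ≤ |w.re| → ff c d w ≠ 0 := fun h => by
    rcases abs_cases w.re with h1 | h1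
    · exact (hv 1 (by norm_num) w (by linarith) (by linarith)).1
    · exact (hv (-1) (by norm_num) w (by linarith) (by linarith)).1
  refine mul_ne_zero (mul_ne_zero hw (by simpa using hw)) (mul_ne_zero (fun h => ?_) fun h => ?_)
  · rw [pr_eq_zero, hZ', Multiset.mem_filter, Multiset.mem_filter] at h
    have h0 := hz w h.1.1
    have h1 : |w.re| < X := by by_contra! h1; exact hv' h1 h0
    have h2 : |w.im| < 39 / 10 := by by_contra! h2; exact ff_ne_zero hd hc (Or.inr ⟨h2, hw'⟩) h0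
    rcases lt_trichotomy w.im 0 with h3 | h3 | h3
    · exact h.2 ⟨by simpa using abs_lt.1 h1, by
        simp only [mem_preimage, Complex.conj_im, mem_Ioo]
        exact ⟨by linarith, by linarith [(abs_lt.1 h2).1]⟩⟩
    · exact ff_ne_zero hd hc (Or.inl (by rw [h3, abs_zero]; positivity)) h0
    · exact h.1.2 ⟨abs_lt.1 h1, h3, (abs_lt.1 h2).2⟩
  · rcases le_total X |w.re| with h1 | h1
    · exact hv' h1 (by rw [hf, h, mul_zero])
    · exact hne w (by linarith [Complex.norm_le_abs_re_add_abs_im w]) h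

variable {y : ℝ}

lemma sqrt_lt (hy : 0 < y) : 2 * √(1 + y) < 2 + y := by
  nlinarith [one_lt_sqrt hy, sqrt_sq' hy]

lemma M_eq_ff (y : ℝ) (z : ℂ) : M y z = ((2 / π * (y * (1 + y)) : ℝ) : ℂ) *
    Complex.exp (z * (2 + y : ℝ)) * ff (2 + y) (2 * √(1 + y)) ((2 * √(1 + y) : ℝ) * z) := by
  rw [M, ff, Lap, ← intervalIntegral.integral_const_mul]
  refine integral_congr fun θ _ => ?_
  simp only [wt, ph, xx]
  rw [mul_mul_mul_comm, ← Complex.exp_add, mul_div_assoc]
  push_cast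
  congr 2
  ring

/-- The strip theorem for the moment generating function. -/
theorem strip (hy : 0 < y) : ∃ z₁ : ℂ, π / 2 < 2 * √(1 + y) * z₁.im ∧
    2 * √(1 + y) * z₁.im < 39 / 10 ∧ ∃ g : ℂ → ℂ, Differentiable ℂ g ∧
      (∀ z, M y z = (1 - z / z₁) * (1 - z / starRingEnd ℂ z₁) * g z) ∧
      ∀ z : ℂ, |2 * √(1 + y) * z.im| ≤ 3 * π / 2 → g z ≠ 0 := by
  have hs : 0 < 2 * √(1 + y) := by linarith [one_lt_sqrt hy]
  obtain ⟨w₁, h1, h2, g, hg, hf, hne⟩ := strip_ff hs.le (sqrt_lt hy)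
  have e : 2 * √(1 + y) * (w₁ / (2 * √(1 + y) : ℝ)).im = w₁.im := by
    rw [Complex.div_ofReal_im, mul_div_cancel₀ _ hs.ne']
  refine ⟨w₁ / (2 * √(1 + y) : ℝ), by rwa [e], by rwa [e], fun z => ((2 / π * (y * (1 + y)) : ℝ) : ℂ) *
    Complex.exp (z * (2 + y : ℝ)) * g ((2 * √(1 + y) : ℝ) * z), by fun_prop, fun z => ?_,
    fun z hz => ?_⟩
  · rw [M_eq_ff, hf, map_div₀, Complex.conj_ofReal, div_div_eq_mul_div, div_div_eq_mul_div]
    ring
  · refine mul_ne_zero (mul_ne_zero ?_ (Complex.exp_ne_zero _)) (hne _ ?_)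
    · rw [Complex.ofReal_ne_zero]; positivity
    · rwa [Complex.im_ofReal_mul]

end Pool.Agent.MP_dbd6a6_co.H92
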