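import Pool.Agent.MP_dbd6a6_co.H92.Strip

/-!
Zeros with imaginary part between `π` and `3π/2` have small modulus.
-/

open Real MeasureTheory intervalIntegral Set

noncomputable section

namespace Pool.Agent.MP_dbd6a6_co.H92

lemma nonneg_of_deriv_on {g g' : ℝ → ℝ} (h : ∀ x ∈ Icc (0 : ℝ) 1, HasDerivAt g (g' x) x)
    (h0 : g 0 = 0) (h' : ∀ x ∈ Icc (0 : ℝ) 1, 0 ≤ g' x) : ∀ x ∈ Icc (0 : ℝ) 1, 0 ≤ g x := by
  intro x hx
  have := monotoneOn_of_deriv_nonneg (convex_Icc (0 : ℝ) 1) (f := g)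
    (fun x hx => (h x hx).continuousAt.continuousWithinAt)
    (fun x hx => (h x (interior_subset hx)).differentiableAt.differentiableWithinAt)
    (fun x hx => by rw [(h x (interior_subset hx)).deriv]; exact h' x (interior_subset hx))
    (left_mem_Icc.2 zero_le_one) hx hx.1
  rwa [h0] at this

variable {c d : ℝ}

/-- The tilted weight times a polynomial in `d / (c + d t)`. -/
def VP (c d x a₀ a₁ a₂ a₃ a₄ t : ℝ) : ℝ := VV c d x t * (a₀ + a₁ * (d / (c + d * t)) +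
  a₂ * (d / (c + d * t)) ^ 2 + a₃ * (d / (c + d * t)) ^ 3 + a₄ * (d / (c + d * t)) ^ 4)

lemma hasDerivAt_VP (hd : 0 ≤ d) (hc : d < c) (x a₀ a₁ a₂ a₃ : ℝ) {t : ℝ} (ht : -1 ≤ t) :
    HasDerivAt (VP c d x a₀ a₁ a₂ a₃ 0)
      (VP c d x (x * a₀) (x * a₁ - 2 * a₀) (x * a₂ - 3 * a₁) (x * a₃ - 4 * a₂) (-5 * a₃) t) t := by
  have h0 := (den_pos hd hc ht).ne'
  have h1 : HasDerivAt (fun t => c + d * t) d t := by
    simpa using ((hasDerivAt_id t).const_mul d).const_add c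
  have he := (hasDerivAt_const t d).fun_div h1 h0
  have hV := (((hasDerivAt_id' t).const_mul x).exp).fun_div (h1.fun_pow 2) (pow_ne_zero 2 h0)
  refine (hV.fun_mul (((((he.const_mul a₁).const_add a₀).fun_add ((he.fun_pow 2).const_mul a₂)).fun_add
    ((he.fun_pow 3).const_mul a₃)).fun_add ((he.fun_pow 4).const_mul 0))).congr_deriv ?_
  simp only [VP, VV, Nat.cast_ofNat, Nat.add_one_sub_one]
  generalize c + d * t = D at h0 ⊢
  field_simp
  ring

lemma VV_ratio (hd : 0 ≤ d) (hc : d < c) {x b : ℝ} (hb : 0 ≤ b) (hx : b ≤ x ^ 2 / 6) :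
    MonotoneOn (fun t => (VV c d x t + VV c d x (-t)) / (1 + b * t ^ 2)) (Icc 0 1) := by
  set V₀ := VP c d x 1 0 0 0 0 with h₀
  set V₁ := VP c d x x (-2) 0 0 0 with h₁
  set V₂ := VP c d x (x ^ 2) (-4 * x) 6 0 0 with h₂
  set V₃ := VP c d x (x ^ 3) (-6 * x ^ 2) (18 * x) (-24) 0 with h₃
  set V₄ := VP c d x (x ^ 4) (-8 * x ^ 3) (36 * x ^ 2) (-96 * x) 120 with h₄
  have d₀ : ∀ t, -1 ≤ t → HasDerivAt V₀ (V₁ t) t := fun t ht =>
    (hasDerivAt_VP hd hc x _ _ _ _ ht).congr_deriv (by simp only [h₁, VP]; ring)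
  have d₁ : ∀ t, -1 ≤ t → HasDerivAt V₁ (V₂ t) t := fun t ht =>
    (hasDerivAt_VP hd hc x _ _ _ _ ht).congr_deriv (by simp only [h₂, VP]; ring)
  have d₂ : ∀ t, -1 ≤ t → HasDerivAt V₂ (V₃ t) t := fun t ht =>
    (hasDerivAt_VP hd hc x _ _ _ _ ht).congr_deriv (by simp only [h₃, VP]; ring)
  have d₃ : ∀ t, -1 ≤ t → HasDerivAt V₃ (V₄ t) t := fun t ht =>
    (hasDerivAt_VP hd hc x _ _ _ _ ht).congr_deriv (by simp only [h₄, VP]; ring)
  have p₄ : ∀ t, 0 ≤ V₄ t := fun t => by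
    refine mul_nonneg (by unfold VV; positivity) ?_
    generalize d / (c + d * t) = e
    nlinarith [sq_nonneg (x ^ 2 - 4 * x * e + 4 * e ^ 2), sq_nonneg (x * e - 8 / 3 * e ^ 2),
      sq_nonneg (e ^ 2)]
  have ev : ∀ {F F' : ℝ → ℝ}, (∀ t, -1 ≤ t → HasDerivAt F (F' t) t) → ∀ t ∈ Icc (0 : ℝ) 1,
      HasDerivAt (fun t => F t + F (-t)) (F' t - F' (-t)) t := fun h t ht =>
    ((h t (by linarith [ht.1])).fun_add ((h (-t) (by linarith [ht.2])).comp t
      (hasDerivAt_neg t))).congr_deriv (by ring)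
  have od : ∀ {F F' : ℝ → ℝ}, (∀ t, -1 ≤ t → HasDerivAt F (F' t) t) → ∀ t ∈ Icc (0 : ℝ) 1,
      HasDerivAt (fun t => F t - F (-t)) (F' t + F' (-t)) t := fun h t ht =>
    ((h t (by linarith [ht.1])).fun_sub ((h (-t) (by linarith [ht.2])).comp t
      (hasDerivAt_neg t))).congr_deriv (by ring)
  have g₃ := nonneg_of_deriv_on (od d₃) (by simp) fun t _ => add_nonneg (p₄ _) (p₄ _)
  have g₂ := nonneg_of_deriv_on (g := fun t => V₂ t + V₂ (-t) - 2 * V₂ 0)
    (fun t ht => (ev d₂ t ht).sub_const _) (by simp; ring) g₃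
  have g₁ := nonneg_of_deriv_on (g := fun t => V₁ t - V₁ (-t) - 2 * V₂ 0 * t)
    (fun t ht => ((od d₁ t ht).fun_sub ((hasDerivAt_id' t).const_mul _)).congr_deriv
      (by rw [mul_one])) (by simp) g₂
  have m₁ := nonneg_of_deriv_on (g := fun t => t * (V₂ t + V₂ (-t)) - (V₁ t - V₁ (-t)))
    (g' := fun t => t * (V₃ t - V₃ (-t)))
    (fun t ht => (((hasDerivAt_id' t).fun_mul (ev d₂ t ht)).fun_sub (od d₁ t ht)).congr_deriv
      (by ring)) (by simp) fun t ht => mul_nonneg ht.1 (g₃ t ht)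
  have m₀ := nonneg_of_deriv_on
    (g := fun t => 4 * V₀ 0 + t * (V₁ t - V₁ (-t)) - 2 * (V₀ t + V₀ (-t)))
    (fun t ht => ((((hasDerivAt_id' t).fun_mul (od d₁ t ht)).const_add _).fun_sub
      ((ev d₀ t ht).const_mul 2)).congr_deriv (by ring)) (by simp; ring) m₁
  have h20 : 2 * b * V₀ 0 ≤ V₂ 0 := by
    simp only [h₀, h₂, VP]
    rw [mul_left_comm]
    refine mul_le_mul_of_nonneg_left ?_ (by unfold VV; positivity)
    generalize d / (c + d * 0) = e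
    nlinarith [sq_nonneg (x - 3 * e)]
  have hD : ∀ t ∈ Icc (0 : ℝ) 1, HasDerivAt (fun t => (V₀ t + V₀ (-t)) / (1 + b * t ^ 2))
      (((V₁ t - V₁ (-t)) * (1 + b * t ^ 2) - (V₀ t + V₀ (-t)) * (b * (2 * t))) /
        (1 + b * t ^ 2) ^ 2) t := fun t ht =>
    ((ev d₀ t ht).fun_div (((hasDerivAt_pow 2 t).const_mul b).const_add 1)
      (by positivity)).congr_deriv (by norm_num)
  have e : ∀ t, VV c d x t = V₀ t := fun t => by simp [h₀, VP]
  simp only [e]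
  refine monotoneOn_of_deriv_nonneg (convex_Icc (0 : ℝ) 1)
    (fun t ht => (hD t ht).continuousAt.continuousWithinAt)
    (fun t ht => (hD t (interior_subset ht)).differentiableAt.differentiableWithinAt)
    fun t ht => ?_
  have ht' := interior_subset ht
  rw [(hD t ht').deriv]
  refine div_nonneg ?_ (by positivity)
  have h1 := mul_nonneg (mul_nonneg hb ht'.1) (m₀ t ht')
  have h2 := mul_le_mul_of_nonneg_right h20 ht'.1
  have h3 := g₁ t ht'
  nlinarith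

lemma bessel_two_neg {H : ℝ} (h1 : π ≤ H) (h2 : H ≤ 39 / 10) :
    ∫ θ in (0 : ℝ)..π, (1 + (19.6 - H ^ 2) / 6 * cos θ ^ 2) * (sin θ ^ 2 * cos (H * cos θ)) < 0 := by
  have c0 : ∫ θ in (0 : ℝ)..π, cos θ ^ 0 = π := by simp
  have c2 := int_cos_pow 0
  have c4 := int_cos_pow 2
  have c6 := int_cos_pow 4
  have c8 := int_cos_pow 6
  have c10 := int_cos_pow 8
  have c12 := int_cos_pow 10
  norm_num only at c2 c4 c6 c8 c10 c12
  have hπ := pi_gt_d4
  obtain ⟨b, hb⟩ : ∃ b, b = (19.6 - H ^ 2) / 6 := ⟨_, rfl⟩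
  have hb0 : 0 ≤ b := by nlinarith
  rw [← hb]
  have hI : ∀ (a : ℝ) (n : ℕ), IntervalIntegrable (fun θ => a * cos θ ^ n) volume 0 π :=
    fun a n => Continuous.intervalIntegrable (by fun_prop) _ _
  have key : ∫ θ in (0 : ℝ)..π, (1 + b * cos θ ^ 2) * (sin θ ^ 2 * cos (H * cos θ)) ≤
      ∫ θ in (0 : ℝ)..π, 1 * cos θ ^ 0 + (-1 - H ^ 2 / 2 + b) * cos θ ^ 2 +
      (H ^ 2 / 2 + H ^ 4 / 24 + b * (-1 - H ^ 2 / 2)) * cos θ ^ 4 +
      (-H ^ 4 / 24 - H ^ 6 / 720 + b * (H ^ 2 / 2 + H ^ 4 / 24)) * cos θ ^ 6 +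
      (H ^ 6 / 720 + H ^ 8 / 40320 + b * (-H ^ 4 / 24 - H ^ 6 / 720)) * cos θ ^ 8 +
      (-H ^ 8 / 40320 + b * (H ^ 6 / 720 + H ^ 8 / 40320)) * cos θ ^ 10 +
      (b * (-H ^ 8 / 40320)) * cos θ ^ 12 := by
    refine integral_mono_on pi_pos.le (Continuous.intervalIntegrable (by fun_prop) _ _)
      (Continuous.intervalIntegrable (by fun_prop) _ _) fun θ _ => ?_
    refine (mul_le_mul_of_nonneg_left (mul_le_mul_of_nonneg_left (cos_le_eight _) (sq_nonneg _))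
      (by positivity)).trans (le_of_eq ?_)
    rw [sin_sq]; ring
  rw [integral_add (Continuous.intervalIntegrable (by fun_prop) _ _) (hI _ _),
    integral_add (Continuous.intervalIntegrable (by fun_prop) _ _) (hI _ _),
    integral_add (Continuous.intervalIntegrable (by fun_prop) _ _) (hI _ _),
    integral_add (Continuous.intervalIntegrable (by fun_prop) _ _) (hI _ _),
    integral_add (Continuous.intervalIntegrable (by fun_prop) _ _) (hI _ _),
    integral_add (hI _ _) (hI _ _)] at key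
  simp only [intervalIntegral.integral_const_mul] at key
  rw [c12, c10, c8, c6, c4, c2, c0] at key
  refine key.trans_lt ?_
  obtain ⟨q, hq⟩ : ∃ q, q = H ^ 2 / 4 := ⟨_, rfl⟩
  have hq1 : 2.4672 ≤ q := by nlinarith
  have hq2 : q ≤ 3.8025 := by nlinarith
  have hP : 1 - q / 2 + q ^ 2 / 12 - q ^ 3 / 144 + q ^ 4 / 2880 + (19.6 - 4 * q) / 6 *
      (1 / 4 - q / 4 + 5 * q ^ 2 / 96 - 7 * q ^ 3 / 1440 + q ^ 4 / 3840) < 0 := by
    obtain ⟨t, rfl⟩ : ∃ t, q = 2.4672 + t := ⟨q - 2.4672, by ring⟩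
    have ht : 0 ≤ t := by linarith
    have ht2 : 0 ≤ 1.3353 - t := by linarith
    nlinarith [mul_nonneg ht ht2, mul_nonneg (pow_nonneg ht 2) ht2,
      mul_nonneg (pow_nonneg ht 3) ht2, mul_nonneg (pow_nonneg ht 4) ht2, pow_nonneg ht 5]
  refine lt_of_eq_of_lt ?_ (mul_neg_of_pos_of_neg (show 0 < π / 2 by positivity) hP)
  rw [hq, hb]; ring

theorem upper_ff (hd : 0 ≤ d) (hc : d < c) {w : ℂ} (h0 : ff c d w = 0) (h1 : π ≤ w.im)
    (h2 : w.im ≤ 3 * π / 2) : ‖w‖ ^ 2 ≤ 19.6 := by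
  have hH : 0 < w.im := pi_pos.trans_le h1
  have h3 : w.im ≤ 39 / 10 := by
    by_contra! h
    exact ff_ne_zero hd hc (Or.inr (by rw [abs_of_pos hH]; exact ⟨h.le, h2⟩)) h0
  by_contra! h
  rw [Complex.sq_norm, Complex.normSq_apply] at h
  have hV := continuous_VV hd hc w.re
  have ht0 : π / 2 / w.im ≤ 1 := by rw [div_le_one hH]; linarith [pi_pos]
  have ht1 : 0 < π / 2 / w.im := by positivity
  obtain ⟨b, hb⟩ : ∃ b, b = (19.6 - w.im ^ 2) / 6 := ⟨_, rfl⟩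
  have hb0 : 0 ≤ b := by nlinarith
  have hm := VV_ratio hd hc (x := w.re) hb0 (by nlinarith)
  have hneg := bessel_two_neg h1 h3
  rw [← hb] at hneg
  set K := (VV c d w.re (π / 2 / w.im) + VV c d w.re (-(π / 2 / w.im))) /
    (1 + b * (π / 2 / w.im) ^ 2) with hK
  have key : 2 * (ff c d w).re ≤
      K * ∫ θ in (0 : ℝ)..π, (1 + b * cos θ ^ 2) * (sin θ ^ 2 * cos (w.im * cos θ)) := by
    rw [two_re_ff hd hc, ← intervalIntegral.integral_const_mul]
    refine integral_mono_on pi_pos.le (Continuous.intervalIntegrable (by fun_prop) _ _)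
      (Continuous.intervalIntegrable (by fun_prop) _ _) fun θ _ => ?_
    have hs := cos_sign hH h2 (abs_cos_le_one θ)
    have e : VV c d w.re (cos θ) + VV c d w.re (-cos θ) =
        VV c d w.re |cos θ| + VV c d w.re (-|cos θ|) := by
      rcases abs_cases (cos θ) with h3 | h3 <;> rw [h3.1]
      rw [neg_neg, add_comm]
    have hp : 0 < 1 + b * |cos θ| ^ 2 := by positivity
    have m1 : |cos θ| ∈ Icc (0 : ℝ) 1 := ⟨abs_nonneg _, abs_cos_le_one θ⟩
    rw [← mul_assoc K, e, ← sq_abs (cos θ)]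
    rcases le_total |cos θ| (π / 2 / w.im) with h | h
    · exact mul_le_mul_of_nonneg_right ((div_le_iff₀ hp).1 (hm m1 ⟨ht1.le, ht0⟩ h))
        (mul_nonneg (sq_nonneg _) (hs.1 h))
    · exact mul_le_mul_of_nonpos_right ((le_div_iff₀ hp).1 (hm ⟨ht1.le, ht0⟩ m1 h))
        (mul_nonpos_of_nonneg_of_nonpos (sq_nonneg _) (hs.2 h))
  have hpos : 0 < K := by
    have := den_pos hd hc (t := π / 2 / w.im) (by linarith)
    have := den_pos hd hc (t := -(π / 2 / w.im)) (by linarith)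
    rw [hK]; unfold VV; positivity
  rw [h0, Complex.zero_re] at key
  linarith [mul_neg_of_pos_of_neg hpos hneg]

/-- Zeros of the moment generating function in the upper part of the strip. -/
theorem S2 {y : ℝ} (hy : 0 < y) {z : ℂ} (h0 : M y z = 0) (h1 : π ≤ 2 * √(1 + y) * z.im)
    (h2 : 2 * √(1 + y) * z.im ≤ 3 * π / 2) : ‖((2 * √(1 + y) : ℝ) : ℂ) * z‖ ^ 2 ≤ 19.6 := by
  have hs : 0 < 2 * √(1 + y) := by linarith [one_lt_sqrt hy]
  rw [M_eq_ff] at h0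
  refine upper_ff hs.le (sqrt_lt hy) ((mul_eq_zero.1 h0).resolve_left
    (mul_ne_zero ?_ (Complex.exp_ne_zero _))) (by rwa [Complex.im_ofReal_mul])
    (by rwa [Complex.im_ofReal_mul])
  rw [Complex.ofReal_ne_zero]; positivity

end Pool.Agent.MP_dbd6a6_co.H92
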